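import Pool.Agent.J4H41.AM.RData

/-!
# The reduction step: from an amalgam of the cores to an amalgam
-/

namespace Pool.Agent.J4H41.AM

open Classical

/-- amalgam of the restrictions to two subsets -/
def AmalgOn {X Y : Type} (c : X → Prop) (c' : Y → Prop) (x y : X → ℤ) (a b : X) (x' y' : Y → ℤ)
    (a' b' : Y) : Prop :=
  ∃ (u v : X → ℤ) (u' v' : Y → ℤ),
    (∀ p q, c p → c q → x p < x q → u p < u q) ∧ (∀ p q, c p → c q → y p < y q → v p < v q) ∧
    (∀ p q, c' p → c' q → x' p < x' q → u' p < u' q) ∧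
    (∀ p q, c' p → c' q → y' p < y' q → v' p < v' q) ∧
    (∀ p q, c p → c' q → (u p = u' q ↔ (p = a ∧ q = a') ∨ (p = b ∧ q = b'))) ∧
    (∀ p q, c p → c' q → (v p = v' q ↔ (p = a ∧ q = a') ∨ (p = b ∧ q = b'))) ∧
    (∀ p q r s : X ⊕ Y, Sum.elim c c' p → Sum.elim c c' q → Sum.elim c c' r → Sum.elim c c' s →
      Sum.elim u u' p < Sum.elim u u' q → Sum.elim u u' q < Sum.elim u u' r →
      Sum.elim u u' r < Sum.elim u u' s → Sum.elim v v' q < Sum.elim v v' s →
      Sum.elim v v' s < Sum.elim v v' p → Sum.elim v v' p < Sum.elim v v' r → False)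

section
variable {X : Type} {x y : X → ℤ} {a b : X} {q : X → ℕ} {i o r : X → ℤ} {m : ℤ}

/-- one side of the reduction: the labels obtained from coordinates of the core -/
structure Lab (x y : X → ℤ) (a b : X) (q : X → ℕ) (i o r : X → ℤ) (m : ℤ) (u v : X → ℤ) (C : ℤ)
    (rp : X → X) (pos yp kin kout : X → ℤ) : Prop where
  hpos : ∀ p, pos p = C - u (rp p)
  hyp : ∀ p, yp p = C - v p
  st : Strand r i o a (2 * C + 1) pos kin kout
  posr : ∀ p, Seg r i o a p ∨ Cut r i o a p → 0 ≤ pos p ∧ pos p < 2 * C + 1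
  ypr : ∀ p, Seg r i o a p → 0 ≤ yp p ∧ yp p < 2 * C + 1
  pss : ∀ s s', Seg r i o a s → Seg r i o a s' → o s < o s' → pos s < pos s'
  psg : ∀ s g, Seg r i o a s → Cut r i o a g → o s < i g → pos s < pos g
  pgs : ∀ s g, Seg r i o a s → Cut r i o a g → i g < o s → pos g < pos s
  ypm : ∀ s s', Seg r i o a s → Seg r i o a s' → i s < i s' → yp s < yp s'
  rseg : ∀ s, Seg r i o a s → rp s = s
  rcut : ∀ g, Cut r i o a g → Cut r i o a (rp g) ∧ Core r i o a b (rp g)

theorem exists_lab [Finite X] (D : RD x y a b q i o r m) {u v : X → ℤ} {C : ℤ}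
    (hu : ∀ p p', Core r i o a b p → Core r i o a b p' → x p < x p' → u p < u p')
    (hv : ∀ p p', Core r i o a b p → Core r i o a b p' → y p < y p' → v p < v p')
    (hC : ∀ p, -C ≤ u p ∧ u p ≤ C ∧ -C ≤ v p ∧ v p ≤ C) (hC0 : 0 ≤ C) :
    ∃ (rp : X → X) (pos yp kin kout : X → ℤ), Lab x y a b q i o r m u v C rp pos yp kin kout := by
  have R := D.rk
  have key := fun p => exists_rep (a := a) R p
  choose rp hrp using key
  have cutne : ∀ p, Seg r i o a p → ¬ Cut r i o a p := fun p h h' => by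
    have := h.1; have := h'.1; omega
  have rseg : ∀ s, Seg r i o a s → rp s = s := fun s h => (hrp s).2 (cutne s h)
  have rcut : ∀ g, Cut r i o a g → Cut r i o a (rp g) ∧ IsRep r i o (rp g) ∧
    SameGap r i o g (rp g) ∧ r (rp g) = r g := fun g h => (hrp g).1 h
  have cseg : ∀ s, Seg r i o a s → Core r i o a b s := fun s h => Or.inr (Or.inl h)
  have ccut : ∀ g, Cut r i o a g → Core r i o a b (rp g) := fun g h =>
    Or.inr (Or.inr ⟨(rcut g h).1, (rcut g h).2.1⟩)
  let pos : X → ℤ := fun p => C - u (rp p)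
  let yp : X → ℤ := fun p => C - v p
  have posr : ∀ p, Seg r i o a p ∨ Cut r i o a p → 0 ≤ pos p ∧ pos p < 2 * C + 1 := by
    intro p _
    have := hC (rp p)
    simp only [pos]; omega
  have pss : ∀ s s', Seg r i o a s → Seg r i o a s' → o s < o s' → pos s < pos s' := by
    intro s s' h1 h2 h3
    have e1 := D.seg h1
    have e2 := D.seg h2
    have := hu s' s (cseg s' h2) (cseg s h1) (by omega)
    simp only [pos, rseg s h1, rseg s' h2]; omega
  have psg : ∀ s g, Seg r i o a s → Cut r i o a g → o s < i g → pos s < pos g := by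
    intro s g h1 h2 h3
    obtain ⟨g1, g2, g3, g4⟩ := rcut g h2
    have e1 := D.seg h1
    have e2 := D.cut g1
    have e3 := D.cut h2
    have f1 := g3 s (by omega)
    have f2 := R.ne s (rp g) (by omega)
    have := hu (rp g) s (ccut g h2) (cseg s h1) (by omega)
    simp only [pos, rseg s h1]; omega
  have pgs : ∀ s g, Seg r i o a s → Cut r i o a g → i g < o s → pos g < pos s := by
    intro s g h1 h2 h3
    obtain ⟨g1, g2, g3, g4⟩ := rcut g h2
    have e1 := D.seg h1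
    have e2 := D.cut g1
    have e3 := D.cut h2
    have f1 := g3 s (by omega)
    have f2 := R.ne s (rp g) (by omega)
    have := hu s (rp g) (cseg s h1) (ccut g h2) (by omega)
    simp only [pos, rseg s h1]; omega
  have pge : ∀ g g', Cut r i o a g → Cut r i o a g' → SameGap r i o g g' → pos g = pos g' := by
    intro g g' h1 h2 h3
    obtain ⟨g1, g2, g3, g4⟩ := rcut g h1
    obtain ⟨j1, j2, j3, j4⟩ := rcut g' h2
    have e1 := D.cut h1
    have e2 := D.cut h2
    have hs : SameGap r i o (rp g) g := fun z hz =>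
      ⟨(g3 z (by omega)).2, (g3 z (by omega)).1⟩
    have hs' : SameGap r i o (rp g) (rp g') :=
      (hs.trans R h3 (by omega)).trans R j3 (by omega)
    have hs'' : SameGap r i o (rp g') (rp g) := fun z hz =>
      ⟨(hs' z (by omega)).2, (hs' z (by omega)).1⟩
    have l1 := g2 (rp g') (by omega) hs'
    have l2 := j2 (rp g) (by omega) hs''
    have : rp g = rp g' := R.ii _ _ (by omega) (by omega)
    simp only [pos, this]
  have pgg : ∀ g g', Cut r i o a g → Cut r i o a g' → i g < i g' → pos g ≤ pos g' := by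
    intro g g' h1 h2 h3
    by_cases hg : SameGap r i o g g'
    · exact (pge g g' h1 h2 hg).le
    · obtain ⟨g1, g2, g3, g4⟩ := rcut g h1
      obtain ⟨j1, j2, j3, j4⟩ := rcut g' h2
      have e1 := D.cut h1
      have e2 := D.cut h2
      have e3 := D.cut g1
      have e4 := D.cut j1
      unfold SameGap at hg
      push Not at hg
      obtain ⟨z, hz1, hz2⟩ := hg
      have hz3 : i g < o z ∧ o z < i g' := by
        by_contra hcon
        have := hz2 (by omega)
        omega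
      have f1 := g3 z (by omega)
      have f2 := j3 z (by omega)
      have f3 := R.ne z (rp g) (by omega)
      have f4 := R.ne z (rp g') (by omega)
      have := hu (rp g') (rp g) (ccut g' h2) (ccut g h1) (by omega)
      simp only [pos]; omega
  have hra : 0 ≤ r a := by have := D.ra; have := D.m0; omega
  obtain ⟨kin, kout, hst⟩ := t_STRAND X r i o R D.lb a hra (2 * C + 1) (by omega) pos posr pss psg
    pgs pgg pge
  refine ⟨rp, pos, yp, kin, kout, fun p => rfl, fun p => rfl, hst, posr, ?_, pss, psg, pgs, ?_,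
    rseg, fun g h => ⟨(rcut g h).1, ccut g h⟩⟩
  · intro p _
    have := hC p
    simp only [yp]; omega
  · intro s s' h1 h2 h3
    have e1 := D.seg h1
    have e2 := D.seg h2
    have := hv s' s (cseg s' h2) (cseg s h1) (by omega)
    simp only [yp]; omega

end

/-- a bound for finitely many integers -/
theorem exists_bound {X : Type} [Finite X] (f : X → ℤ) : ∃ C : ℤ, 0 ≤ C ∧ ∀ p, -C ≤ f p ∧ f p ≤ C := by
  have h1 := (Set.finite_range f).bddAbove
  have h2 := (Set.finite_range f).bddBelow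
  obtain ⟨A, hA⟩ := h1
  obtain ⟨A', hA'⟩ := h2
  refine ⟨|A| + |A'|, by positivity, fun p => ?_⟩
  have h3 := hA (Set.mem_range_self p)
  have h4 := hA' (Set.mem_range_self p)
  have h5 := le_abs_self A
  have h6 := neg_abs_le A'
  have h7 := abs_nonneg A
  have h8 := abs_nonneg A'
  constructor <;> linarith

section
variable {X Y : Type} [Finite X] [Finite Y] {x y : X → ℤ} {x' y' : Y → ℤ} {a b : X} {a' b' : Y}
  {q : X → ℕ} {i o r : X → ℤ} {q' : Y → ℕ} {i' o' r' : Y → ℤ} {m : ℤ}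

/-- equality of coordinates of the amalgam -/
theorem px_eq_cases {s t : ℕ} {i o i' o' : ℤ} (hs : s ≤ 4) (ht : t ≤ 4) (h1 : 0 < i) (h2 : 0 < o)
    (h3 : 0 < i') (h4 : 0 < o') (h : px s i o = px t i' o') :
    (s = 4 ∧ t = 4) ∨ (s = t ∧ s < 4 ∧ (o = o' ∨ i = i')) ∨
      (t = (s + 1) % 4 ∧ s < 4 ∧ o = i') ∨ (s = (t + 1) % 4 ∧ t < 4 ∧ i = o') := by
  rcases quad i o hs with ⟨c, d, e⟩ | ⟨c, d, e⟩ | ⟨c, d, e⟩ | ⟨c, d, e⟩ | ⟨c, d, e⟩ <;>
  rcases quad i' o' ht with ⟨c', d', e'⟩ | ⟨c', d', e'⟩ | ⟨c', d', e'⟩ | ⟨c', d', e'⟩ |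
    ⟨c', d', e'⟩ <;> omega

theorem py_eq_cases {s t : ℕ} {i o i' o' : ℤ} (hs : s ≤ 4) (ht : t ≤ 4) (h1 : 0 < i) (h2 : 0 < o)
    (h3 : 0 < i') (h4 : 0 < o') (h : py s i o = py t i' o') :
    (s = 4 ∧ t = 4) ∨ (s = t ∧ s < 4 ∧ (o = o' ∨ i = i')) ∨
      (t = (s + 1) % 4 ∧ s < 4 ∧ o = i') ∨ (s = (t + 1) % 4 ∧ t < 4 ∧ i = o') := by
  rcases quad i o hs with ⟨c, d, e⟩ | ⟨c, d, e⟩ | ⟨c, d, e⟩ | ⟨c, d, e⟩ | ⟨c, d, e⟩ <;>
  rcases quad i' o' ht with ⟨c', d', e'⟩ | ⟨c', d', e'⟩ | ⟨c', d', e'⟩ | ⟨c', d', e'⟩ |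
    ⟨c', d', e'⟩ <;> omega

/-- the reduction for given ranked data -/
theorem reduce (D : RD x y a b q i o r m) (D' : RD x' y' a' b' q' i' o' r' m)
    (hA : AmalgOn (Core r i o a b) (Core r' i' o' a' b') x y a b x' y' a' b') :
    Amalg x y a b x' y' a' b' := by
  obtain ⟨u, v, u', v', hu, hv, hu', hv', eu, ev, hF⟩ := hA
  obtain ⟨C1, c10, c1⟩ := exists_bound u
  obtain ⟨C2, c20, c2⟩ := exists_bound v
  obtain ⟨C3, c30, c3⟩ := exists_bound u'
  obtain ⟨C4, c40, c4⟩ := exists_bound v'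
  obtain ⟨C, hC⟩ : ∃ C, C = C1 + C2 + C3 + C4 := ⟨_, rfl⟩
  have hC0 : 0 ≤ C := by omega
  obtain ⟨rp, pos, yp, kin, kout, L⟩ := exists_lab D (u := u) (v := v) (C := C) hu hv
    (fun p => by have := c1 p; have := c2 p; omega) hC0
  obtain ⟨rp', pos', yp', kin', kout', L'⟩ := exists_lab D' (u := u') (v := v') (C := C) hu' hv'
    (fun p => by have := c3 p; have := c4 p; omega) hC0
  have hB : 0 < 2 * C + 1 := by omega
  obtain ⟨x1, x2, x3⟩ := encX_prop (2 * C + 1)
  obtain ⟨y1, y2, y3⟩ := encY_prop (2 * C + 1)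
  have S : Side r i o a (2 * C + 1) pos yp kin kout encX (fun _ => 1) :=
    ⟨D.rk, L.st, hB, x1, x2, x3, fun _ => ⟨by norm_num, by norm_num⟩, fun _ _ _ _ _ _ _ => le_refl _,
      L.posr, L.ypr, L.pss, L.psg, L.pgs, L.ypm⟩
  have S' : Side r' i' o' a' (2 * C + 1) pos' yp' kin' kout' (encY (2 * C + 1))
      (ccY r' i' o' a' kin' kout') := by
    refine ⟨D'.rk, L'.st, hB, y1, y2, y3, ?_, ?_, L'.posr, L'.ypr, L'.pss, L'.psg, L'.pgs, L'.ypm⟩
    · intro p; unfold ccY; split_ifs <;> constructor <;> norm_num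
    · intro p p' h1 h2 h3 h4 h5
      unfold ccY
      by_cases hl : Low r' i' o' a' kin' kout' p'
      · have hl' : Low r' i' o' a' kin' kout' p := by
          obtain ⟨z, g, w, z1, z2, z3, z4, z5, z6, z7, z8, z9, z10, z11⟩ := hl
          exact ⟨z, g, w, by omega, by omega, z3, z4, z5, by omega, z7, z8, z9, z10, by omega⟩
        rw [if_pos hl, if_pos hl']
      · rw [if_neg hl]; split_ifs <;> norm_num
  have hρ : r' a' = r a := by rw [D.ra, D'.ra]
  have hm0 := D.m0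
  have cseg : ∀ s, Seg r i o a s → Core r i o a b s := fun s h => Or.inr (Or.inl h)
  have cseg' : ∀ s, Seg r' i' o' a' s → Core r' i' o' a' b' s := fun s h => Or.inr (Or.inl h)
  have crp : ∀ p, (Seg r i o a p ∨ Cut r i o a p) → Core r i o a b (rp p) ∧ rp p ≠ b ∧
      (rp p = a → p = a) := by
    rintro p (h | h)
    · have e := D.seg h
      rw [L.rseg p h]
      refine ⟨cseg p h, ?_, fun h' => h'⟩
      rintro rfl; have := D.rb; omega
    · have e := L.rcut p h
      have e' := D.cut e.1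
      refine ⟨e.2, ?_, ?_⟩
      · intro h'; rw [h'] at e'; have := D.rb; omega
      · intro h'; rw [h'] at e'; have := D.ra; omega
  have crp' : ∀ p, (Seg r' i' o' a' p ∨ Cut r' i' o' a' p) → Core r' i' o' a' b' (rp' p) ∧
      rp' p ≠ b' ∧ (rp' p = a' → p = a') := by
    rintro p (h | h)
    · have e := D'.seg h
      rw [L'.rseg p h]
      refine ⟨cseg' p h, ?_, fun h' => h'⟩
      rintro rfl; have := D'.rb; omega
    · have e := L'.rcut p h
      have e' := D'.cut e.1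
      refine ⟨e.2, ?_, ?_⟩
      · intro h'; rw [h'] at e'; have := D'.rb; omega
      · intro h'; rw [h'] at e'; have := D'.ra; omega
  have hpos : ∀ p s, (Seg r i o a p ∨ Cut r i o a p) → (Seg r' i' o' a' s ∨ Cut r' i' o' a' s) →
      pos p = pos' s → p = a ∧ s = a' := by
    intro p s h1 h2 h3
    obtain ⟨g1, g2, g3⟩ := crp p h1
    obtain ⟨j1, j2, j3⟩ := crp' s h2
    rw [L.hpos, L'.hpos] at h3
    rcases (eu (rp p) (rp' s) g1 j1).1 (by omega) with ⟨h4, h5⟩ | ⟨h4, h5⟩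
    · exact ⟨g3 h4, j3 h5⟩
    · exact absurd h4 g2
  have hyp : ∀ p s, Seg r i o a p → Seg r' i' o' a' s → yp p = yp' s → p = a ∧ s = a' := by
    intro p s h1 h2 h3
    rw [L.hyp, L'.hyp] at h3
    rcases (ev p s (cseg p h1) (cseg' s h2)).1 (by omega) with h4 | ⟨h4, h5⟩
    · exact h4
    · subst h4
      have := D.seg h1; have := D.rb; omega
  have hca : Core r i o a b a := cseg a ⟨rfl, fun z _ => ⟨by omega, by omega⟩⟩
  have hca' : Core r' i' o' a' b' a' := cseg' a' ⟨rfl, fun z _ => ⟨by omega, by omega⟩⟩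
  have hcb : Core r i o a b b := Or.inl rfl
  have hcb' : Core r' i' o' a' b' b' := Or.inl rfl
  have hvb : v b = v' b' := (ev b b' hcb hcb').2 (Or.inr ⟨rfl, rfl⟩)
  -- positions of segment elements in the sum
  have sposx : ∀ t : X ⊕ Y, Sum.elim (Seg r i o a) (Seg r' i' o' a') t →
      Sum.elim pos pos' t = C - Sum.elim u u' t ∧ Sum.elim yp yp' t = C - Sum.elim v v' t ∧
      Sum.elim (Core r i o a b) (Core r' i' o' a' b') t ∧ Sum.elim v v' t < v b := by
    rintro (t | t) ht <;> simp only [Sum.elim_inl, Sum.elim_inr] at ht ⊢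
    · refine ⟨by rw [L.hpos, L.rseg t ht], L.hyp t, cseg t ht, ?_⟩
      have := D.seg ht
      exact hv t b (cseg t ht) hcb (by omega)
    · refine ⟨by rw [L'.hpos, L'.rseg t ht], L'.hyp t, cseg' t ht, ?_⟩
      have := D'.seg ht
      rw [hvb]
      exact hv' t b' (cseg' t ht) hcb' (by omega)
  have scut : ∀ t : X ⊕ Y, Sum.elim (Cut r i o a) (Cut r' i' o' a') t →
      ∃ g : X ⊕ Y, Sum.elim (Core r i o a b) (Core r' i' o' a' b') g ∧
        Sum.elim pos pos' t = C - Sum.elim u u' g ∧ v b < Sum.elim v v' g := by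
    rintro (t | t) ht <;> simp only [Sum.elim_inl, Sum.elim_inr] at ht
    · refine ⟨Sum.inl (rp t), (L.rcut t ht).2, ?_, ?_⟩
      · simp only [Sum.elim_inl]; exact L.hpos t
      · simp only [Sum.elim_inl]
        have := D.cut (L.rcut t ht).1
        exact hv b (rp t) hcb (L.rcut t ht).2 (by omega)
    · refine ⟨Sum.inr (rp' t), (L'.rcut t ht).2, ?_, ?_⟩
      · simp only [Sum.elim_inr]; exact L'.hpos t
      · simp only [Sum.elim_inr]
        rw [hvb]
        have := D'.cut (L'.rcut t ht).1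
        exact hv' b' (rp' t) hcb' (L'.rcut t ht).2 (by omega)
  have M := glue_Mg S S' hρ hpos
    (by
      intro p₁ p₂ p₃ p₄ s1 s2 s3 s4 h1 h2 h3 h4 h5 h6
      obtain ⟨a1, a2, a3, _⟩ := sposx p₁ s1
      obtain ⟨b1, b2, b3, _⟩ := sposx p₂ s2
      obtain ⟨d1, d2, d3, _⟩ := sposx p₃ s3
      obtain ⟨e1, e2, e3, _⟩ := sposx p₄ s4
      exact hF p₄ p₃ p₂ p₁ e3 d3 b3 a3 (by omega) (by omega) (by omega) (by omega) (by omega)
        (by omega))
    (by
      intro p₁ p₂ p₃ p₄ s1 s2 s3 s4 h1 h2 h3 h4 h5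
      obtain ⟨a1, a2, a3, a4⟩ := sposx p₁ s1
      obtain ⟨b1, b2, b3, b4⟩ := sposx p₂ s2
      obtain ⟨d1, d2, d3, d4⟩ := sposx p₃ s3
      obtain ⟨g, g1, g2, g3⟩ := scut p₄ s4
      exact hF p₃ p₂ g p₁ d3 b3 g1 a3 (by omega) (by omega) (by omega) (by omega) (by omega)
        (by omega))
  haveI : Fintype X := Fintype.ofFinite X
  haveI : Fintype Y := Fintype.ofFinite Y
  obtain ⟨Kin, hKin⟩ : ∃ K, K = Sum.elim (KI r i o a yp kin encX (fun _ => 1))
    (KI r' i' o' a' yp' kin' (encY (2 * C + 1)) (ccY r' i' o' a' kin' kout')) := ⟨_, rfl⟩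
  obtain ⟨Kout, hKout⟩ : ∃ K, K = Sum.elim (KO kout encX) (KO kout' (encY (2 * C + 1))) := ⟨_, rfl⟩
  obtain ⟨tI, htI⟩ : ∃ K, K = Sum.elim (TI r i o a) (TI r' i' o' a') := ⟨_, rfl⟩
  obtain ⟨tO, htO⟩ : ∃ K, K = Sum.elim (TO r i o a) (TO r' i' o' a') := ⟨_, rfl⟩
  rw [← hKin, ← hKout, ← htI, ← htO] at M
  have hP := polar_F M (Sum.elim q q')
  obtain ⟨I, hI⟩ : ∃ K, K = iF (Sum.elim r r') Kin Kout tI tO := ⟨_, rfl⟩
  obtain ⟨O, hO⟩ : ∃ K, K = oF (Sum.elim r r') Kin Kout tI tO := ⟨_, rfl⟩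
  rw [← hI, ← hO] at hP
  have hIO : ∀ t, 0 < I t ∧ 0 < O t := by
    intro t; rw [hI, hO]; exact ⟨dist_pos _ _ _ _ _ _, dist_pos _ _ _ _ _ _⟩
  have q4 : ∀ t, (Sum.elim q q') t ≤ 4 := by
    rintro (t | t)
    · exact D.q4 t
    · exact D'.q4 t
  have hroll := Rl.t_ROLL (X ⊕ Y) (Sum.elim q q') I O q4 (fun t _ => hIO t) hP
  -- comparisons
  have E1 : ∀ p p', q p < 4 → q p = q p' → o p < o p' → O (Sum.inl p) < O (Sum.inl p') := by
    intro p p' h1 h2 h3
    rw [hO, oo_lt]; unfold ok; rw [mk_lt]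
    rw [hKout, htO]
    simp only [Sum.elim_inl]
    have := D.r2 p p' h1 h2 h3.le
    rcases this.lt_or_eq with h4 | h4
    · exact Or.inl h4
    · exact Or.inr ⟨h4, S.eO h4 h3⟩
  have E2 : ∀ p p', q p < 4 → q p = q p' → i p < i p' → I (Sum.inl p) < I (Sum.inl p') := by
    intro p p' h1 h2 h3
    rw [hI, ii_lt]; unfold ik; rw [mk_lt]
    rw [hKin, htI]
    simp only [Sum.elim_inl]
    have := D.r3 p p' h1 h2 h3.le
    rcases this.lt_or_eq with h4 | h4
    · exact Or.inl (by omega)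
    · exact Or.inr ⟨by omega, S.eI h4 h3⟩
  have E3 : ∀ z p, q z < 4 → q p = (q z + 1) % 4 → o z < i p → O (Sum.inl z) < I (Sum.inl p) := by
    intro z p h1 h2 h3
    rw [hO, hI, oi_lt]; unfold ik ok; rw [mk_lt]
    rw [hKin, htI, hKout, htO]
    simp only [Sum.elim_inl]
    have := D.r4 z p h1 h2 h3
    rcases this.lt_or_eq with h4 | h4
    · exact Or.inl (by omega)
    · exact Or.inr ⟨by omega, S.eOI h4.symm h3⟩
  have E4 : ∀ z p, q z < 4 → q p = (q z + 1) % 4 → i p < o z → I (Sum.inl p) < O (Sum.inl z) := by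
    intro z p h1 h2 h3
    rw [hO, hI, io_lt]; unfold ik ok; rw [mk_lt]
    rw [hKin, htI, hKout, htO]
    simp only [Sum.elim_inl]
    have := D.r5 z p h1 h2 h3
    rcases this.lt_or_eq with h4 | h4
    · exact Or.inl (by omega)
    · exact Or.inr ⟨by omega, S.eIO h4 h3⟩
  have E1' : ∀ p p', q' p < 4 → q' p = q' p' → o' p < o' p' → O (Sum.inr p) < O (Sum.inr p') := by
    intro p p' h1 h2 h3
    rw [hO, oo_lt]; unfold ok; rw [mk_lt]
    rw [hKout, htO]
    simp only [Sum.elim_inr]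
    have := D'.r2 p p' h1 h2 h3.le
    rcases this.lt_or_eq with h4 | h4
    · exact Or.inl h4
    · exact Or.inr ⟨h4, S'.eO h4 h3⟩
  have E2' : ∀ p p', q' p < 4 → q' p = q' p' → i' p < i' p' → I (Sum.inr p) < I (Sum.inr p') := by
    intro p p' h1 h2 h3
    rw [hI, ii_lt]; unfold ik; rw [mk_lt]
    rw [hKin, htI]
    simp only [Sum.elim_inr]
    have := D'.r3 p p' h1 h2 h3.le
    rcases this.lt_or_eq with h4 | h4
    · exact Or.inl (by omega)
    · exact Or.inr ⟨by omega, S'.eI h4 h3⟩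
  have E3' : ∀ z p, q' z < 4 → q' p = (q' z + 1) % 4 → o' z < i' p →
      O (Sum.inr z) < I (Sum.inr p) := by
    intro z p h1 h2 h3
    rw [hO, hI, oi_lt]; unfold ik ok; rw [mk_lt]
    rw [hKin, htI, hKout, htO]
    simp only [Sum.elim_inr]
    have := D'.r4 z p h1 h2 h3
    rcases this.lt_or_eq with h4 | h4
    · exact Or.inl (by omega)
    · exact Or.inr ⟨by omega, S'.eOI h4.symm h3⟩
  have E4' : ∀ z p, q' z < 4 → q' p = (q' z + 1) % 4 → i' p < o' z →
      I (Sum.inr p) < O (Sum.inr z) := by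
    intro z p h1 h2 h3
    rw [hO, hI, io_lt]; unfold ik ok; rw [mk_lt]
    rw [hKin, htI, hKout, htO]
    simp only [Sum.elim_inr]
    have := D'.r5 z p h1 h2 h3
    rcases this.lt_or_eq with h4 | h4
    · exact Or.inl (by omega)
    · exact Or.inr ⟨by omega, S'.eIO h4 h3⟩
  -- cross equalities
  have rqX := D.rq
  have rqY := D'.rq
  have K1 : ∀ p s, q p < 4 → q p = q' s → (O (Sum.inl p) = O (Sum.inr s) ∨ I (Sum.inl p) = I (Sum.inr s)) →
      p = a ∧ s = a' := by
    intro p s h1 h2 h3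
    rcases h3 with h3 | h3
    · rw [hO, oo_eq] at h3
      unfold ok at h3
      rw [mk_eq, hKout, htO] at h3
      simp only [Sum.elim_inl, Sum.elim_inr] at h3
      exact cross_oo S S' hρ hpos h3.1 h3.2.1
    · rw [hI, ii_eq] at h3
      unfold ik at h3
      rw [mk_eq, hKin, htI] at h3
      simp only [Sum.elim_inl, Sum.elim_inr] at h3
      exact cross_ii S S' hρ hpos hyp (by omega) h3.2.1
  have K2 : ∀ p s, O (Sum.inl p) = I (Sum.inr s) → False := by
    intro p s h3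
    rw [hO, hI, oi_eq] at h3
    unfold ok ik at h3
    rw [mk_eq, hKout, htO, hKin, htI] at h3
    simp only [Sum.elim_inl, Sum.elim_inr] at h3
    exact cross_oi S S' hρ hpos (by omega) h3.2.1
  have K3 : ∀ p s, I (Sum.inl p) = O (Sum.inr s) → False := by
    intro p s h3
    have h3 := h3.symm
    rw [hO, hI, oi_eq] at h3
    unfold ok ik at h3
    rw [mk_eq, hKout, htO, hKin, htI] at h3
    simp only [Sum.elim_inl, Sum.elim_inr] at h3
    exact cross_io S S' hρ hpos (by omega) h3.2.1.symm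
  -- the marked point
  have sa : Seg r i o a a := ⟨rfl, fun z _ => ⟨by omega, by omega⟩⟩
  have sa' : Seg r' i' o' a' a' := ⟨rfl, fun z _ => ⟨by omega, by omega⟩⟩
  have hqa := (D.seg sa).1
  have hqa' := (D'.seg sa').1
  have hpa : pos a = pos' a' := by
    rw [L.hpos, L'.hpos, L.rseg a sa, L'.rseg a' sa', (eu a a' hca hca').2 (Or.inl ⟨rfl, rfl⟩)]
  have hya : yp a = yp' a' := by
    rw [L.hyp, L'.hyp, (ev a a' hca hca').2 (Or.inl ⟨rfl, rfl⟩)]
  have hOa : O (Sum.inl a) = O (Sum.inr a') := by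
    rw [hO, oo_eq]; unfold ok
    rw [mk_eq, hKout, htO]
    simp only [Sum.elim_inl, Sum.elim_inr]
    refine ⟨hρ.symm, ?_, ?_⟩
    · rw [(S.kseg sa).1, (S'.kseg sa').1, hpa]
    · simp [TO, sa, sa']
  have hIa : I (Sum.inl a) = I (Sum.inr a') := by
    rw [hI, ii_eq]; unfold ik
    rw [mk_eq, hKin, htI]
    simp only [Sum.elim_inl, Sum.elim_inr]
    refine ⟨by omega, ?_, ?_⟩
    · simp [KI, sa, sa', hya]
    · simp [TI, sa, sa']
  have hqb := (D.qb b).2 rfl
  have hqb' := (D'.qb b').2 rfl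
  refine ⟨fun p => px (q p) (I (Sum.inl p)) (O (Sum.inl p)),
    fun p => py (q p) (I (Sum.inl p)) (O (Sum.inl p)),
    fun p => px (q' p) (I (Sum.inr p)) (O (Sum.inr p)),
    fun p => py (q' p) (I (Sum.inr p)) (O (Sum.inr p)), ?_, ?_, ?_, ?_, ?_, ?_, ?_⟩
  · intro p p' h
    rw [D.cx p, D.cx p'] at h
    exact (px_lt (E' := X ⊕ Y) (iF := I) (oF := O) Sum.inl D.q4 D.ps (fun p => hIO _) E1 E2 E3 E4
      p p').1 (by omega)
  · intro p p' h
    rw [D.cy p, D.cy p'] at h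
    exact (px_lt (E' := X ⊕ Y) (iF := I) (oF := O) Sum.inl D.q4 D.ps (fun p => hIO _) E1 E2 E3 E4
      p p').2 (by omega)
  · intro p p' h
    rw [D'.cx p, D'.cx p'] at h
    exact (px_lt (E' := X ⊕ Y) (iF := I) (oF := O) Sum.inr D'.q4 D'.ps (fun p => hIO _) E1' E2' E3'
      E4' p p').1 (by omega)
  · intro p p' h
    rw [D'.cy p, D'.cy p'] at h
    exact (px_lt (E' := X ⊕ Y) (iF := I) (oF := O) Sum.inr D'.q4 D'.ps (fun p => hIO _) E1' E2' E3'
      E4' p p').2 (by omega)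
  · intro p s
    constructor
    · intro h
      rcases px_eq_cases (D.q4 p) (D'.q4 s) (hIO _).1 (hIO _).2 (hIO _).1 (hIO _).2 h with
        ⟨h1, h2⟩ | ⟨h1, h2, h3⟩ | ⟨h1, h2, h3⟩ | ⟨h1, h2, h3⟩
      · exact Or.inr ⟨(D.qb p).1 h1, (D'.qb s).1 h2⟩
      · exact Or.inl (K1 p s h2 h1 h3)
      · exact (K2 p s h3).elim
      · exact (K3 p s h3).elim
    · rintro (⟨rfl, rfl⟩ | ⟨rfl, rfl⟩)
      · simp only [hqa, hqa', (px0 _ _).1, hOa]
      · simp only [hqb, hqb', (px4 _ _).1]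
  · intro p s
    constructor
    · intro h
      rcases py_eq_cases (D.q4 p) (D'.q4 s) (hIO _).1 (hIO _).2 (hIO _).1 (hIO _).2 h with
        ⟨h1, h2⟩ | ⟨h1, h2, h3⟩ | ⟨h1, h2, h3⟩ | ⟨h1, h2, h3⟩
      · exact Or.inr ⟨(D.qb p).1 h1, (D'.qb s).1 h2⟩
      · exact Or.inl (K1 p s h2 h1 h3)
      · exact (K2 p s h3).elim
      · exact (K3 p s h3).elim
    · rintro (⟨rfl, rfl⟩ | ⟨rfl, rfl⟩)
      · simp only [hqa, hqa', (px0 _ _).2, hIa]
      · simp only [hqb, hqb', (px4 _ _).2]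
  · have e1 : (Sum.elim (fun p => px (q p) (I (Sum.inl p)) (O (Sum.inl p)))
        (fun p => px (q' p) (I (Sum.inr p)) (O (Sum.inr p)))) =
        fun t : X ⊕ Y => px (Sum.elim q q' t) (I t) (O t) := by
      funext t; rcases t with t | t <;> rfl
    have e2 : (Sum.elim (fun p => py (q p) (I (Sum.inl p)) (O (Sum.inl p)))
        (fun p => py (q' p) (I (Sum.inr p)) (O (Sum.inr p)))) =
        fun t : X ⊕ Y => py (Sum.elim q q' t) (I t) (O t) := by
      funext t; rcases t with t | t <;> rfl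
    rw [e1, e2]
    exact hroll

end

end Pool.Agent.J4H41.AM
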