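import Mathlib

/-!
# Permutation classes and amalgamation
-/

namespace Pool.Agent.J4H41.AM

/-- the permutations of all sizes -/
abbrev P := Σ n : ℕ, Equiv.Perm (Fin n)

/-- an embedding (occurrence) of the permutation `α` into the permutation `π` -/
structure Emb {k n : ℕ} (α : Equiv.Perm (Fin k)) (π : Equiv.Perm (Fin n)) where
  f : Fin k → Fin n
  pos : ∀ i j, i < j → f i < f j
  val : ∀ i j, α i < α j → π (f i) < π (f j)

/-- a set of permutations closed under taking patterns -/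
def IsClass (C : Set P) : Prop := ∀ α π : P, Nonempty (Emb α.2 π.2) → π ∈ C → α ∈ C

/-- the permutations that contain no pattern from `B` -/
def Av (B : Set P) : Set P := {π | ∀ β ∈ B, ¬ Nonempty (Emb β.2 π.2)}

/-- `C` is `α`-amalgamable -/
def AmalgamableOver (C : Set P) (α : P) : Prop :=
  ∀ π ∈ C, ∀ σ ∈ C, ∀ (f : Emb α.2 π.2) (g : Emb α.2 σ.2),
    ∃ τ ∈ C, ∃ (f' : Emb π.2 τ.2) (g' : Emb σ.2 τ.2), ∀ i, f'.f (f.f i) = g'.f (g.f i)

/-- `C` is 2-amalgamable: `α`-amalgamable for every `α ∈ C` of size at most 2 -/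
def TwoAmalgamable (C : Set P) : Prop := ∀ α ∈ C, α.1 ≤ 2 → AmalgamableOver C α

/-- the permutation 2413 -/
def p2413 : Equiv.Perm (Fin 4) := ⟨![1, 3, 0, 2], ![2, 0, 3, 1], by decide, by decide⟩

/-- the permutation 3142 -/
def p3142 : Equiv.Perm (Fin 4) := ⟨![2, 0, 3, 1], ![1, 3, 0, 2], by decide, by decide⟩

/-- the separable permutations -/
def Sep : Set P := Av {⟨4, p2413⟩, ⟨4, p3142⟩}

end Pool.Agent.J4H41.AM
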