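import Pool.Agent.J4H41.AM.Glue

/-!
# Integer coordinates of the amalgam
-/

namespace Pool.Agent.J4H41.AM

open Classical

/-- the keys: zone, label, own coordinate -/
abbrev Key := ℤ ×ₗ ℤ ×ₗ ℤ

/-- a key -/
def mk (a b c : ℤ) : Key := toLex (a, toLex (b, c))

theorem mk_lt {a b c a' b' c' : ℤ} : mk a b c < mk a' b' c' ↔ a < a' ∨ (a = a' ∧ Lx b c b' c') := by
  unfold mk Lx
  rw [Prod.Lex.toLex_lt_toLex]
  simp only [Prod.Lex.toLex_lt_toLex]

theorem mk_eq {a b c a' b' c' : ℤ} : mk a b c = mk a' b' c' ↔ a = a' ∧ b = b' ∧ c = c' := by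
  unfold mk
  constructor
  · intro h
    have h1 := congrArg (fun t => (ofLex t).1) h
    have h2 := congrArg (fun t => (ofLex (ofLex t).2).1) h
    have h3 := congrArg (fun t => (ofLex (ofLex t).2).2) h
    exact ⟨h1, h2, h3⟩
  · rintro ⟨rfl, rfl, rfl⟩; rfl

section
variable {T : Type} [Fintype T] (r Kin Kout tI tO : T → ℤ)

/-- in-key -/
def ik (t : T) : Key := mk (r t - 1) (Kin t) (tI t)

/-- out-key -/
def ok (t : T) : Key := mk (r t) (Kout t) (tO t)

/-- position of a key among all keys of the configuration -/
noncomputable def dist (k : Key) : ℤ :=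
  1 + ((Finset.univ.filter (fun t : T => ik r Kin tI t < k)).card : ℤ) +
    ((Finset.univ.filter (fun t : T => ok r Kout tO t < k)).card : ℤ)

theorem dist_pos (k : Key) : 0 < dist r Kin Kout tI tO k := by
  unfold dist; positivity

theorem dist_mono {k k' : Key} (h : k ≤ k') : dist r Kin Kout tI tO k ≤ dist r Kin Kout tI tO k' := by
  unfold dist
  have h1 : (Finset.univ.filter (fun t : T => ik r Kin tI t < k)).card ≤
      (Finset.univ.filter (fun t : T => ik r Kin tI t < k')).card :=
    Finset.card_le_card (fun t ht => by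
      simp only [Finset.mem_filter, Finset.mem_univ, true_and] at ht ⊢; exact lt_of_lt_of_le ht h)
  have h2 : (Finset.univ.filter (fun t : T => ok r Kout tO t < k)).card ≤
      (Finset.univ.filter (fun t : T => ok r Kout tO t < k')).card :=
    Finset.card_le_card (fun t ht => by
      simp only [Finset.mem_filter, Finset.mem_univ, true_and] at ht ⊢; exact lt_of_lt_of_le ht h)
  omega

theorem dist_lt_i {t : T} {k : Key} (h : ik r Kin tI t < k) :
    dist r Kin Kout tI tO (ik r Kin tI t) < dist r Kin Kout tI tO k := by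
  unfold dist
  have h1 : (Finset.univ.filter (fun s : T => ik r Kin tI s < ik r Kin tI t)).card <
      (Finset.univ.filter (fun s : T => ik r Kin tI s < k)).card := by
    apply Finset.card_lt_card
    refine ⟨fun s hs => ?_, fun hs => ?_⟩
    · simp only [Finset.mem_filter, Finset.mem_univ, true_and] at hs ⊢; exact lt_trans hs h
    · have : t ∈ Finset.univ.filter (fun s : T => ik r Kin tI s < k) := by simp [h]
      have := hs this
      simp at this
  have h2 : (Finset.univ.filter (fun s : T => ok r Kout tO s < ik r Kin tI t)).card ≤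
      (Finset.univ.filter (fun s : T => ok r Kout tO s < k)).card :=
    Finset.card_le_card (fun s hs => by
      simp only [Finset.mem_filter, Finset.mem_univ, true_and] at hs ⊢; exact lt_trans hs h)
  omega

theorem dist_lt_o {t : T} {k : Key} (h : ok r Kout tO t < k) :
    dist r Kin Kout tI tO (ok r Kout tO t) < dist r Kin Kout tI tO k := by
  unfold dist
  have h1 : (Finset.univ.filter (fun s : T => ok r Kout tO s < ok r Kout tO t)).card <
      (Finset.univ.filter (fun s : T => ok r Kout tO s < k)).card := by
    apply Finset.card_lt_card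
    refine ⟨fun s hs => ?_, fun hs => ?_⟩
    · simp only [Finset.mem_filter, Finset.mem_univ, true_and] at hs ⊢; exact lt_trans hs h
    · have : t ∈ Finset.univ.filter (fun s : T => ok r Kout tO s < k) := by simp [h]
      have := hs this
      simp at this
  have h2 : (Finset.univ.filter (fun s : T => ik r Kin tI s < ok r Kout tO t)).card ≤
      (Finset.univ.filter (fun s : T => ik r Kin tI s < k)).card :=
    Finset.card_le_card (fun s hs => by
      simp only [Finset.mem_filter, Finset.mem_univ, true_and] at hs ⊢; exact lt_trans hs h)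
  omega

/-- in-distance -/
noncomputable def iF (t : T) : ℤ := dist r Kin Kout tI tO (ik r Kin tI t)

/-- out-distance -/
noncomputable def oF (t : T) : ℤ := dist r Kin Kout tI tO (ok r Kout tO t)

variable {r Kin Kout tI tO}

theorem ii_lt {s t : T} : iF r Kin Kout tI tO s < iF r Kin Kout tI tO t ↔
    ik r Kin tI s < ik r Kin tI t := by
  constructor
  · intro h
    by_contra h'
    exact absurd (dist_mono r Kin Kout tI tO (not_lt.1 h')) (not_le.2 h)
  · exact fun h => dist_lt_i r Kin Kout tI tO h

theorem io_lt {s t : T} : iF r Kin Kout tI tO s < oF r Kin Kout tI tO t ↔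
    ik r Kin tI s < ok r Kout tO t := by
  constructor
  · intro h
    by_contra h'
    exact absurd (dist_mono r Kin Kout tI tO (not_lt.1 h')) (not_le.2 h)
  · exact fun h => dist_lt_i r Kin Kout tI tO h

theorem oi_lt {s t : T} : oF r Kin Kout tI tO s < iF r Kin Kout tI tO t ↔
    ok r Kout tO s < ik r Kin tI t := by
  constructor
  · intro h
    by_contra h'
    exact absurd (dist_mono r Kin Kout tI tO (not_lt.1 h')) (not_le.2 h)
  · exact fun h => dist_lt_o r Kin Kout tI tO h

theorem oo_lt {s t : T} : oF r Kin Kout tI tO s < oF r Kin Kout tI tO t ↔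
    ok r Kout tO s < ok r Kout tO t := by
  constructor
  · intro h
    by_contra h'
    exact absurd (dist_mono r Kin Kout tI tO (not_lt.1 h')) (not_le.2 h)
  · exact fun h => dist_lt_o r Kin Kout tI tO h

theorem ii_eq {s t : T} : iF r Kin Kout tI tO s = iF r Kin Kout tI tO t ↔
    ik r Kin tI s = ik r Kin tI t := by
  constructor
  · intro h
    rcases lt_trichotomy (ik r Kin tI s) (ik r Kin tI t) with h' | h' | h'
    · have := (ii_lt (Kout := Kout) (tO := tO)).2 h'; omega
    · exact h'
    · have := (ii_lt (Kout := Kout) (tO := tO)).2 h'; omega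
  · intro h; unfold iF; rw [h]

theorem oo_eq {s t : T} : oF r Kin Kout tI tO s = oF r Kin Kout tI tO t ↔
    ok r Kout tO s = ok r Kout tO t := by
  constructor
  · intro h
    rcases lt_trichotomy (ok r Kout tO s) (ok r Kout tO t) with h' | h' | h'
    · have := (oo_lt (Kin := Kin) (tI := tI)).2 h'; omega
    · exact h'
    · have := (oo_lt (Kin := Kin) (tI := tI)).2 h'; omega
  · intro h; unfold oF; rw [h]

theorem oi_eq {s t : T} : oF r Kin Kout tI tO s = iF r Kin Kout tI tO t ↔
    ok r Kout tO s = ik r Kin tI t := by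
  constructor
  · intro h
    rcases lt_trichotomy (ok r Kout tO s) (ik r Kin tI t) with h' | h' | h'
    · have := (oi_lt (Kin := Kin) (tI := tI)).2 h'; omega
    · exact h'
    · have := (io_lt (Kin := Kin) (tI := tI)).2 h'; omega
  · intro h; unfold oF iF; rw [h]

/-- the distances of the amalgam satisfy the polar conditions -/
theorem polar_F {i o : T → ℤ} {ow : T → Prop} {ρ B : ℤ} {pos ypos : T → ℤ} {Ct : T → Prop}
    (M : Mg r i o Kin Kout tI tO ow ρ B pos ypos Ct) (q : T → ℕ) :
    Polar q (iF r Kin Kout tI tO) (oF r Kin Kout tI tO) where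
  R := by
    intro z p₁ p₂ _ _ _ h1 h2
    rw [io_lt, ik, ok, mk_lt] at h1
    rw [oi_lt, ik, ok, mk_lt] at h2
    rw [oo_lt, ok, ok, mk_lt]
    by_cases h : r p₁ < r p₂
    · exact Or.inl h
    · right
      refine ⟨by omega, ?_⟩
      refine merge_R M z p₁ p₂ (by omega) (by omega) ?_ ?_
      · rcases h1 with h1 | h1
        · omega
        · exact h1.2
      · rcases h2 with h2 | h2
        · omega
        · exact h2.2
  F := by
    intro u v w p _ _ _ _ h1 h2 h3 h4 h5
    rw [oi_lt, ik, ok, mk_lt] at h1
    rw [io_lt, ik, ok, mk_lt] at h2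
    rw [oo_lt, ok, ok, mk_lt] at h3
    rw [ii_lt, ik, ik, mk_lt] at h4 h5
    have hv : r v = r u := by omega
    have hw : r w = r u := by omega
    have hp : r p = r u + 1 := by omega
    refine merge_F M u v w p hv hw hp ?_ ?_ ?_ ?_ ?_
    · rcases h1 with h | h
      · omega
      · exact h.2
    · rcases h2 with h | h
      · omega
      · exact h.2
    · rcases h3 with h | h
      · omega
      · exact h.2
    · rcases h4 with h | h
      · omega
      · exact h.2
    · rcases h5 with h | h
      · omega
      · exact h.2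
  I := by
    intro p₁ p₂ p₃ p₄ _ _ _ _ h1 h2 h3 h4 h5 h6
    rw [oo_lt, ok, ok, mk_lt] at h1 h2 h3
    rw [ii_lt, ik, ik, mk_lt] at h4 h5 h6
    have e2 : r p₂ = r p₁ := by omega
    have e3 : r p₃ = r p₁ := by omega
    have e4 : r p₄ = r p₁ := by omega
    refine merge_I M p₁ p₂ p₃ p₄ e2 e3 e4 ?_ ?_ ?_ ?_ ?_ ?_
    · rcases h1 with h | h
      · omega
      · exact h.2
    · rcases h2 with h | h
      · omega
      · exact h.2
    · rcases h3 with h | h
      · omega
      · exact h.2
    · rcases h4 with h | h
      · omega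
      · exact h.2
    · rcases h5 with h | h
      · omega
      · exact h.2
    · rcases h6 with h | h
      · omega
      · exact h.2
  Z := by
    intro z₀ z₁ z₂ z₃ _ _ _ _ h1 h2 h3 h4
    rw [oi_lt, ik, ok, mk_lt] at h1 h2 h3 h4
    omega

end

end Pool.Agent.J4H41.AM
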