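import Pool.Agent.J4H41.AM.Coord

/-!
# Coordinates of elements of different configurations are different
-/

namespace Pool.Agent.J4H41.AM

open Classical

section
variable {X : Type} {r i o : X → ℤ} {a : X} {B : ℤ} {pos yp kin kout : X → ℤ} {enc : ℤ → ℤ}
  {cc : X → ℤ}

theorem Side.center (S : Side r i o a B pos yp kin kout enc cc) {p : X} (h1 : 0 ≤ kout p)
    (h2 : kout p < B) : (Seg r i o a p ∧ kout p = pos p) ∨
      (r a < r p ∧ ∃ g, Cut r i o a g ∧ kout p = pos g) := by
  rcases S.cls p with ⟨b1, _⟩ | ⟨b1, b2, b3, b4, b5, b6, b7⟩ |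
    ⟨b1, b2, b3, b4, b5, b6, b7, b8, b9⟩
  · have := S.chn_big b1; omega
  · exact Or.inl ⟨b1, b4⟩
  · right
    by_cases h : r p ≤ r a
    · have := S.big h b1; omega
    · refine ⟨by omega, ?_⟩
      rcases b8 (by omega) with h' | h' | h'
      · omega
      · omega
      · exact h'

/-- the merged in-label is either central (chain or segment) or the merged out-label -/
theorem Side.kin_cases (S : Side r i o a B pos yp kin kout enc cc) (p : X) :
    (r p ≤ r a ∧ 0 ≤ KI r i o a yp kin enc cc p ∧ KI r i o a yp kin enc cc p < 4 * B ∧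
      ((r p < r a ∧ kin p = 0 ∧ KI r i o a yp kin enc cc p = cc p) ∨
        (Seg r i o a p ∧ KI r i o a yp kin enc cc p = yp p))) ∨
    (¬ Seg r i o a p ∧ KI r i o a yp kin enc cc p = KO kout enc p ∧
      (r p ≤ r a → B ≤ kout p ∨ kout p ≤ -B)) := by
  have hB := S.hB
  rcases S.cls p with ⟨b1, b2, b3, b4, b5, b6⟩ | ⟨b1, b2, b3, b4, b5, b6, b7⟩ |
    ⟨b1, b2, b3, b4, b5, b6, b7, b8, b9⟩
  · have := S.cc0 p
    exact Or.inl ⟨b1.le, by omega, by omega, Or.inl ⟨b1, b2, b3⟩⟩
  · have := S.ypr p b1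
    exact Or.inl ⟨b1.1.le, by omega, by omega, Or.inr ⟨b1, b2⟩⟩
  · exact Or.inr ⟨b1, b3, fun h => S.big h b1⟩

end

section
variable {X Y : Type} {r i o : X → ℤ} {r' i' o' : Y → ℤ} {a : X} {a' : Y} {B : ℤ}
  {pos yp kin kout : X → ℤ} {pos' yp' kin' kout' : Y → ℤ} {cc : X → ℤ} {cc' : Y → ℤ}

theorem cross_oo (S : Side r i o a B pos yp kin kout encX cc)
    (S' : Side r' i' o' a' B pos' yp' kin' kout' (encY B) cc') (hρ : r' a' = r a)
    (hpos : ∀ p q, (Seg r i o a p ∨ Cut r i o a p) → (Seg r' i' o' a' q ∨ Cut r' i' o' a' q) →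
      pos p = pos' q → p = a ∧ q = a') {p : X} {q : Y} (hr : r p = r' q)
    (h : KO kout encX p = KO kout' (encY B) q) : p = a ∧ q = a' := by
  obtain ⟨h1, h2, h3⟩ := enc_eq S.hB h
  rcases S.center h2 h3 with ⟨c1, c2⟩ | ⟨c1, g, c2, c3⟩
  · rcases S'.center (p := q) (by omega) (by omega) with ⟨d1, d2⟩ | ⟨d1, g', d2, d3⟩
    · exact hpos p q (Or.inl c1) (Or.inl d1) (by omega)
    · have := c1.1; omega
  · rcases S'.center (p := q) (by omega) (by omega) with ⟨d1, d2⟩ | ⟨d1, g', d2, d3⟩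
    · have := d1.1; omega
    · have := (hpos g g' (Or.inr c2) (Or.inr d2) (by omega)).1
      have h7 := c2.1
      rw [this] at h7; omega

theorem cross_ii (S : Side r i o a B pos yp kin kout encX (fun _ => 1))
    (S' : Side r' i' o' a' B pos' yp' kin' kout' (encY B) (ccY r' i' o' a' kin' kout'))
    (hρ : r' a' = r a)
    (hpos : ∀ p q, (Seg r i o a p ∨ Cut r i o a p) → (Seg r' i' o' a' q ∨ Cut r' i' o' a' q) →
      pos p = pos' q → p = a ∧ q = a')
    (hyp : ∀ p q, Seg r i o a p → Seg r' i' o' a' q → yp p = yp' q → p = a ∧ q = a')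
    {p : X} {q : Y} (hr : r p = r' q)
    (h : KI r i o a yp kin encX (fun _ => 1) p =
      KI r' i' o' a' yp' kin' (encY B) (ccY r' i' o' a' kin' kout') q) : p = a ∧ q = a' := by
  have hB := S.hB
  have e1 := S.enc1 (kout p)
  have e2 := S'.enc1 (kout' q)
  rcases S.kin_cases p with ⟨c1, c2, c3, c4⟩ | ⟨c1, c2, c3⟩
  · rcases S'.kin_cases q with ⟨d1, d2, d3, d4⟩ | ⟨d1, d2, d3⟩
    · rcases c4 with ⟨c5, c6, c7⟩ | ⟨c5, c6⟩
      · rcases d4 with ⟨d5, d6, d7⟩ | ⟨d5, d6⟩
        · exfalso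
          rw [c7, d7] at h
          unfold ccY at h
          split_ifs at h <;> omega
        · have := d5.1; omega
      · rcases d4 with ⟨d5, d6, d7⟩ | ⟨d5, d6⟩
        · have := c5.1; omega
        · exact hyp p q c5 d5 (by omega)
    · exfalso
      have := d3 (by omega)
      rw [d2] at h
      simp only [KO] at h
      omega
  · rcases S'.kin_cases q with ⟨d1, d2, d3, d4⟩ | ⟨d1, d2, d3⟩
    · exfalso
      have := c3 (by omega)
      rw [c2] at h
      simp only [KO] at h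
      omega
    · exact cross_oo S S' hρ hpos hr (by omega)

theorem cross_oi (S : Side r i o a B pos yp kin kout encX cc)
    (S' : Side r' i' o' a' B pos' yp' kin' kout' (encY B) cc') (hρ : r' a' = r a)
    (hpos : ∀ p q, (Seg r i o a p ∨ Cut r i o a p) → (Seg r' i' o' a' q ∨ Cut r' i' o' a' q) →
      pos p = pos' q → p = a ∧ q = a')
    {p : X} {q : Y} (hr : r' q = r p + 1)
    (h : KO kout encX p = KI r' i' o' a' yp' kin' (encY B) cc' q) : False := by
  have hB := S.hB
  have e1 := S.enc1 (kout p)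
  rcases S'.kin_cases q with ⟨d1, d2, d3, d4⟩ | ⟨d1, d2, d3⟩
  · have := S.chn_big (p := p) (by omega)
    simp only [KO] at h
    omega
  · rw [d2] at h
    obtain ⟨h1, h2, h3⟩ := enc_eq S.hB h
    rcases S'.center (p := q) (by omega) (by omega) with ⟨c1, c2⟩ | ⟨c1, g, c2, c3⟩
    · exact d1 c1
    · rcases S.center h2 h3 with ⟨c4, c5⟩ | ⟨c4, g', c5, c6⟩
      · have := (hpos p g (Or.inl c4) (Or.inr c2) (by omega)).2
        have h7 := c2.1
        rw [this] at h7; omega
      · have := (hpos g' g (Or.inr c5) (Or.inr c2) (by omega)).2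
        have h7 := c2.1
        rw [this] at h7; omega

theorem cross_io (S : Side r i o a B pos yp kin kout encX cc)
    (S' : Side r' i' o' a' B pos' yp' kin' kout' (encY B) cc') (hρ : r' a' = r a)
    (hpos : ∀ p q, (Seg r i o a p ∨ Cut r i o a p) → (Seg r' i' o' a' q ∨ Cut r' i' o' a' q) →
      pos p = pos' q → p = a ∧ q = a')
    {p : X} {q : Y} (hr : r p = r' q + 1)
    (h : KI r i o a yp kin encX cc p = KO kout' (encY B) q) : False := by
  have hB := S.hB
  have e1 := S'.enc1 (kout' q)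
  rcases S.kin_cases p with ⟨d1, d2, d3, d4⟩ | ⟨d1, d2, d3⟩
  · have := S'.chn_big (p := q) (by omega)
    simp only [KO] at h
    omega
  · rw [d2] at h
    obtain ⟨h1, h2, h3⟩ := enc_eq S.hB h
    rcases S.center (p := p) (by omega) (by omega) with ⟨c1, c2⟩ | ⟨c1, g, c2, c3⟩
    · exact d1 c1
    · rcases S'.center (p := q) (by omega) (by omega) with ⟨c4, c5⟩ | ⟨c4, g', c5, c6⟩
      · have := (hpos g q (Or.inr c2) (Or.inl c4) (by omega)).1
        have h7 := c2.1
        rw [this] at h7; omega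
      · have := (hpos g g' (Or.inr c2) (Or.inr c5) (by omega)).1
        have h7 := c2.1
        rw [this] at h7; omega

end

/-- order of the `x`-coordinates from the polar comparisons -/
theorem px_lt {E E' : Type} {q : E → ℕ} {i o : E → ℤ} {iF oF : E' → ℤ} (j : E → E')
    (hq : ∀ p, q p ≤ 4)
    (hpos : ∀ p, q p < 4 → 0 < i p ∧ 0 < o p) (hF : ∀ p, 0 < iF (j p) ∧ 0 < oF (j p))
    (e1 : ∀ p p', q p < 4 → q p = q p' → o p < o p' → oF (j p) < oF (j p'))
    (e2 : ∀ p p', q p < 4 → q p = q p' → i p < i p' → iF (j p) < iF (j p'))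
    (e3 : ∀ z p, q z < 4 → q p = (q z + 1) % 4 → o z < i p → oF (j z) < iF (j p))
    (e4 : ∀ z p, q z < 4 → q p = (q z + 1) % 4 → i p < o z → iF (j p) < oF (j z))
    (p p' : E) :
    (px (q p) (i p) (o p) < px (q p') (i p') (o p') →
      px (q p) (iF (j p)) (oF (j p)) < px (q p') (iF (j p')) (oF (j p'))) ∧
    (py (q p) (i p) (o p) < py (q p') (i p') (o p') →
      py (q p) (iF (j p)) (oF (j p)) < py (q p') (iF (j p')) (oF (j p'))) := by
  have f1 := e1 p p'
  have f1' := e1 p' p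
  have f2 := e2 p p'
  have f2' := e2 p' p
  have f3 := e3 p p'
  have f3' := e3 p' p
  have f4 := e4 p p'
  have f4' := e4 p' p
  have g1 := hpos p
  have g2 := hpos p'
  have g3 := hF p
  have g4 := hF p'
  have h1 := hq p
  have h2 := hq p'
  generalize q p = s at *
  generalize q p' = t at *
  have hs : s = 0 ∨ s = 1 ∨ s = 2 ∨ s = 3 ∨ s = 4 := by omega
  have ht : t = 0 ∨ t = 1 ∨ t = 2 ∨ t = 3 ∨ t = 4 := by omega
  rcases hs with rfl | rfl | rfl | rfl | rfl <;> rcases ht with rfl | rfl | rfl | rfl | rfl <;>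
    simp only [px, py] <;> norm_num at * <;>
    constructor <;> intro h <;> omega

end Pool.Agent.J4H41.AM
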