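import Mathlib

/-!
# Amalgamating two 3142-avoiding configurations over an increasing pair

Definitions and the list of steps (`S_...`, statements as `Prop`s) of the proof that `Av(3142)` is
2-amalgamable.  Everything is stated for finite types with integer coordinates.
-/

namespace Pool.Agent.J4H41.AM

/-- the configuration with coordinates `(x, y)` has no occurrence `p q r s` (from left to right) of 3142 -/
def Free {S : Type} (x y : S → ℤ) : Prop :=
  ∀ p q r s, x p < x q → x q < x r → x r < x s → y q < y s → y s < y p → y p < y r → False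

/-- the marked configurations `(x, y; a, b)` and `(x', y'; a', b')` have a 3142-free amalgam -/
def Amalg {X Y : Type} (x y : X → ℤ) (a b : X) (x' y' : Y → ℤ) (a' b' : Y) : Prop :=
  ∃ (u v : X → ℤ) (u' v' : Y → ℤ),
    (∀ p q, x p < x q → u p < u q) ∧ (∀ p q, y p < y q → v p < v q) ∧
    (∀ p q, x' p < x' q → u' p < u' q) ∧ (∀ p q, y' p < y' q → v' p < v' q) ∧
    (∀ p q, u p = u' q ↔ (p = a ∧ q = a') ∨ (p = b ∧ q = b')) ∧
    (∀ p q, v p = v' q ↔ (p = a ∧ q = a') ∨ (p = b ∧ q = b')) ∧
    Free (Sum.elim u u') (Sum.elim v v')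

/-- Main statement: amalgamation over an increasing pair `a < b`. -/
def S_MAIN : Prop :=
  ∀ (X Y : Type) [Finite X] [Finite Y] (x y : X → ℤ) (x' y' : Y → ℤ) (a b : X) (a' b' : Y),
    Function.Injective x → Function.Injective y → Function.Injective x' → Function.Injective y' →
    Free x y → Free x' y' → x a < x b → y a < y b → x' a' < x' b' → y' a' < y' b' →
    Amalg x y a b x' y' a' b'

/-! ## Polar coordinates around the base point

`q p` is the quadrant of `p` with respect to the base point: `0` = south-west, `1` = north-west,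
`2` = north-east, `3` = south-east, and `q p = 4` for the base point itself.
`o p` (out) is the distance along the axis shared with the next quadrant `q p + 1`,
`i p` (in) the distance along the axis shared with the previous quadrant. -/

/-- `x`-coordinate from the polar data -/
def px (q : ℕ) (i o : ℤ) : ℤ :=
  if q = 0 then -o else if q = 1 then -i else if q = 2 then o else if q = 3 then i else 0

/-- `y`-coordinate from the polar data -/
def py (q : ℕ) (i o : ℤ) : ℤ :=
  if q = 0 then -i else if q = 1 then o else if q = 2 then i else if q = 3 then -o else 0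

/-- 3142-freeness in polar coordinates -/
structure Polar {E : Type} (q : E → ℕ) (i o : E → ℤ) : Prop where
  R : ∀ z p₁ p₂, q z < 4 → q p₁ = (q z + 1) % 4 → q p₂ = (q z + 1) % 4 →
    i p₁ < o z → o z < i p₂ → o p₁ < o p₂
  F : ∀ u v w p, q u < 4 → q v = q u → q w = q u → q p = (q u + 1) % 4 →
    o u < i p → i p < o v → o v < o w → i w < i u → i u < i v → False
  I : ∀ p₁ p₂ p₃ p₄, q p₁ < 4 → q p₂ = q p₁ → q p₃ = q p₁ → q p₄ = q p₁ →
    o p₁ < o p₂ → o p₂ < o p₃ → o p₃ < o p₄ → i p₂ < i p₄ → i p₄ < i p₁ → i p₁ < i p₃ → False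
  Z : ∀ z₀ z₁ z₂ z₃, q z₀ = 0 → q z₁ = 1 → q z₂ = 2 → q z₃ = 3 →
    o z₀ < i z₁ → o z₁ < i z₂ → o z₂ < i z₃ → o z₃ < i z₀ → False

/-- JOB ROLL. From polar conditions back to 3142-freeness.  (25 positions of the origin relative to
the occurrence of 3142: in 16 of them, and when the origin is one of the four points, `R` applies to the
other three points, in 8 of them `F` or `I` applies, in the middle one `Z`.) -/
def S_ROLL : Prop :=
  ∀ (E : Type) (q : E → ℕ) (i o : E → ℤ), (∀ p, q p ≤ 4) → (∀ p, q p < 4 → 0 < i p ∧ 0 < o p) →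
    Polar q i o → Free (fun p => px (q p) (i p) (o p)) (fun p => py (q p) (i p) (o p))

/-- JOB UNROLL. Polar data of a 3142-free configuration with respect to a base point `b`. -/
def S_UNROLL : Prop :=
  ∀ (X : Type) (x y : X → ℤ) (b : X), Function.Injective x → Function.Injective y → Free x y →
    ∃ (q : X → ℕ) (i o : X → ℤ), Polar q i o ∧ (∀ p, q p ≤ 4) ∧ (∀ p, q p = 4 ↔ p = b) ∧
      (∀ p, q p < 4 → 0 < i p ∧ 0 < o p) ∧
      (∀ p, x p = x b + px (q p) (i p) (o p)) ∧ (∀ p, y p = y b + py (q p) (i p) (o p))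

/-- JOB RANK.  Every polar configuration has a rank function.
Proof: write `z ⊲ p` if `q z < 4`, `q p = (q z + 1) % 4` and `o z < i p`.
`⊲` is well-founded: otherwise let `N` be the set of non-accessible elements; every element of `N` has a
predecessor in `N`, so `N` meets all four quadrants; let `p_k` be the element of `N` in quadrant `k` with
the smallest `o`; the predecessor `z ∈ N` of `p_{k+1}` satisfies `o p_k ≤ o z < i p_{k+1}`, so
`p_0 ⊲ p_1 ⊲ p_2 ⊲ p_3 ⊲ p_0`, against `Z`.
Then let `r p = max (q p) (max_{z ⊲ p} (r z + 1))` (and `-5` if `q p = 4`).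
Second property: if `q p = q p'` and `o p ≤ o p'` then every `z ⊲ p` satisfies `z ⊲ p'` (else
`i p' ≤ o z < i p` and `R` gives `o p' < o p`).  Third: the same, trivially.
Fourth: if `i p < o z` and `r p = r z' + 1` with `z' ⊲ p` then `o z' < i p < o z`, so `r z' ≤ r z`. -/
def S_RANK : Prop :=
  ∀ (X : Type) [Finite X] (q : X → ℕ) (i o : X → ℤ), (∀ p, q p ≤ 4) → Polar q i o →
    (∀ z p, q z < 4 → q p = (q z + 1) % 4 → o z ≠ i p) →
    ∃ r : X → ℤ, (∀ p, q p = 4 → r p = -5) ∧
      (∀ p, q p < 4 → 0 ≤ r p ∧ r p % 4 = (q p : ℤ)) ∧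
      (∀ p p', q p < 4 → q p = q p' → o p ≤ o p' → r p ≤ r p') ∧
      (∀ p p', q p < 4 → q p = q p' → i p ≤ i p' → r p ≤ r p') ∧
      (∀ z p, q z < 4 → q p = (q z + 1) % 4 → o z < i p → r z + 1 ≤ r p) ∧
      (∀ z p, q z < 4 → q p = (q z + 1) % 4 → i p < o z → r p ≤ r z + 1)

/-- ranked configuration: only elements of equal or consecutive ranks interact -/
structure Ranked {E : Type} (r i o : E → ℤ) : Prop where
  oo : ∀ p p', r p = r p' → o p = o p' → p = p'
  ii : ∀ p p', r p = r p' → i p = i p' → p = p'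
  ne : ∀ z p, r p = r z + 1 → o z ≠ i p
  R : ∀ z p₁ p₂, r p₁ = r z + 1 → r p₂ = r z + 1 → i p₁ < o z → o z < i p₂ → o p₁ < o p₂
  F : ∀ u v w p, r v = r u → r w = r u → r p = r u + 1 →
    o u < i p → i p < o v → o v < o w → i w < i u → i u < i v → False
  I : ∀ p₁ p₂ p₃ p₄, r p₂ = r p₁ → r p₃ = r p₁ → r p₄ = r p₁ →
    o p₁ < o p₂ → o p₂ < o p₃ → o p₃ < o p₄ → i p₂ < i p₄ → i p₄ < i p₁ → i p₁ < i p₃ → False

/-- `p` and `p'` (of the same rank) lie in the same gap of the out-coordinates of the previous rank -/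
def SameGap {E : Type} (r i o : E → ℤ) (p p' : E) : Prop :=
  ∀ z, r p = r z + 1 → ¬ (i p < o z ∧ o z < i p') ∧ ¬ (i p' < o z ∧ o z < i p)

/-- the segment of `a` -/
def Seg {E : Type} (r i o : E → ℤ) (a p : E) : Prop := r p = r a ∧ SameGap r i o p a

/-- the elements of the next rank that cut the segment of `a` -/
def Cut {E : Type} (r i o : E → ℤ) (a p : E) : Prop :=
  r p = r a + 1 ∧ (∃ s, Seg r i o a s ∧ o s < i p) ∧ (∃ s, Seg r i o a s ∧ i p < o s)

/-- strands: labels `kin`, `kout` (see `S_STRAND`) -/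
structure Strand {E : Type} (r i o : E → ℤ) (a : E) (B : ℤ) (pos kin kout : E → ℤ) : Prop where
  p1 : ∀ p p', r p = r p' → o p < o p' → kout p ≤ kout p'
  p2 : ∀ p p', r p = r p' → i p < i p' → kin p ≤ kin p'
  p3 : ∀ z p, r p = r z + 1 → o z < i p → kout z ≤ kin p
  p3' : ∀ z p, r p = r z + 1 → i p < o z → kin p ≤ kout z
  p4 : ∀ p, r p < r a →
    (kin p = 0 ∧ (kout p = (r a - r p) * B ∨ kout p = -((r a - r p) * B))) ∨
    (kin p = kout p ∧ ((r a - r p + 1) * B ≤ kout p ∨ kout p ≤ -((r a - r p + 1) * B)))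
  p5 : ∀ p, r p = r a →
    (Seg r i o a p ∧ kin p = 0 ∧ kout p = pos p) ∨
    (¬ Seg r i o a p ∧ kin p = kout p ∧ (B ≤ kout p ∨ kout p ≤ -B))
  p6 : ∀ p, r p = r a + 1 →
    (Cut r i o a p ∧ kin p = kout p ∧ kout p = pos p) ∨
    (¬ Cut r i o a p ∧ kin p = kout p ∧ (B ≤ kout p ∨ kout p ≤ -B))
  p7 : ∀ p, r a + 1 < r p → kin p = kout p ∧
    (B ≤ kout p ∨ kout p ≤ -B ∨ ∃ g, Cut r i o a g ∧ kout p = pos g)
  p8 : ∀ p, r p < r a → kin p = 0 → ∃ c, r c = r p + 1 ∧ kin c = 0

/-- JOB STRAND.  Construction of the labels by recursion on the rank `n = r p`.  Write `ρ = r a`.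
Chain: `c_ρ = a`; for `n < ρ`, `c_n` is the element of rank `n` with `o c_n < i c_{n+1}` and `i c_n`
maximal (the chain stops if there is none).
* `rule-`: `kin p = kout p = max (-(ρ+10)B, max {kout z | r z = n-1, o z < i p})`,
* `rule+`: `kin p = kout p = min ((ρ+10)B, min {kout z | r z = n-1, i p < o z})`.
* `n ≤ ρ`, `c_n` exists, `p` in the same gap as `c_n`: `kin p = 0`, and `kout p = pos p` if `n = ρ`,
  `kout p = -(ρ-n)B` if `n < ρ`, `o p < i c_{n+1}`, and `kout p = (ρ-n)B` if `n < ρ`, `i c_{n+1} < o p`.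
* `n ≤ ρ`, `c_n` exists, `p` not in the same gap, `i p < i c_n`: `rule-`.
* `n ≤ ρ`, otherwise: `rule+`.
* `n = ρ+1`: `Cut p`: `kin p = kout p = pos p`; otherwise `rule-` if `i p < o s` for all `s` in the
  segment of `a`, `rule+` if not.
* `n > ρ+1`: `rule-`.
Invariants, by induction on `n`: p1-p8 for ranks `≤ n`, and (for `n < ρ`):
`o z < i c_{n+1} → kout z < 0` and `i c_{n+1} < o z → 0 < kout z` for all `z` of rank `n` (if `c_{n+1}`
exists), `0 < kout z` for all `z` of rank `n` if `c_{n+1}` does not exist.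
p1 for two elements under the same rule with `i p' < i p`, `o p < o p'`: they are in the same gap by `R`. -/
def S_STRAND : Prop :=
  ∀ (X : Type) [Finite X] (r i o : X → ℤ), Ranked r i o → (∀ p, -5 ≤ r p) →
    ∀ (a : X), 0 ≤ r a → ∀ (B : ℤ), 0 < B → ∀ pos : X → ℤ,
    (∀ p, Seg r i o a p ∨ Cut r i o a p → 0 ≤ pos p ∧ pos p < B) →
    (∀ s s', Seg r i o a s → Seg r i o a s' → o s < o s' → pos s < pos s') →
    (∀ s g, Seg r i o a s → Cut r i o a g → o s < i g → pos s < pos g) →
    (∀ s g, Seg r i o a s → Cut r i o a g → i g < o s → pos g < pos s) →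
    (∀ g g', Cut r i o a g → Cut r i o a g' → i g < i g' → pos g ≤ pos g') →
    (∀ g g', Cut r i o a g → Cut r i o a g' → SameGap r i o g g' → pos g = pos g') →
    ∃ kin kout : X → ℤ, Strand r i o a B pos kin kout

/-! ## Irreducible pairs -/

/-- `(x, y; a, b)` is irreducible: all other points are horizontally between `a` and `b`, the points above
`b` are decreasing, the points below `a` are decreasing -/
def Irr {X : Type} (x y : X → ℤ) (a b : X) : Prop :=
  (∀ p, p ≠ a → p ≠ b → x a < x p ∧ x p < x b) ∧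
  (∀ p p', y b < y p → y b < y p' → x p < x p' → y p' < y p) ∧
  (∀ p p', y p < y a → y p' < y a → x p < x p' → y p' < y p)

/-- JOB IRR.  Amalgam of two irreducible configurations.  With `L = x b - x a`, `L' = x' b' - x' a'`,
`K = y b - y a`, `K' = y' b' - y' a'` and `H` large:
`u p = x p - x a` (`p ≠ b`), `u b = L + L'`, `u' q = L + x' q - x' a'` (`q ≠ a'`), `u' a' = 0`;
below: `v p = y p - y a`, `v' q = y' q - y' a' - H` (so `X` is left of and above `Y`);
middle: `v p = y p - y a` (`p ≠ b`), `v b = K + K'`, `v' q = K + y' q - y' a'` (`q ≠ a'`), `v' a' = 0`;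
above: `v' q = K + (y' q - y' a')`, `v p = K + H + (y p - y b)` (so `X` is left of and above `Y`).
3142-free: in an occurrence of 3142 the points `3`, `2` are in the middle part (the points above `b` and
those below `a` are decreasing), both in `X` or both in `Y` (the middle part of `X` is left of and
below the middle part of `Y`, `a` is below and left of both, `b` above and right of both), and `1`, `4`
are horizontally between them, hence in the same configuration. -/
def S_IRR : Prop :=
  ∀ (X Y : Type) [Finite X] [Finite Y] (x y : X → ℤ) (x' y' : Y → ℤ) (a b : X) (a' b' : Y),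
    Function.Injective x → Function.Injective y → Function.Injective x' → Function.Injective y' →
    Free x y → Free x' y' → x a < x b → y a < y b → x' a' < x' b' → y' a' < y' b' →
    Irr x y a b → Irr x' y' a' b' → Amalg x y a b x' y' a' b'

end Pool.Agent.J4H41.AM
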