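import Pool.Agent.J4H41.AM.Defs

/-!
# Job IRR: amalgam of two irreducible configurations
-/

namespace Pool.Agent.J4H41.AM

open Classical

theorem t_IRR : S_IRR := by
  intro X Y _ _ x y x' y' a b a' b' hx hy hx' hy' hF hF' hab hyab hab' hyab' ⟨hi, hd, he⟩
    ⟨hi', hd', he'⟩
  obtain ⟨H, hH, hH'⟩ : ∃ H : ℤ, (∀ p, y p - y a < H ∧ y a - y p < H) ∧
      (∀ p, y' p - y' a' < H ∧ y' a' - y' p < H) := by
    have e1 := (Set.finite_range (fun p => |y p - y a|)).bddAbove
    have e2 := (Set.finite_range (fun p => |y' p - y' a'|)).bddAbove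
    obtain ⟨A, hA⟩ := e1
    obtain ⟨A', hA'⟩ := e2
    refine ⟨max A A' + 1, fun p => ?_, fun p => ?_⟩
    · have h3 := hA (Set.mem_range_self p)
      have h4 := le_abs_self (y p - y a)
      have h5 := neg_abs_le (y p - y a)
      have h6 := le_max_left A A'
      constructor <;> linarith
    · have h3 := hA' (Set.mem_range_self p)
      have h4 := le_abs_self (y' p - y' a')
      have h5 := neg_abs_le (y' p - y' a')
      have h6 := le_max_right A A'
      constructor <;> linarith
  obtain ⟨L, hL⟩ : ∃ L, L = x b - x a := ⟨_, rfl⟩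
  obtain ⟨L', hL'⟩ : ∃ L, L = x' b' - x' a' := ⟨_, rfl⟩
  obtain ⟨K, hK⟩ : ∃ K, K = y b - y a := ⟨_, rfl⟩
  obtain ⟨K', hK'⟩ : ∃ K, K = y' b' - y' a' := ⟨_, rfl⟩
  obtain ⟨u, hu⟩ : ∃ u : X → ℤ, u = fun p => if p = b then L + L' else x p - x a := ⟨_, rfl⟩
  obtain ⟨v, hv⟩ : ∃ v : X → ℤ, v = fun p => if p = b then K + K' else
    if y b < y p then K + H + (y p - y b) + K' else y p - y a := ⟨_, rfl⟩
  obtain ⟨u', hu'⟩ : ∃ u' : Y → ℤ, u' = fun q => if q = a' then 0 else L + (x' q - x' a') := ⟨_, rfl⟩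
  obtain ⟨v', hv'⟩ : ∃ v' : Y → ℤ, v' = fun q => if q = a' then 0 else
    if y' q < y' a' then y' q - y' a' - H else K + (y' q - y' a') := ⟨_, rfl⟩
  have hab2 : a ≠ b := by rintro rfl; omega
  have hab2' : a' ≠ b' := by rintro rfl; omega
  have FX : ∀ p, (p = b ∧ u p = L + L' ∧ v p = K + K') ∨ (p = a ∧ u p = 0 ∧ v p = 0) ∨
      (p ≠ a ∧ p ≠ b ∧ u p = x p - x a ∧ x a < x p ∧ x p < x b ∧
        ((y b < y p ∧ v p = K + H + (y p - y b) + K') ∨ (y p < y a ∧ v p = y p - y a) ∨
          (y a < y p ∧ y p < y b ∧ v p = y p - y a))) := by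
    intro p
    by_cases h1 : p = b
    · left; simp [hu, hv, h1]
    · by_cases h2 : p = a
      · right; left
        subst h2
        have : ¬ y b < y p := by omega
        simp [hu, hv, h1, this]
      · right; right
        obtain ⟨h3, h4⟩ := hi p h2 h1
        have h5 : y p ≠ y a := fun h => h2 (hy h)
        have h6 : y p ≠ y b := fun h => h1 (hy h)
        refine ⟨h2, h1, by simp [hu, h1], h3, h4, ?_⟩
        by_cases h7 : y b < y p
        · left; exact ⟨h7, by simp [hv, h1, h7]⟩
        · right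
          have h8 : v p = y p - y a := by simp [hv, h1, h7]
          by_cases h9 : y p < y a
          · exact Or.inl ⟨h9, h8⟩
          · exact Or.inr ⟨by omega, by omega, h8⟩
  have FY : ∀ p, (p = a' ∧ u' p = 0 ∧ v' p = 0) ∨ (p = b' ∧ u' p = L + L' ∧ v' p = K + K') ∨
      (p ≠ a' ∧ p ≠ b' ∧ u' p = L + (x' p - x' a') ∧ x' a' < x' p ∧ x' p < x' b' ∧
        ((y' p < y' a' ∧ v' p = y' p - y' a' - H) ∨ (y' b' < y' p ∧ v' p = K + (y' p - y' a')) ∨
          (y' a' < y' p ∧ y' p < y' b' ∧ v' p = K + (y' p - y' a')))) := by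
    intro p
    by_cases h1 : p = a'
    · left; simp [hu', hv', h1]
    · by_cases h2 : p = b'
      · right; left
        subst h2
        have h3 : ¬ y' p < y' a' := by omega
        refine ⟨rfl, ?_, ?_⟩
        · simp only [hu', if_neg h1]; omega
        · simp only [hv', if_neg h1, if_neg h3]; omega
      · right; right
        obtain ⟨h3, h4⟩ := hi' p h1 h2
        have h5 : y' p ≠ y' a' := fun h => h1 (hy' h)
        have h6 : y' p ≠ y' b' := fun h => h2 (hy' h)
        refine ⟨h1, h2, by simp [hu', h1], h3, h4, ?_⟩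
        by_cases h7 : y' p < y' a'
        · left; exact ⟨h7, by simp [hv', h1, h7]⟩
        · right
          have h8 : v' p = K + (y' p - y' a') := by simp [hv', h1, h7]
          by_cases h9 : y' b' < y' p
          · exact Or.inl ⟨h9, h8⟩
          · exact Or.inr ⟨by omega, by omega, h8⟩
  clear hu hv hu' hv'
  refine ⟨u, v, u', v', ?_, ?_, ?_, ?_, ?_, ?_, ?_⟩
  · intro p q h
    have h1 := FX p; have h2 := FX q
    rcases h1 with ⟨rfl, h1⟩ | ⟨rfl, h1⟩ | h1 <;> rcases h2 with ⟨rfl, h2⟩ | ⟨rfl, h2⟩ | h2 <;> omega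
  · intro p q h
    have h1 := FX p; have h2 := FX q
    have h3 := hH p; have h4 := hH q
    rcases h1 with ⟨rfl, h1⟩ | ⟨rfl, h1⟩ | h1 <;> rcases h2 with ⟨rfl, h2⟩ | ⟨rfl, h2⟩ | h2 <;> omega
  · intro p q h
    have h1 := FY p; have h2 := FY q
    rcases h1 with ⟨rfl, h1⟩ | ⟨rfl, h1⟩ | h1 <;> rcases h2 with ⟨rfl, h2⟩ | ⟨rfl, h2⟩ | h2 <;> omega
  · intro p q h
    have h1 := FY p; have h2 := FY q
    have h3 := hH' p; have h4 := hH' q
    rcases h1 with ⟨rfl, h1⟩ | ⟨rfl, h1⟩ | h1 <;> rcases h2 with ⟨rfl, h2⟩ | ⟨rfl, h2⟩ | h2 <;> omega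
  · intro p q
    have h1 := FX p; have h2 := FY q
    constructor
    · intro h
      rcases h1 with ⟨h0, h1⟩ | ⟨h0, h1⟩ | h1 <;> rcases h2 with ⟨h0', h2⟩ | ⟨h0', h2⟩ | h2 <;>
        first
          | exact Or.inl ⟨h0, h0'⟩
          | exact Or.inr ⟨h0, h0'⟩
          | omega
    · rintro (⟨rfl, rfl⟩ | ⟨rfl, rfl⟩)
      · rcases h1 with ⟨h0, h1⟩ | ⟨h0, h1⟩ | h1 <;> rcases h2 with ⟨h0', h2⟩ | ⟨h0', h2⟩ | h2 <;>
          first
            | exact absurd h0 hab2
            | exact absurd h0' hab2'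
            | exact absurd rfl h1.1
            | exact absurd rfl h2.1
            | omega
      · rcases h1 with ⟨h0, h1⟩ | ⟨h0, h1⟩ | h1 <;> rcases h2 with ⟨h0', h2⟩ | ⟨h0', h2⟩ | h2 <;>
          first
            | exact absurd h0.symm hab2
            | exact absurd h0'.symm hab2'
            | exact absurd rfl h1.2.1
            | exact absurd rfl h2.2.1
            | omega
  · intro p q
    have h1 := FX p; have h2 := FY q
    have h3 := hH p; have h4 := hH' q
    constructor
    · intro h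
      rcases h1 with ⟨h0, h1⟩ | ⟨h0, h1⟩ | h1 <;> rcases h2 with ⟨h0', h2⟩ | ⟨h0', h2⟩ | h2 <;>
        first
          | exact Or.inl ⟨h0, h0'⟩
          | exact Or.inr ⟨h0, h0'⟩
          | omega
    · rintro (⟨rfl, rfl⟩ | ⟨rfl, rfl⟩)
      · rcases h1 with ⟨h0, h1⟩ | ⟨h0, h1⟩ | h1 <;> rcases h2 with ⟨h0', h2⟩ | ⟨h0', h2⟩ | h2 <;>
          first
            | exact absurd h0 hab2
            | exact absurd h0' hab2'
            | exact absurd rfl h1.1
            | exact absurd rfl h2.1
            | omega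
      · rcases h1 with ⟨h0, h1⟩ | ⟨h0, h1⟩ | h1 <;> rcases h2 with ⟨h0', h2⟩ | ⟨h0', h2⟩ | h2 <;>
          first
            | exact absurd h0.symm hab2
            | exact absurd h0'.symm hab2'
            | exact absurd rfl h1.2.1
            | exact absurd rfl h2.2.1
            | omega
  · -- 3142-free
    obtain ⟨U, hU⟩ : ∃ U, U = Sum.elim u u' := ⟨_, rfl⟩
    obtain ⟨V, hV⟩ : ∃ V, V = Sum.elim v v' := ⟨_, rfl⟩
    rw [← hU, ← hV]
    -- types of elements
    have T : ∀ t : X ⊕ Y, (U t = 0 ∧ V t = 0) ∨ (U t = L + L' ∧ V t = K + K') ∨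
        (∃ p, t = Sum.inl p ∧ U t = x p - x a ∧ x a < x p ∧ x p < x b ∧ V t = v p ∧
          ((y b < y p ∧ v p = K + H + (y p - y b) + K') ∨ (y p < y a ∧ v p = y p - y a) ∨
          (y a < y p ∧ y p < y b ∧ v p = y p - y a))) ∨
        (∃ p, t = Sum.inr p ∧ U t = L + (x' p - x' a') ∧ x' a' < x' p ∧ x' p < x' b' ∧ V t = v' p ∧
        ((y' p < y' a' ∧ v' p = y' p - y' a' - H) ∨ (y' b' < y' p ∧ v' p = K + (y' p - y' a')) ∨
          (y' a' < y' p ∧ y' p < y' b' ∧ v' p = K + (y' p - y' a')))) := by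
      rintro (p | p)
      · rw [hU, hV]
        simp only [Sum.elim_inl]
        rcases FX p with ⟨h0, h1⟩ | ⟨h0, h1⟩ | ⟨h1, h2, h3, h4, h5, h6⟩
        · right; left; exact h1
        · left; exact h1
        · right; right; left; exact ⟨p, rfl, h3, h4, h5, rfl, h6⟩
      · rw [hU, hV]
        simp only [Sum.elim_inr]
        rcases FY p with ⟨h0, h1⟩ | ⟨h0, h1⟩ | ⟨h1, h2, h3, h4, h5, h6⟩
        · left; exact h1
        · right; left; exact h1
        · right; right; right; exact ⟨p, rfl, h3, h4, h5, rfl, h6⟩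
    have hK0 : 0 < K := by omega
    have hK0' : 0 < K' := by omega
    have hL0 : 0 < L := by omega
    have hL0' : 0 < L' := by omega
    have Hi : ∀ s t : X ⊕ Y, K + K' < V s → K + K' < V t → U s < U t → V t < V s := by
      intro s t h1 h2 h3
      rcases T s with g | g | ⟨p, -, g1, g2, g3, g4, g5⟩ | ⟨p, -, g1, g2, g3, g4, g5⟩
      · omega
      · omega
      · have f1 := hH p
        rcases T t with j | j | ⟨q, -, j1, j2, j3, j4, j5⟩ | ⟨q, -, j1, j2, j3, j4, j5⟩
        · omega
        · omega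
        · have f2 := hH q
          have := hd p q (by omega) (by omega) (by omega)
          omega
        · have f2 := hH' q
          omega
      · have f1 := hH' p
        rcases T t with j | j | ⟨q, -, j1, j2, j3, j4, j5⟩ | ⟨q, -, j1, j2, j3, j4, j5⟩
        · omega
        · omega
        · omega
        · have f2 := hH' q
          have := hd' p q (by omega) (by omega) (by omega)
          omega
    have Lo : ∀ s t : X ⊕ Y, V s < 0 → V t < 0 → U s < U t → V t < V s := by
      intro s t h1 h2 h3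
      rcases T s with g | g | ⟨p, -, g1, g2, g3, g4, g5⟩ | ⟨p, -, g1, g2, g3, g4, g5⟩
      · omega
      · omega
      · have f1 := hH p
        rcases T t with j | j | ⟨q, -, j1, j2, j3, j4, j5⟩ | ⟨q, -, j1, j2, j3, j4, j5⟩
        · omega
        · omega
        · have f2 := hH q
          have := he p q (by omega) (by omega) (by omega)
          omega
        · have f2 := hH' q
          omega
      · have f1 := hH' p
        rcases T t with j | j | ⟨q, -, j1, j2, j3, j4, j5⟩ | ⟨q, -, j1, j2, j3, j4, j5⟩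
        · omega
        · omega
        · omega
        · have f2 := hH' q
          have := he' p q (by omega) (by omega) (by omega)
          omega
    intro P Q R S h1 h2 h3 h4 h5 h6
    have l1 : ¬ (K + K' < V P) := fun h => by
      have := Hi P R h (by omega) (by omega); omega
    have l2 : ¬ (V S < 0) := fun h => by
      have := Lo Q S (by omega) h (by omega); omega
    rcases T P with g | g | ⟨p, gp, g1, g2, g3, g4, g5⟩ | ⟨p, gp, g1, g2, g3, g4, g5⟩
    · omega
    · rcases T S with j | j | ⟨s, js, j1, j2, j3, j4, j5⟩ | ⟨s, js, j1, j2, j3, j4, j5⟩ <;> omega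
    · have f1 := hH p
      rcases T S with j | j | ⟨s, js, j1, j2, j3, j4, j5⟩ | ⟨s, js, j1, j2, j3, j4, j5⟩
      · omega
      · omega
      · have f2 := hH s
        rcases T Q with k | k | ⟨q, kq, k1, k2, k3, k4, k5⟩ | ⟨q, kq, k1, k2, k3, k4, k5⟩
        · omega
        · omega
        · have f3 := hH q
          rcases T R with l | l | ⟨r, lr, m1, m2, m3, m4, m5⟩ | ⟨r, lr, m1, m2, m3, m4, m5⟩
          · omega
          · omega
          · have f4 := hH r
            exact hF p q r s (by omega) (by omega) (by omega) (by omega) (by omega) (by omega)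
          · omega
        · omega
      · have f2 := hH' s
        omega
    · have f1 := hH' p
      rcases T S with j | j | ⟨s, js, j1, j2, j3, j4, j5⟩ | ⟨s, js, j1, j2, j3, j4, j5⟩
      · omega
      · omega
      · omega
      · have f2 := hH' s
        rcases T Q with k | k | ⟨q, kq, k1, k2, k3, k4, k5⟩ | ⟨q, kq, k1, k2, k3, k4, k5⟩
        · omega
        · omega
        · omega
        · have f3 := hH' q
          rcases T R with l | l | ⟨r, lr, m1, m2, m3, m4, m5⟩ | ⟨r, lr, m1, m2, m3, m4, m5⟩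
          · omega
          · omega
          · omega
          · have f4 := hH' r
            exact hF' p q r s (by omega) (by omega) (by omega) (by omega) (by omega) (by omega)

end Pool.Agent.J4H41.AM
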