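import Pool.Agent.J4H41.AM.Assembly
import Pool.Agent.J4H41.AM.Irr

/-!
# The induction: amalgamation over an increasing pair
-/

namespace Pool.Agent.J4H41.AM

open Classical

/-- an amalgam of the subtypes is an amalgam of the restrictions -/
theorem AmalgOn.of_sub {X Y : Type} {c : X → Prop} {c' : Y → Prop} {x y : X → ℤ} {a b : X}
    {x' y' : Y → ℤ} {a' b' : Y} (ca : c a) (cb : c b) (ca' : c' a') (cb' : c' b')
    (h : Amalg (fun p : {p // c p} => x p) (fun p => y p) ⟨a, ca⟩ ⟨b, cb⟩
      (fun p : {p // c' p} => x' p) (fun p => y' p) ⟨a', ca'⟩ ⟨b', cb'⟩) :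
    AmalgOn c c' x y a b x' y' a' b' := by
  obtain ⟨u, v, u', v', h1, h2, h3, h4, h5, h6, h7⟩ := h
  let U : X → ℤ := fun p => if h : c p then u ⟨p, h⟩ else 0
  let V : X → ℤ := fun p => if h : c p then v ⟨p, h⟩ else 0
  let U' : Y → ℤ := fun p => if h : c' p then u' ⟨p, h⟩ else 0
  let V' : Y → ℤ := fun p => if h : c' p then v' ⟨p, h⟩ else 0
  have eU : ∀ p (h : c p), U p = u ⟨p, h⟩ := fun p h => by simp [U, h]
  have eV : ∀ p (h : c p), V p = v ⟨p, h⟩ := fun p h => by simp [V, h]
  have eU' : ∀ p (h : c' p), U' p = u' ⟨p, h⟩ := fun p h => by simp [U', h]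
  have eV' : ∀ p (h : c' p), V' p = v' ⟨p, h⟩ := fun p h => by simp [V', h]
  refine ⟨U, V, U', V', ?_, ?_, ?_, ?_, ?_, ?_, ?_⟩
  · intro p q hp hq h
    rw [eU p hp, eU q hq]; exact h1 _ _ h
  · intro p q hp hq h
    rw [eV p hp, eV q hq]; exact h2 _ _ h
  · intro p q hp hq h
    rw [eU' p hp, eU' q hq]; exact h3 _ _ h
  · intro p q hp hq h
    rw [eV' p hp, eV' q hq]; exact h4 _ _ h
  · intro p q hp hq
    rw [eU p hp, eU' q hq, h5]; simp
  · intro p q hp hq
    rw [eV p hp, eV' q hq, h6]; simp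
  · have key : ∀ t : X ⊕ Y, Sum.elim c c' t → ∃ t' : {p // c p} ⊕ {p // c' p},
        Sum.elim U U' t = Sum.elim u u' t' ∧ Sum.elim V V' t = Sum.elim v v' t' := by
      rintro (t | t) ht
      · exact ⟨Sum.inl ⟨t, ht⟩, eU t ht, eV t ht⟩
      · exact ⟨Sum.inr ⟨t, ht⟩, eU' t ht, eV' t ht⟩
    intro p q r s cp cq cr cs
    obtain ⟨p', e1, e2⟩ := key p cp
    obtain ⟨q', e3, e4⟩ := key q cq
    obtain ⟨r', e5, e6⟩ := key r cr
    obtain ⟨s', e7, e8⟩ := key s cs
    rw [e1, e2, e3, e4, e5, e6, e7, e8]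
    exact h7 p' q' r' s'

/-- amalgamation for all pairs with fewer than `n` points in total -/
def UpTo (n : ℕ) : Prop :=
  ∀ (X Y : Type) [Finite X] [Finite Y] (x y : X → ℤ) (x' y' : Y → ℤ) (a b : X) (a' b' : Y),
    Nat.card X + Nat.card Y < n →
    Function.Injective x → Function.Injective y → Function.Injective x' → Function.Injective y' →
    Free x y → Free x' y' → x a < x b → y a < y b → x' a' < x' b' → y' a' < y' b' →
    Amalg x y a b x' y' a' b'

theorem step {X Y : Type} [Finite X] [Finite Y] (IH : UpTo (Nat.card X + Nat.card Y))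
    {x y : X → ℤ} {x' y' : Y → ℤ} {a b : X} {a' b' : Y}
    (hx : Function.Injective x) (hy : Function.Injective y) (hx' : Function.Injective x')
    (hy' : Function.Injective y') (hF : Free x y) (hF' : Free x' y')
    (h1 : x a < x b) (h2 : y a < y b) (h3 : x' a' < x' b') (h4 : y' a' < y' b') :
    Amalg x y a b x' y' a' b' ∨ (Half x y b ∧ Half x' y' b') := by
  obtain ⟨q, i, o, ρ, hD⟩ := exists_RD hx hy hF h1 h2
  obtain ⟨q', i', o', ρ', hD'⟩ := exists_RD hx' hy' hF' h3 h4
  obtain ⟨m, hm⟩ : ∃ m, m = 4 * (|ρ| + |ρ'|) := ⟨_, rfl⟩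
  have e1 := le_abs_self ρ
  have e2 := le_abs_self ρ'
  have e3 := abs_nonneg ρ
  have e4 := abs_nonneg ρ'
  obtain ⟨r, D⟩ := hD m (by omega) (by omega)
  obtain ⟨r', D'⟩ := hD' m (by omega) (by omega)
  by_cases hall : (∀ p, Core r i o a b p) ∧ (∀ p, Core r' i' o' a' b' p)
  · exact Or.inr ⟨D.half hall.1, D'.half hall.2⟩
  · left
    refine reduce D D' ?_
    have ca : Core r i o a b a := Or.inr (Or.inl ⟨rfl, fun z _ => ⟨by omega, by omega⟩⟩)
    have cb : Core r i o a b b := Or.inl rfl
    have ca' : Core r' i' o' a' b' a' := Or.inr (Or.inl ⟨rfl, fun z _ => ⟨by omega, by omega⟩⟩)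
    have cb' : Core r' i' o' a' b' b' := Or.inl rfl
    refine AmalgOn.of_sub ca cb ca' cb' ?_
    have c1 : Nat.card {p // Core r i o a b p} ≤ Nat.card X := Finite.card_subtype_le _
    have c2 : Nat.card {p // Core r' i' o' a' b' p} ≤ Nat.card Y := Finite.card_subtype_le _
    refine IH _ _ _ _ _ _ _ _ _ _ ?_ (hx.comp Subtype.val_injective)
      (hy.comp Subtype.val_injective) (hx'.comp Subtype.val_injective)
      (hy'.comp Subtype.val_injective) ?_ ?_ h1 h2 h3 h4
    · rw [not_and_or] at hall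
      rcases hall with h | h
      · push Not at h
        obtain ⟨p, hp⟩ := h
        have : Nat.card {p // Core r i o a b p} < Nat.card X := Finite.card_subtype_lt hp
        omega
      · push Not at h
        obtain ⟨p, hp⟩ := h
        have : Nat.card {p // Core r' i' o' a' b' p} < Nat.card Y := Finite.card_subtype_lt hp
        omega
    · intro p q r s; exact hF p q r s
    · intro p q r s; exact hF' p q r s

/-- rotation by 180 degrees -/
theorem Free.neg {S : Type} {x y : S → ℤ} (h : Free x y) :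
    Free (fun p => - x p) (fun p => - y p) := by
  intro p q r s h1 h2 h3 h4 h5 h6
  beta_reduce at h1 h2 h3 h4 h5 h6
  exact h s r q p (by omega) (by omega) (by omega) (by omega) (by omega) (by omega)

theorem Amalg.neg {X Y : Type} {x y : X → ℤ} {x' y' : Y → ℤ} {a b : X} {a' b' : Y}
    (h : Amalg (fun p => - x p) (fun p => - y p) b a (fun p => - x' p) (fun p => - y' p) b' a') :
    Amalg x y a b x' y' a' b' := by
  obtain ⟨u, v, u', v', h1, h2, h3, h4, h5, h6, h7⟩ := h
  refine ⟨fun p => - u p, fun p => - v p, fun p => - u' p, fun p => - v' p, ?_, ?_, ?_, ?_, ?_, ?_,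
    ?_⟩
  · intro p q h; have := h1 q p (by beta_reduce; omega); beta_reduce; omega
  · intro p q h; have := h2 q p (by beta_reduce; omega); beta_reduce; omega
  · intro p q h; have := h3 q p (by beta_reduce; omega); beta_reduce; omega
  · intro p q h; have := h4 q p (by beta_reduce; omega); beta_reduce; omega
  · intro p q; beta_reduce; rw [neg_inj, h5]; exact or_comm
  · intro p q; beta_reduce; rw [neg_inj, h6]; exact or_comm
  · have e1 : Sum.elim (fun p => - u p) (fun p => - u' p) = fun t => - Sum.elim u u' t := by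
      funext t; rcases t with t | t <;> rfl
    have e2 : Sum.elim (fun p => - v p) (fun p => - v' p) = fun t => - Sum.elim v v' t := by
      funext t; rcases t with t | t <;> rfl
    rw [e1, e2]
    exact h7.neg

theorem irr_of_half {X : Type} {x y : X → ℤ} {a b : X} (h : Half x y b)
    (h' : Half (fun p => - x p) (fun p => - y p) a) : Irr x y a b := by
  refine ⟨fun p ha hb => ⟨?_, h.1 p hb⟩, h.2, fun p p' h1 h2 h3 => ?_⟩
  · have := h'.1 p ha; beta_reduce at this; omega
  · have := h'.2 p' p (by beta_reduce; omega) (by beta_reduce; omega) (by beta_reduce; omega)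
    beta_reduce at this; omega

theorem upTo (n : ℕ) : UpTo n := by
  induction n with
  | zero => intro X Y _ _ x y x' y' a b a' b' h; omega
  | succ n IH =>
    intro X Y _ _ x y x' y' a b a' b' h hx hy hx' hy' hF hF' h1 h2 h3 h4
    have IH' : UpTo (Nat.card X + Nat.card Y) := by
      intro X₁ Y₁ _ _ x₁ y₁ x₁' y₁' a₁ b₁ a₁' b₁' g
      exact IH X₁ Y₁ x₁ y₁ x₁' y₁' a₁ b₁ a₁' b₁' (by omega)
    rcases step IH' hx hy hx' hy' hF hF' h1 h2 h3 h4 with g | ⟨g, g'⟩
    · exact g
    · rcases step IH' (neg_injective.comp hx) (neg_injective.comp hy) (neg_injective.comp hx')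
        (neg_injective.comp hy') hF.neg hF'.neg (a := b) (b := a) (a' := b') (b' := a')
        (by simpa using h1) (by simpa using h2) (by simpa using h3) (by simpa using h4) with
        j | ⟨j, j'⟩
      · exact j.neg
      · exact t_IRR X Y x y x' y' a b a' b' hx hy hx' hy' hF hF' h1 h2 h3 h4 (irr_of_half g j)
          (irr_of_half g' j')

/-- amalgamation of 3142-free configurations over increasing pairs -/
theorem t_MAIN : S_MAIN := by
  intro X Y _ _ x y x' y' a b a' b'
  exact upTo (Nat.card X + Nat.card Y + 1) X Y x y x' y' a b a' b' (by omega)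

end Pool.Agent.J4H41.AM
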