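import Pool.Agent.J4H41.AM.Cls
import Pool.Agent.J4H41.AM.Main

/-!
# From configurations to permutation classes

* base 12: apply `t_MAIN` to `x i = i`, `y i = π i`; the point set of the amalgam (a finite set of points
  of `ℤ²` with distinct coordinates) is standardised to a permutation `τ`.
* base 21: the rotation `(x, y) ↦ (y, -x)` preserves `Free` and turns a decreasing pair `a, b` into the
  increasing pair `b, a`.
* bases of size 0 and 1: add one or two points above and to the right of everything, on both sides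
  (keeps `Free`), and apply the case of size 2.
* the statement for `Av(2413)` follows by the reflection `x ↦ -x`.
-/

namespace Pool.Agent.J4H41.AM

open Classical

/-- amalgam of two configurations in which exactly the pairs in `R` are identified -/
def AmalgR {X Y : Type} (x y : X → ℤ) (x' y' : Y → ℤ) (R : X → Y → Prop) : Prop :=
  ∃ (u v : X → ℤ) (u' v' : Y → ℤ),
    (∀ p q, x p < x q → u p < u q) ∧ (∀ p q, y p < y q → v p < v q) ∧
    (∀ p q, x' p < x' q → u' p < u' q) ∧ (∀ p q, y' p < y' q → v' p < v' q) ∧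
    (∀ p q, u p = u' q ↔ R p q) ∧ (∀ p q, v p = v' q ↔ R p q) ∧
    Free (Sum.elim u u') (Sum.elim v v')

theorem AmalgR.restrict {X Y X₀ Y₀ : Type} {x y : X → ℤ} {x' y' : Y → ℤ} {R : X → Y → Prop}
    (h : AmalgR x y x' y' R) (φ : X₀ → X) (ψ : Y₀ → Y) :
    AmalgR (fun p => x (φ p)) (fun p => y (φ p)) (fun p => x' (ψ p)) (fun p => y' (ψ p))
      (fun p q => R (φ p) (ψ q)) := by
  obtain ⟨u, v, u', v', h1, h2, h3, h4, h5, h6, h7⟩ := h
  refine ⟨fun p => u (φ p), fun p => v (φ p), fun p => u' (ψ p), fun p => v' (ψ p),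
    fun p q h => h1 _ _ h, fun p q h => h2 _ _ h, fun p q h => h3 _ _ h, fun p q h => h4 _ _ h,
    fun p q => h5 _ _, fun p q => h6 _ _, ?_⟩
  have e1 : Sum.elim (fun p => u (φ p)) (fun p => u' (ψ p)) =
      fun t => Sum.elim u u' (Sum.map φ ψ t) := by
    funext t; rcases t with t | t <;> rfl
  have e2 : Sum.elim (fun p => v (φ p)) (fun p => v' (ψ p)) =
      fun t => Sum.elim v v' (Sum.map φ ψ t) := by
    funext t; rcases t with t | t <;> rfl
  rw [e1, e2]
  intro p q r s
  exact h7 _ _ _ _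

theorem AmalgR.congr {X Y : Type} {x y : X → ℤ} {x' y' : Y → ℤ} {R R' : X → Y → Prop}
    (h : AmalgR x y x' y' R) (hR : ∀ p q, R p q ↔ R' p q) : AmalgR x y x' y' R' := by
  have : R = R' := by funext p q; exact propext (hR p q)
  rw [← this]; exact h

/-- rotation by 90 degrees -/
theorem Free.rot {S : Type} {x y : S → ℤ} (h : Free x y) : Free y (fun p => - x p) := by
  intro p q r s h1 h2 h3 h4 h5 h6
  beta_reduce at h1 h2 h3 h4 h5 h6
  exact h r p s q (by omega) (by omega) (by omega) (by omega) (by omega) (by omega)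

theorem Free.rot' {S : Type} {x y : S → ℤ} (h : Free x y) : Free (fun p => - y p) x := by
  intro p q r s h1 h2 h3 h4 h5 h6
  beta_reduce at h1 h2 h3 h4 h5 h6
  exact h q s p r (by omega) (by omega) (by omega) (by omega) (by omega) (by omega)

theorem AmalgR.rot {X Y : Type} {x y : X → ℤ} {x' y' : Y → ℤ} {R : X → Y → Prop}
    (h : AmalgR y (fun p => - x p) y' (fun p => - x' p) R) : AmalgR x y x' y' R := by
  obtain ⟨u, v, u', v', h1, h2, h3, h4, h5, h6, h7⟩ := h
  refine ⟨fun p => - v p, u, fun p => - v' p, u', ?_, h1, ?_, h3, ?_, h5, ?_⟩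
  · intro p q h; have := h2 q p (by beta_reduce; omega); beta_reduce; omega
  · intro p q h; have := h4 q p (by beta_reduce; omega); beta_reduce; omega
  · intro p q; beta_reduce; rw [neg_inj, h6]
  · have e1 : Sum.elim (fun p => - v p) (fun p => - v' p) = fun t => - Sum.elim v v' t := by
      funext t; rcases t with t | t <;> rfl
    rw [e1]
    exact h7.rot'

/-- amalgamation over two points in any relative position -/
theorem amalg2 {X Y : Type} [Finite X] [Finite Y] {x y : X → ℤ} {x' y' : Y → ℤ} {a b : X}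
    {a' b' : Y} (hx : Function.Injective x) (hy : Function.Injective y)
    (hx' : Function.Injective x') (hy' : Function.Injective y') (hF : Free x y) (hF' : Free x' y')
    (hab : a ≠ b) (hab' : a' ≠ b') (h1 : x a < x b ↔ x' a' < x' b')
    (h2 : y a < y b ↔ y' a' < y' b') :
    AmalgR x y x' y' (fun p q => (p = a ∧ q = a') ∨ (p = b ∧ q = b')) := by
  have n1 : x a ≠ x b := fun h => hab (hx h)
  have n2 : y a ≠ y b := fun h => hab (hy h)
  have n3 : x' a' ≠ x' b' := fun h => hab' (hx' h)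
  have n4 : y' a' ≠ y' b' := fun h => hab' (hy' h)
  have nx : Function.Injective (fun p => - x p) := neg_injective.comp hx
  have nx' : Function.Injective (fun p => - x' p) := neg_injective.comp hx'
  rcases lt_or_gt_of_ne n1 with g1 | g1 <;> rcases lt_or_gt_of_ne n2 with g2 | g2
  · exact t_MAIN X Y x y x' y' a b a' b' hx hy hx' hy' hF hF' g1 g2 (by omega) (by omega)
  · refine AmalgR.rot ?_
    have := t_MAIN X Y y (fun p => - x p) y' (fun p => - x' p) b a b' a' hy nx hy' nx' hF.rot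
      hF'.rot g2 (by omega) (by omega) (by omega)
    exact AmalgR.congr this fun p q => or_comm
  · refine AmalgR.rot ?_
    exact t_MAIN X Y y (fun p => - x p) y' (fun p => - x' p) a b a' b' hy nx hy' nx' hF.rot
      hF'.rot g2 (by omega) (by omega) (by omega)
  · have := t_MAIN X Y x y x' y' b a b' a' hx hy hx' hy' hF hF' g1 g2 (by omega) (by omega)
    exact AmalgR.congr this fun p q => or_comm

/-! ### Adding a point above and to the right of everything -/

theorem Free.option {X : Type} {x y : X → ℤ} {B : ℤ} (h : Free x y)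
    (hB : ∀ p, x p < B ∧ y p < B) :
    Free (fun t : Option X => t.elim B x) (fun t => t.elim B y) := by
  have hle : ∀ t : Option X, t.elim B x ≤ B ∧ t.elim B y ≤ B := by
    rintro (_ | t)
    · exact ⟨le_refl _, le_refl _⟩
    · exact ⟨(hB t).1.le, (hB t).2.le⟩
  intro p q r s h1 h2 h3 h4 h5 h6
  beta_reduce at h1 h2 h3 h4 h5 h6
  have p1 := hle p; have q1 := hle q; have r1 := hle r; have s1 := hle s
  rcases p with _ | p
  · simp only [Option.elim_none] at *; omega
  rcases q with _ | q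
  · simp only [Option.elim_none] at *; omega
  rcases r with _ | r
  · simp only [Option.elim_none] at *; omega
  rcases s with _ | s
  · simp only [Option.elim_none] at *; omega
  exact h p q r s h1 h2 h3 h4 h5 h6

theorem inj_option {X : Type} {x : X → ℤ} {B : ℤ} (h : Function.Injective x) (hB : ∀ p, x p < B) :
    Function.Injective (fun t : Option X => t.elim B x) := by
  intro s t hst
  beta_reduce at hst
  rcases s with _ | s <;> rcases t with _ | t
  · rfl
  · have := hB t
    simp only [Option.elim_none, Option.elim_some] at hst; omega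
  · have := hB s
    simp only [Option.elim_none, Option.elim_some] at hst; omega
  · simp only [Option.elim_some] at hst; rw [h hst]

theorem exists_upper {X : Type} [Finite X] (x y : X → ℤ) : ∃ B : ℤ, ∀ p, x p < B ∧ y p < B := by
  obtain ⟨A, _, hA⟩ := exists_bound x
  obtain ⟨A', _, hA'⟩ := exists_bound y
  exact ⟨max A A' + 1, fun p => by
    have h1 := hA p; have h2 := hA' p
    have h3 := le_max_left A A'; have h4 := le_max_right A A'
    constructor <;> omega⟩

/-- amalgamation over one point -/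
theorem amalg1 {X Y : Type} [Finite X] [Finite Y] {x y : X → ℤ} {x' y' : Y → ℤ} {a : X}
    {a' : Y} (hx : Function.Injective x) (hy : Function.Injective y)
    (hx' : Function.Injective x') (hy' : Function.Injective y') (hF : Free x y) (hF' : Free x' y') :
    AmalgR x y x' y' (fun p q => p = a ∧ q = a') := by
  obtain ⟨B, hB⟩ := exists_upper x y
  obtain ⟨B', hB'⟩ := exists_upper x' y'
  have h := amalg2 (a := some a) (b := none) (a' := some a') (b' := none)
    (inj_option hx fun p => (hB p).1) (inj_option hy fun p => (hB p).2)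
    (inj_option hx' fun p => (hB' p).1) (inj_option hy' fun p => (hB' p).2)
    (hF.option hB) (hF'.option hB') (by simp) (by simp)
    (by simp only [Option.elim_none, Option.elim_some, (hB a).1, (hB' a').1])
    (by simp only [Option.elim_none, Option.elim_some, (hB a).2, (hB' a').2])
  exact (h.restrict some some).congr (by simp)

/-- amalgamation over nothing -/
theorem amalg0 {X Y : Type} [Finite X] [Finite Y] {x y : X → ℤ} {x' y' : Y → ℤ}
    (hx : Function.Injective x) (hy : Function.Injective y)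
    (hx' : Function.Injective x') (hy' : Function.Injective y') (hF : Free x y) (hF' : Free x' y') :
    AmalgR x y x' y' (fun _ _ => False) := by
  obtain ⟨B, hB⟩ := exists_upper x y
  obtain ⟨B', hB'⟩ := exists_upper x' y'
  have h := amalg1 (a := none) (a' := none)
    (inj_option hx fun p => (hB p).1) (inj_option hy fun p => (hB p).2)
    (inj_option hx' fun p => (hB' p).1) (inj_option hy' fun p => (hB' p).2)
    (hF.option hB) (hF'.option hB')
  exact (h.restrict some some).congr (by simp)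

/-! ### Standardisation -/

theorem exists_rank {T : Type} [Fintype T] (f : T → ℤ) (hf : Function.Injective f) :
    ∃ e : T ≃ Fin (Fintype.card T), ∀ s t, e s < e t ↔ f s < f t := by
  letI : LinearOrder T := LinearOrder.lift' f hf
  let e := monoEquivOfFin T rfl
  refine ⟨e.symm.toEquiv, fun s t => ?_⟩
  have h : e.symm s < e.symm t ↔ s < t := e.symm.lt_iff_lt
  exact h

/-- 3142-freeness (`s = 1`) or 2413-freeness (`s = -1`) in coordinates -/
def Fr (s : ℤ) {n : ℕ} (π : Equiv.Perm (Fin n)) : Prop :=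
  Free (fun i : Fin n => s * ((i : ℕ) : ℤ)) (fun i => ((π i : ℕ) : ℤ))

theorem toPerm {n m : ℕ} (π : Equiv.Perm (Fin n)) (σ : Equiv.Perm (Fin m)) {s : ℤ}
    (hs : s = 1 ∨ s = -1) {u v : Fin n → ℤ} {u' v' : Fin m → ℤ} {R : Fin n → Fin m → Prop}
    (h1 : ∀ i j, i < j → u i < u j) (h2 : ∀ i j, π i < π j → v i < v j)
    (h3 : ∀ i j, i < j → u' i < u' j) (h4 : ∀ i j, σ i < σ j → v' i < v' j)
    (h5 : ∀ i j, u i = u' j ↔ R i j) (h6 : ∀ i j, v i = v' j ↔ R i j)
    (h7 : Free (fun t => s * Sum.elim u u' t) (Sum.elim v v')) :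
    ∃ (N : ℕ) (τ : Equiv.Perm (Fin N)) (f : Emb π τ) (g : Emb σ τ),
      (∀ i j, R i j → f.f i = g.f j) ∧ Fr s τ := by
  have iu : ∀ i j, u i = u j → i = j := fun i j h => by
    rcases lt_trichotomy i j with g | g | g
    · have := h1 _ _ g; omega
    · exact g
    · have := h1 _ _ g; omega
  have iu' : ∀ i j, u' i = u' j → i = j := fun i j h => by
    rcases lt_trichotomy i j with g | g | g
    · have := h3 _ _ g; omega
    · exact g
    · have := h3 _ _ g; omega
  have iv : ∀ i j, v i = v j → i = j := fun i j h => by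
    rcases lt_trichotomy (π i) (π j) with g | g | g
    · have := h2 _ _ g; omega
    · exact π.injective g
    · have := h2 _ _ g; omega
  have iv' : ∀ i j, v' i = v' j → i = j := fun i j h => by
    rcases lt_trichotomy (σ i) (σ j) with g | g | g
    · have := h4 _ _ g; omega
    · exact σ.injective g
    · have := h4 _ _ g; omega
  obtain ⟨U, hU⟩ : ∃ U, U = Sum.elim u u' := ⟨_, rfl⟩
  obtain ⟨V, hV⟩ : ∃ V, V = Sum.elim v v' := ⟨_, rfl⟩
  have hUV : ∀ t t' : Fin n ⊕ Fin m, U t = U t' ↔ V t = V t' := by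
    rintro (t | t) (t' | t') <;> rw [hU, hV] <;> simp only [Sum.elim_inl, Sum.elim_inr]
    · exact ⟨fun h => by rw [iu _ _ h], fun h => by rw [iv _ _ h]⟩
    · rw [h5, h6]
    · rw [eq_comm, h5, eq_comm, h6]
    · exact ⟨fun h => by rw [iu' _ _ h], fun h => by rw [iv' _ _ h]⟩
  let T : Type := ↥(Set.range (fun t : Fin n ⊕ Fin m => (U t, V t)))
  haveI : Fintype T := Fintype.ofFinite T
  have i1 : Function.Injective (fun t : T => t.1.1) := by
    rintro ⟨_, ⟨t, rfl⟩⟩ ⟨_, ⟨t', rfl⟩⟩ h
    simp only at h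
    exact Subtype.ext (Prod.ext h ((hUV t t').1 h))
  have i2 : Function.Injective (fun t : T => t.1.2) := by
    rintro ⟨_, ⟨t, rfl⟩⟩ ⟨_, ⟨t', rfl⟩⟩ h
    simp only at h
    exact Subtype.ext (Prod.ext ((hUV t t').2 h) h)
  obtain ⟨e, he⟩ := exists_rank _ i1
  obtain ⟨e', he'⟩ := exists_rank _ i2
  let τ : Equiv.Perm (Fin (Fintype.card T)) := e.symm.trans e'
  have hτ : ∀ t, τ (e t) = e' t := fun t => by simp [τ]
  let pt : Fin n ⊕ Fin m → T := fun t => ⟨(U t, V t), ⟨t, rfl⟩⟩
  refine ⟨Fintype.card T, τ, ⟨fun i => e (pt (Sum.inl i)), ?_, ?_⟩,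
    ⟨fun i => e (pt (Sum.inr i)), ?_, ?_⟩, ?_, ?_⟩
  · intro i j h
    rw [he]; simp only [pt, hU, Sum.elim_inl]; exact h1 i j h
  · intro i j h
    rw [hτ, hτ, he']; simp only [pt, hV, Sum.elim_inl]; exact h2 i j h
  · intro i j h
    rw [he]; simp only [pt, hU, Sum.elim_inr]; exact h3 i j h
  · intro i j h
    rw [hτ, hτ, he']; simp only [pt, hV, Sum.elim_inr]; exact h4 i j h
  · intro i j h
    have g1 := (h5 i j).2 h
    have g2 := (h6 i j).2 h
    simp only [pt, hU, hV, Sum.elim_inl, Sum.elim_inr, g1, g2]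
  · -- freeness
    have key : ∀ i : Fin (Fintype.card T), ∃ t, i = e (pt t) := by
      intro i
      obtain ⟨⟨_, ⟨t, rfl⟩⟩, ht⟩ := e.surjective i
      exact ⟨t, ht.symm⟩
    have c1 : ∀ t t', e (pt t) < e (pt t') ↔ U t < U t' := fun t t' => he _ _
    have c2 : ∀ t t', τ (e (pt t)) < τ (e (pt t')) ↔ V t < V t' := fun t t' => by
      rw [hτ, hτ]; exact he' _ _
    rw [← hU, ← hV] at h7
    have c3 : ∀ i j : Fin (Fintype.card T), ((i : ℕ) : ℤ) < ((j : ℕ) : ℤ) ↔ i < j := by
      intro i j; rw [Nat.cast_lt, Fin.lt_def]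
    intro p q r w
    obtain ⟨p, rfl⟩ := key p
    obtain ⟨q, rfl⟩ := key q
    obtain ⟨r, rfl⟩ := key r
    obtain ⟨w, rfl⟩ := key w
    have h7' := h7 p q r w
    beta_reduce at h7' ⊢
    rcases hs with rfl | rfl
    · simp only [one_mul] at h7' ⊢
      rw [c3, c3, c3, c3, c3, c3, c1, c1, c1, c2, c2, c2]
      exact h7'
    · simp only [neg_mul, one_mul, neg_lt_neg_iff] at h7' ⊢
      rw [c3, c3, c3, c3, c3, c3, c1, c1, c1, c2, c2, c2]
      exact h7'

theorem finish {n m : ℕ} (π : Equiv.Perm (Fin n)) (σ : Equiv.Perm (Fin m)) {s : ℤ}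
    (hs : s = 1 ∨ s = -1) {R : Fin n → Fin m → Prop}
    (hA : AmalgR (fun i : Fin n => s * ((i : ℕ) : ℤ)) (fun i => ((π i : ℕ) : ℤ))
      (fun i : Fin m => s * ((i : ℕ) : ℤ)) (fun i => ((σ i : ℕ) : ℤ)) R) :
    ∃ τ ∈ {π : P | Fr s π.2}, ∃ (f : Emb π τ.2) (g : Emb σ τ.2), ∀ i j, R i j → f.f i = g.f j := by
  obtain ⟨u, v, u', v', h1, h2, h3, h4, h5, h6, h7⟩ := hA
  have hss : s * s = 1 := by rcases hs with rfl | rfl <;> norm_num
  obtain ⟨N, τ, f, g, e1, e2⟩ := toPerm π σ hs (u := fun i => s * u i) (v := v)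
    (u' := fun i => s * u' i) (v' := v') (R := R)
    (by
      intro i j h
      have h' : ((i : ℕ) : ℤ) < ((j : ℕ) : ℤ) := by exact_mod_cast h
      rcases hs with rfl | rfl
      · have := h1 i j (by beta_reduce; omega); beta_reduce; omega
      · have := h1 j i (by beta_reduce; omega); beta_reduce; omega)
    (fun i j h => h2 i j (by beta_reduce; exact_mod_cast h))
    (by
      intro i j h
      have h' : ((i : ℕ) : ℤ) < ((j : ℕ) : ℤ) := by exact_mod_cast h
      rcases hs with rfl | rfl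
      · have := h3 i j (by beta_reduce; omega); beta_reduce; omega
      · have := h3 j i (by beta_reduce; omega); beta_reduce; omega)
    (fun i j h => h4 i j (by beta_reduce; exact_mod_cast h))
    (by
      intro i j
      rw [← h5]
      beta_reduce
      rcases hs with rfl | rfl <;> omega)
    h6
    (by
      have e1 : (fun t => s * Sum.elim (fun i => s * u i) (fun i => s * u' i) t) =
          Sum.elim u u' := by
        funext t
        rcases t with t | t
        · simp only [Sum.elim_inl]; rw [← mul_assoc, hss, one_mul]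
        · simp only [Sum.elim_inr]; rw [← mul_assoc, hss, one_mul]
      rw [e1]; exact h7)
  exact ⟨⟨N, τ⟩, e2, f, g, e1⟩

theorem two_amalg {s : ℤ} (hs : s = 1 ∨ s = -1) : TwoAmalgamable {π : P | Fr s π.2} := by
  rintro ⟨k, α⟩ - hk ⟨n, π⟩ hπ ⟨m, σ⟩ hσ f g
  dsimp only at hk f g
  have hπ' : Fr s π := hπ
  have hσ' : Fr s σ := hσ
  have i1 : ∀ {n : ℕ}, Function.Injective (fun i : Fin n => s * ((i : ℕ) : ℤ)) := by
    intro n i j h
    beta_reduce at h
    rcases hs with rfl | rfl <;> exact Fin.ext (by omega)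
  have i2 : ∀ {n : ℕ} (π : Equiv.Perm (Fin n)), Function.Injective (fun i => ((π i : ℕ) : ℤ)) := by
    intro n π i j h
    beta_reduce at h
    exact π.injective (Fin.ext (by omega))
  have hk' : k = 0 ∨ k = 1 ∨ k = 2 := by omega
  rcases hk' with rfl | rfl | rfl
  · obtain ⟨τ, h1, f', g', h2⟩ := finish π σ hs (amalg0 i1 (i2 π) i1 (i2 σ) hπ' hσ')
    exact ⟨τ, h1, f', g', fun i => i.elim0⟩
  · obtain ⟨τ, h1, f', g', h2⟩ := finish π σ hs (amalg1 (a := f.f 0) (a' := g.f 0) i1 (i2 π) i1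
      (i2 σ) hπ' hσ')
    refine ⟨τ, h1, f', g', fun i => ?_⟩
    have : i = 0 := Subsingleton.elim _ _
    subst this
    exact h2 _ _ ⟨rfl, rfl⟩
  · have a1 : f.f 0 < f.f 1 := f.pos 0 1 (by decide)
    have a2 : g.f 0 < g.f 1 := g.pos 0 1 (by decide)
    have a3 : (π (f.f 0) < π (f.f 1) ∧ σ (g.f 0) < σ (g.f 1)) ∨
        (π (f.f 1) < π (f.f 0) ∧ σ (g.f 1) < σ (g.f 0)) := by
      have : α 0 ≠ α 1 := fun h => by
        have := α.injective h
        exact absurd this (by decide)
      rcases lt_or_gt_of_ne this with h | h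
      · exact Or.inl ⟨f.val _ _ h, g.val _ _ h⟩
      · exact Or.inr ⟨f.val _ _ h, g.val _ _ h⟩
    have b1 : ((f.f 0 : ℕ) : ℤ) < ((f.f 1 : ℕ) : ℤ) := by exact_mod_cast a1
    have b2 : ((g.f 0 : ℕ) : ℤ) < ((g.f 1 : ℕ) : ℤ) := by exact_mod_cast a2
    have b3 : (((π (f.f 0) : ℕ) : ℤ) < ((π (f.f 1) : ℕ) : ℤ) ∧
        ((σ (g.f 0) : ℕ) : ℤ) < ((σ (g.f 1) : ℕ) : ℤ)) ∨
        (((π (f.f 1) : ℕ) : ℤ) < ((π (f.f 0) : ℕ) : ℤ) ∧
        ((σ (g.f 1) : ℕ) : ℤ) < ((σ (g.f 0) : ℕ) : ℤ)) := by exact_mod_cast a3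
    obtain ⟨τ, h1, f', g', h2⟩ := finish π σ hs (amalg2 (a := f.f 0) (a' := g.f 0) (b := f.f 1)
      (b' := g.f 1) i1 (i2 π) i1 (i2 σ) hπ' hσ' a1.ne a2.ne
      (by beta_reduce; rcases hs with rfl | rfl <;> omega) (by beta_reduce; omega))
    refine ⟨τ, h1, f', g', fun i => ?_⟩
    have h01 : ∀ j : Fin 2, j = 0 ∨ j = 1 := by decide
    rcases h01 i with rfl | rfl
    · exact h2 _ _ (Or.inl ⟨rfl, rfl⟩)
    · exact h2 _ _ (Or.inr ⟨rfl, rfl⟩)

/-! ### The classes -/

/-- composition of embeddings -/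
def Emb.trans {k n m : ℕ} {α : Equiv.Perm (Fin k)} {π : Equiv.Perm (Fin n)}
    {σ : Equiv.Perm (Fin m)} (f : Emb α π) (g : Emb π σ) : Emb α σ :=
  ⟨fun i => g.f (f.f i), fun i j h => g.pos _ _ (f.pos i j h), fun i j h => g.val _ _ (f.val i j h)⟩

/-- the identity embedding -/
def Emb.refl {k : ℕ} (α : Equiv.Perm (Fin k)) : Emb α α :=
  ⟨fun i => i, fun _ _ h => h, fun _ _ h => h⟩

theorem isClass_Av (B : Set P) : IsClass (Av B) := by
  rintro α π ⟨f⟩ hπ β hβ ⟨g⟩
  exact hπ β hβ ⟨g.trans f⟩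

/-- an occurrence given by four positions -/
theorem emb_3142 {n : ℕ} {π : Equiv.Perm (Fin n)} (p q r s : Fin n) (h1 : p < q) (h2 : q < r)
    (h3 : r < s) (h4 : π q < π s) (h5 : π s < π p) (h6 : π p < π r) :
    Nonempty (Emb p3142 π) := by
  refine ⟨⟨![p, q, r, s], ?_, ?_⟩⟩
  · intro i j h
    fin_cases i <;> fin_cases j <;> first
      | exact absurd h (by decide)
      | exact h1
      | exact h2
      | exact h3
      | exact h1.trans h2
      | exact h2.trans h3
      | exact (h1.trans h2).trans h3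
  · intro i j h
    fin_cases i <;> fin_cases j <;> first
      | exact absurd h (by decide)
      | exact h4
      | exact h5
      | exact h6
      | exact h4.trans h5
      | exact h5.trans h6
      | exact (h4.trans h5).trans h6

theorem emb_2413 {n : ℕ} {π : Equiv.Perm (Fin n)} (p q r s : Fin n) (h1 : p < q) (h2 : q < r)
    (h3 : r < s) (h4 : π r < π p) (h5 : π p < π s) (h6 : π s < π q) :
    Nonempty (Emb p2413 π) := by
  refine ⟨⟨![p, q, r, s], ?_, ?_⟩⟩
  · intro i j h
    fin_cases i <;> fin_cases j <;> first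
      | exact absurd h (by decide)
      | exact h1
      | exact h2
      | exact h3
      | exact h1.trans h2
      | exact h2.trans h3
      | exact (h1.trans h2).trans h3
  · intro i j h
    fin_cases i <;> fin_cases j <;> first
      | exact absurd h (by decide)
      | exact h4
      | exact h5
      | exact h6
      | exact h4.trans h5
      | exact h5.trans h6
      | exact (h4.trans h5).trans h6

theorem Av_3142 : Av {⟨4, p3142⟩} = {π : P | Fr 1 π.2} := by
  ext ⟨n, π⟩
  constructor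
  · intro h p q r s h1 h2 h3 h4 h5 h6
    simp only [one_mul, Nat.cast_lt, Fin.val_fin_lt] at h1 h2 h3 h4 h5 h6
    exact h _ rfl (emb_3142 p q r s h1 h2 h3 h4 h5 h6)
  · rintro h β rfl ⟨f⟩
    have h' : Fr 1 π := h
    refine h' (f.f 0) (f.f 1) (f.f 2) (f.f 3) ?_ ?_ ?_ ?_ ?_ ?_ <;>
      simp only [one_mul, Nat.cast_lt, Fin.val_fin_lt]
    · exact f.pos 0 1 (by decide)
    · exact f.pos 1 2 (by decide)
    · exact f.pos 2 3 (by decide)
    · exact f.val 1 3 (by decide)
    · exact f.val 3 0 (by decide)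
    · exact f.val 0 2 (by decide)

theorem Av_2413 : Av {⟨4, p2413⟩} = {π : P | Fr (-1) π.2} := by
  ext ⟨n, π⟩
  constructor
  · intro h p q r s h1 h2 h3 h4 h5 h6
    simp only [neg_mul, one_mul, neg_lt_neg_iff, Nat.cast_lt, Fin.val_fin_lt] at h1 h2 h3 h4 h5 h6
    exact h _ rfl (emb_2413 s r q p h3 h2 h1 h4 h5 h6)
  · rintro h β rfl ⟨f⟩
    have h' : Fr (-1) π := h
    refine h' (f.f 3) (f.f 2) (f.f 1) (f.f 0) ?_ ?_ ?_ ?_ ?_ ?_ <;>
      simp only [neg_mul, one_mul, neg_lt_neg_iff, Nat.cast_lt, Fin.val_fin_lt]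
    · exact f.pos 2 3 (by decide)
    · exact f.pos 1 2 (by decide)
    · exact f.pos 0 1 (by decide)
    · exact f.val 2 0 (by decide)
    · exact f.val 0 3 (by decide)
    · exact f.val 3 1 (by decide)

theorem mem1 : (⟨4, p2413⟩ : P) ∈ Av {⟨4, p3142⟩} := by
  rintro β rfl ⟨f⟩
  replace f : Emb p3142 p2413 := f
  have h1 := f.pos 0 1 (by decide)
  have h2 := f.pos 1 2 (by decide)
  have h3 := f.pos 2 3 (by decide)
  have h4 := f.val 1 3 (by decide)
  have e0 : f.f 0 = 0 := by omega
  have e1 : f.f 1 = 1 := by omega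
  have e3 : f.f 3 = 3 := by omega
  have h5 := f.val 3 0 (by decide)
  rw [e0, e3] at h5
  exact absurd h5 (by decide)

theorem mem2 : (⟨4, p3142⟩ : P) ∈ Av {⟨4, p2413⟩} := by
  rintro β rfl ⟨f⟩
  replace f : Emb p2413 p3142 := f
  have h1 := f.pos 0 1 (by decide)
  have h2 := f.pos 1 2 (by decide)
  have h3 := f.pos 2 3 (by decide)
  have e0 : f.f 0 = 0 := by omega
  have e1 : f.f 1 = 1 := by omega
  have e3 : f.f 3 = 3 := by omega
  have h5 := f.val 0 3 (by decide)
  rw [e0, e3] at h5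
  exact absurd h5 (by decide)

theorem t_FINAL : (IsClass (Av {⟨4, p3142⟩}) ∧ TwoAmalgamable (Av {⟨4, p3142⟩}) ∧
      ¬ (Av {⟨4, p3142⟩} ⊆ Sep) ∧ Av {⟨4, p3142⟩} ≠ Set.univ) ∧
    (IsClass (Av {⟨4, p2413⟩}) ∧ TwoAmalgamable (Av {⟨4, p2413⟩}) ∧
      ¬ (Av {⟨4, p2413⟩} ⊆ Sep) ∧ Av {⟨4, p2413⟩} ≠ Set.univ) := by
  refine ⟨⟨isClass_Av _, ?_, ?_, ?_⟩, ⟨isClass_Av _, ?_, ?_, ?_⟩⟩
  · rw [Av_3142]; exact two_amalg (Or.inl rfl)
  · intro h
    exact h mem1 _ (Or.inl rfl) ⟨Emb.refl _⟩
  · intro h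
    have : (⟨4, p3142⟩ : P) ∈ Av {⟨4, p3142⟩} := by rw [h]; trivial
    exact this _ rfl ⟨Emb.refl _⟩
  · rw [Av_2413]; exact two_amalg (Or.inr rfl)
  · intro h
    exact h mem2 _ (Or.inr rfl) ⟨Emb.refl _⟩
  · intro h
    have : (⟨4, p2413⟩ : P) ∈ Av {⟨4, p2413⟩} := by rw [h]; trivial
    exact this _ rfl ⟨Emb.refl _⟩

end Pool.Agent.J4H41.AM
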