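import Pool.Agent.J4H41.AM.Side

/-!
# The merged data of two configurations satisfy the hypotheses of the merging theorem
-/

namespace Pool.Agent.J4H41.AM

open Classical

/-- label encoding of the first configuration -/
def encX (k : ℤ) : ℤ := if k < 0 then 4 * k + 1 else 4 * k

/-- label encoding of the second configuration -/
def encY (B k : ℤ) : ℤ := if B ≤ k then 4 * k + 1 else 4 * k

theorem encX_prop (B : ℤ) : (∀ k k', k < k' → encX k < encX k') ∧
    (∀ k, 4 * k ≤ encX k ∧ encX k ≤ 4 * k + 1) ∧ (∀ k, 0 ≤ k → k < B → encX k = 4 * k) := by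
  refine ⟨fun k k' h => ?_, fun k => ?_, fun k h _ => ?_⟩ <;> unfold encX <;> split_ifs <;> omega

theorem encY_prop (B : ℤ) : (∀ k k', k < k' → encY B k < encY B k') ∧
    (∀ k, 4 * k ≤ encY B k ∧ encY B k ≤ 4 * k + 1) ∧
    (∀ k, 0 ≤ k → k < B → encY B k = 4 * k) := by
  refine ⟨fun k k' h => ?_, fun k => ?_, fun k h _ => ?_⟩ <;> unfold encY <;> split_ifs <;> omega

theorem enc_eq {B k k' : ℤ} (hB : 0 < B) (h : encX k = encY B k') : k = k' ∧ 0 ≤ k ∧ k < B := by
  unfold encX encY at h
  split_ifs at h <;> omega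

section
variable {X : Type} {r i o : X → ℤ} {a : X} {B : ℤ} {pos yp kin kout : X → ℤ} {enc : ℤ → ℤ}
  {cc : X → ℤ}

/-- strand elements, recognised from the merged labels -/
theorem Side.dg (S : Side r i o a B pos yp kin kout enc cc) {p : X}
    (h : r p ≤ r a → ((r a - r p + 1) * (4 * B) ≤ KO kout enc p ∨
      KO kout enc p ≤ -((r a - r p + 1) * (4 * B)) + 1)) :
    ¬ Seg r i o a p ∧ (0 ≤ kout p → kout p < B → ∃ g, Cut r i o a g ∧ kout p = pos g) := by
  have hB := S.hB
  have e1 := S.enc1 (kout p)
  have e : (r a - r p + 1) * (4 * B) = 4 * ((r a - r p) * B) + 4 * B := by ring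
  have e' : (r a - r p + 1) * B = (r a - r p) * B + B := by ring
  simp only [KO] at h
  rcases S.cls p with ⟨b1, b2, b3, b4, b5, b6⟩ | ⟨b1, b2, b3, b4, b5, b6, b7⟩ |
    ⟨b1, b2, b3, b4, b5, b6, b7, b8, b9⟩
  · exfalso
    have h := h b1.le
    have : B ≤ (r a - r p) * B := by nlinarith
    omega
  · exfalso
    have h := h b1.1.le
    have h0 : (r a - r p) * B = 0 := by rw [b1.1]; ring
    have := S.posr p (Or.inl b1)
    simp only [KO] at b3
    omega
  · refine ⟨b1, fun h1 h2 => ?_⟩
    by_cases hr : r p ≤ r a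
    · exfalso
      have := b7 hr
      have : 0 ≤ (r a - r p) * B := by nlinarith
      omega
    · rcases b8 (by omega) with h | h | h
      · omega
      · omega
      · exact h

/-- chain elements: range of the label -/
theorem Side.chn_big (S : Side r i o a B pos yp kin kout enc cc) {p : X} (h : r p < r a) :
    B ≤ kout p ∨ kout p ≤ -B := S.big h.le (fun h' => by have := h'.1; omega)

/-- segment elements, recognised from the merged labels -/
theorem Side.sg (S : Side r i o a B pos yp kin kout enc cc) {p : X}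
    (h1 : r p = r a) (h2 : KO kout enc p = 4 * pos p) (h3 : 0 ≤ pos p) (h4 : pos p < B) :
    Seg r i o a p := by
  by_contra hs
  have hB := S.hB
  have := S.big h1.le hs
  have e1 := S.enc1 (kout p)
  simp only [KO] at h2
  omega

theorem Side.kseg (S : Side r i o a B pos yp kin kout enc cc) {p : X} (h : Seg r i o a p) :
    KO kout enc p = 4 * pos p ∧ kout p = pos p := by
  rcases S.cls p with ⟨b1, b2, b3, b4, b5, b6⟩ | ⟨b1, b2, b3, b4, b5, b6, b7⟩ | ⟨b1, _⟩
  · have := h.1; omega
  · exact ⟨b3, b4⟩
  · exact absurd h b1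

theorem Side.cut (S : Side r i o a B pos yp kin kout enc cc) {p : X} (h : r p = r a + 1)
    (h1 : 0 ≤ KI r i o a yp kin enc cc p) (h2 : KI r i o a yp kin enc cc p < 4 * B) :
    Cut r i o a p ∧ KI r i o a yp kin enc cc p = 4 * pos p := by
  have hB := S.hB
  have e1 := S.enc1 (kout p)
  rcases S.cls p with ⟨b1, _⟩ | ⟨b1, _⟩ | ⟨b1, b2, b3, b4, b5, b6, b7, b8, b9⟩
  · omega
  · have := b1.1; omega
  · rw [b3] at h1 h2 ⊢
    simp only [KO] at h1 h2 ⊢
    rcases b9 h with ⟨c1, c2⟩ | ⟨c1, c2⟩
    · refine ⟨c1, ?_⟩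
      have := S.posr p (Or.inr c1)
      rw [c2]
      exact S.enc0 _ this.1 this.2
    · omega

/-- chain elements, recognised from the merged labels -/
theorem Side.chn (S : Side r i o a B pos yp kin kout enc cc) {p : X} (h : r p < r a)
    (h1 : KO kout enc p < (r a - r p + 1) * (4 * B)) (h2 : -((r a - r p + 1) * (4 * B)) + 1 < KO kout enc p) :
    kin p = 0 ∧ KI r i o a yp kin enc cc p = cc p := by
  have hB := S.hB
  have e1 := S.enc1 (kout p)
  have e : (r a - r p + 1) * (4 * B) = 4 * ((r a - r p) * B) + 4 * B := by ring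
  have e' : (r a - r p + 1) * B = (r a - r p) * B + B := by ring
  rcases S.cls p with ⟨b1, b2, b3, b4, b5, b6⟩ | ⟨b1, b2, b3, b4, b5, b6, b7⟩ |
    ⟨b1, b2, b3, b4, b5, b6, b7, b8, b9⟩
  · exact ⟨b2, b3⟩
  · have := b1.1; omega
  · exfalso
    have := b7 h.le
    simp only [KO] at h1 h2
    omega

/-- separating element of the chain -/
theorem Side.sep (S : Side r i o a B pos yp kin kout enc cc) {u : X} (h : r u < r a)
    (hk : kin u = 0) : ∃ c, r c = r u + 1 ∧ ∀ t, r t = r u →
      (KO kout enc t < 0 → o t < i c) ∧ (0 < KO kout enc t → i c < o t) := by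
  have hB := S.hB
  obtain ⟨c, hc, hc0⟩ := S.st.p8 u h hk
  refine ⟨c, hc, fun t ht => ?_⟩
  have e1 := S.enc1 (kout t)
  have hb := S.chn_big (p := t) (by omega)
  simp only [KO]
  rcases lt_trichotomy (o t) (i c) with h1 | h1 | h1
  · refine ⟨fun _ => h1, fun h2 => ?_⟩
    have := S.st.p3 t c (by omega) h1
    omega
  · exact absurd h1 (S.rk.ne t c (by omega))
  · refine ⟨fun h2 => ?_, fun _ => h1⟩
    have := S.st.p3' t c (by omega) h1
    omega

/-- if the label of a strand element is central, it is the label of a cutting element; hence it differs from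
the labels of the segment -/
theorem Side.sc (S : Side r i o a B pos yp kin kout enc cc) {z g : X} (hz : Seg r i o a z)
    (hg : Cut r i o a g) : pos z ≠ pos g := by
  have hr : r g = r z + 1 := by rw [hg.1, hz.1]
  rcases lt_trichotomy (o z) (i g) with h | h | h
  · exact (S.psg z g hz hg h).ne
  · exact absurd h (S.rk.ne z g hr)
  · exact (S.pgs z g hz hg h).ne'

end

section
variable {X Y : Type} {r i o : X → ℤ} {r' i' o' : Y → ℤ} {a : X} {a' : Y} {B : ℤ}
  {pos yp kin kout : X → ℤ} {pos' yp' kin' kout' : Y → ℤ}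

/-- the low elements of the chain segments of the second configuration -/
def Low (r' i' o' : Y → ℤ) (a' : Y) (kin' kout' : Y → ℤ) (q : Y) : Prop :=
  ∃ z g v, r' z = r' q ∧ r' v = r' q ∧ r' z < r' a' ∧ kin' z = 0 ∧ kin' v = 0 ∧
    r' g = r' q + 1 ∧ o' z < i' g ∧ i' g < o' v ∧ kout' v < 0 ∧ i' z < i' v ∧ i' q ≤ i' z

/-- code of the chain elements of the second configuration -/
noncomputable def ccY (r' i' o' : Y → ℤ) (a' : Y) (kin' kout' : Y → ℤ) (q : Y) : ℤ :=
  if Low r' i' o' a' kin' kout' q then 0 else 2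

theorem glue_Mg
    (S : Side r i o a B pos yp kin kout encX (fun _ => 1))
    (S' : Side r' i' o' a' B pos' yp' kin' kout' (encY B) (ccY r' i' o' a' kin' kout'))
    (hρ : r' a' = r a)
    (hpos : ∀ p q, (Seg r i o a p ∨ Cut r i o a p) → (Seg r' i' o' a' q ∨ Cut r' i' o' a' q) →
      pos p = pos' q → p = a ∧ q = a')
    (ht1 : ∀ p₁ p₂ p₃ p₄ : X ⊕ Y, Sum.elim (Seg r i o a) (Seg r' i' o' a') p₁ →
      Sum.elim (Seg r i o a) (Seg r' i' o' a') p₂ → Sum.elim (Seg r i o a) (Seg r' i' o' a') p₃ →
      Sum.elim (Seg r i o a) (Seg r' i' o' a') p₄ →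
      Sum.elim pos pos' p₁ < Sum.elim pos pos' p₂ → Sum.elim pos pos' p₂ < Sum.elim pos pos' p₃ →
      Sum.elim pos pos' p₃ < Sum.elim pos pos' p₄ → Sum.elim yp yp' p₂ < Sum.elim yp yp' p₄ →
      Sum.elim yp yp' p₄ < Sum.elim yp yp' p₁ → Sum.elim yp yp' p₁ < Sum.elim yp yp' p₃ → False)
    (ht2 : ∀ u v w p : X ⊕ Y, Sum.elim (Seg r i o a) (Seg r' i' o' a') u →
      Sum.elim (Seg r i o a) (Seg r' i' o' a') v → Sum.elim (Seg r i o a) (Seg r' i' o' a') w →
      Sum.elim (Cut r i o a) (Cut r' i' o' a') p →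
      Sum.elim pos pos' u < Sum.elim pos pos' p → Sum.elim pos pos' p < Sum.elim pos pos' v →
      Sum.elim pos pos' v < Sum.elim pos pos' w → Sum.elim yp yp' w < Sum.elim yp yp' u →
      Sum.elim yp yp' u < Sum.elim yp yp' v → False) :
    Mg (Sum.elim r r') (Sum.elim i i') (Sum.elim o o')
      (Sum.elim (KI r i o a yp kin encX (fun _ => 1))
        (KI r' i' o' a' yp' kin' (encY B) (ccY r' i' o' a' kin' kout')))
      (Sum.elim (KO kout encX) (KO kout' (encY B)))
      (Sum.elim (TI r i o a) (TI r' i' o' a')) (Sum.elim (TO r i o a) (TO r' i' o' a'))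
      (Sum.elim (fun _ => True) (fun _ => False)) (r a) B (Sum.elim pos pos') (Sum.elim yp yp')
      (Sum.elim (Cut r i o a) (Cut r' i' o' a')) := by
  have hB := S.hB
  have sgm : ∀ t : X ⊕ Y, Sgm (Sum.elim r r')
      (Sum.elim (KI r i o a yp kin encX (fun _ => 1))
        (KI r' i' o' a' yp' kin' (encY B) (ccY r' i' o' a' kin' kout')))
      (Sum.elim (KO kout encX) (KO kout' (encY B)))
      (Sum.elim (TI r i o a) (TI r' i' o' a')) (Sum.elim (TO r i o a) (TO r' i' o' a'))
      (r a) B (Sum.elim pos pos') (Sum.elim yp yp') t →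
      Sum.elim (Seg r i o a) (Seg r' i' o' a') t := by
    rintro (t | t) ⟨h1, h2, h3, h4, h5, h6, h7, h8, h9⟩ <;>
      simp only [Sum.elim_inl, Sum.elim_inr] at *
    · exact S.sg h1 h4 h6 h7
    · exact S'.sg (by omega) h4 h6 h7
  refine
    { hB := hB
      cls := ?_
      own := ?_
      sc := ?_
      cut := ?_
      t1 := fun p₁ p₂ p₃ p₄ h1 h2 h3 h4 =>
        ht1 p₁ p₂ p₃ p₄ (sgm _ h1) (sgm _ h2) (sgm _ h3) (sgm _ h4)
      t2 := fun u v w p h1 h2 h3 h4 => ht2 u v w p (sgm _ h1) (sgm _ h2) (sgm _ h3) h4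
      eO := ?_
      eI := ?_
      eOI := ?_
      eIO := ?_
      oo := ?_
      ii := ?_
      ne := ?_
      R := ?_
      F := ?_
      I := ?_
      g3 := ?_
      g4 := ?_
      g8 := ?_ }
  · -- cls
    rintro (t | t)
    · have e1 := S.enc1 (kout t)
      have e : (r a - r t + 1) * (4 * B) = 4 * ((r a - r t) * B) + 4 * B := by ring
      have e' : (r a - r t + 1) * B = (r a - r t) * B + B := by ring
      have e'' : (r a - r t) * (4 * B) = 4 * ((r a - r t) * B) := by ring
      rcases S.cls t with ⟨b1, b2, b3, b4, b5, b6⟩ | ⟨b1, b2, b3, b4, b5, b6, b7⟩ |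
        ⟨b1, b2, b3, b4, b5, b6, b7, b8, b9⟩
      · right; left
        have : B ≤ (r a - r t) * B := by nlinarith
        refine ⟨b1, b4, b5, Or.inl ⟨trivial, b3, ?_⟩⟩
        simp only [Sum.elim_inl, KO, e'']
        rcases b6 with b6 | b6
        · right; rw [b6]; unfold encX; rw [if_neg (by omega)]
        · left; rw [b6]; unfold encX; rw [if_pos (by omega)]; ring
      · right; right
        have h1 := S.posr t (Or.inl b1)
        have h2 := S.ypr t b1
        exact ⟨b1.1, b6, b7, b3, b2, h1.1, h1.2, h2.1, h2.2⟩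
      · left
        refine ⟨b3, b5, b6, fun h => ?_⟩
        have := b7 h
        simp only [Sum.elim_inl, KO] at h ⊢
        omega
    · have e1 := S'.enc1 (kout' t)
      have e : (r a - r' t + 1) * (4 * B) = 4 * ((r a - r' t) * B) + 4 * B := by ring
      have e' : (r a - r' t + 1) * B = (r a - r' t) * B + B := by ring
      have e'' : (r a - r' t) * (4 * B) = 4 * ((r a - r' t) * B) := by ring
      rcases S'.cls t with ⟨b1, b2, b3, b4, b5, b6⟩ | ⟨b1, b2, b3, b4, b5, b6, b7⟩ |
        ⟨b1, b2, b3, b4, b5, b6, b7, b8, b9⟩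
      · right; left
        rw [hρ] at b1 b6
        have : B ≤ (r a - r' t) * B := by nlinarith
        refine ⟨b1, b4, b5, Or.inr ⟨fun h => h, ?_⟩⟩
        simp only [Sum.elim_inr, KO, e'']
        rw [b3]
        by_cases hl : Low r' i' o' a' kin' kout' t
        · left
          refine ⟨by simp [ccY, hl], ?_⟩
          rcases b6 with b6 | b6
          · exfalso
            obtain ⟨z, g, v, h1, h2, h3, h4, h5, h6, h7, h8, h9, h10, h11⟩ := hl
            have hk : kout' v < kout' t := by omega
            have h12 : o' v < o' t := by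
              rcases lt_trichotomy (o' v) (o' t) with h | h | h
              · exact h
              · have := S'.rk.oo v t h2 h; subst this; omega
              · have := S'.st.p1 t v h2.symm h; omega
            have h13 : i' t < i' z := by
              rcases h11.lt_or_eq with h | h
              · exact h
              · have := S'.rk.ii t z h1.symm h; subst this; omega
            exact S'.rk.F z v t g (by omega) (by omega) (by omega) h7 h8 h12 h13 h10
          · rw [b6]; unfold encY; rw [if_neg (by omega)]; ring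
        · right
          refine ⟨by simp [ccY, hl], ?_⟩
          rcases b6 with b6 | b6
          · right; rw [b6]; unfold encY; rw [if_pos (by omega)]
          · left; rw [b6]; unfold encY; rw [if_neg (by omega)]; ring
      · right; right
        have h1 := S'.posr t (Or.inl b1)
        have h2 := S'.ypr t b1
        exact ⟨by have := b1.1; simp only [Sum.elim_inr]; omega, b6, b7, b3, b2, h1.1, h1.2, h2.1,
          h2.2⟩
      · left
        refine ⟨b3, b5, b6, fun h => ?_⟩
        simp only [Sum.elim_inr, KO] at h ⊢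
        have := b7 (by omega)
        rw [hρ] at this
        omega
  · -- own
    have key : ∀ p q, (r p ≤ r a → ((r a - r p + 1) * (4 * B) ≤ KO kout encX p ∨
        KO kout encX p ≤ -((r a - r p + 1) * (4 * B)) + 1)) →
        ((r' q ≤ r' a' → ((r' a' - r' q + 1) * (4 * B) ≤ KO kout' (encY B) q ∨
        KO kout' (encY B) q ≤ -((r' a' - r' q + 1) * (4 * B)) + 1)) ∨ r' q < r' a') →
        KO kout encX p = KO kout' (encY B) q → False := by
      intro p q h1 h2 h3
      obtain ⟨h4, h5, h6⟩ := enc_eq hB h3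
      obtain ⟨g, hg, hg'⟩ := (S.dg h1).2 h5 h6
      rcases h2 with h2 | h2
      · obtain ⟨g', hg1, hg2⟩ := (S'.dg h2).2 (by omega) (by omega)
        have := hpos g g' (Or.inr hg) (Or.inr hg1) (by omega)
        have h7 := hg.1
        rw [this.1] at h7
        omega
      · have := S'.chn_big h2
        omega
    rintro (s | s) (t | t) hs ht hk
    · simp
    · exfalso
      refine key s t hs.2.2.2 ?_ hk
      rcases ht with ht | ht
      · left; have := ht.2.2.2; simp only [Sum.elim_inr] at this; rw [hρ]; exact this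
      · right; have := ht.1; simp only [Sum.elim_inr] at this; omega
    · exfalso
      rcases ht with ht | ht
      · refine key t s ht.2.2.2 ?_ hk.symm
        left; have := hs.2.2.2; simp only [Sum.elim_inr] at this; rw [hρ]; exact this
      · have h1 := ht.1
        simp only [Sum.elim_inl] at h1
        have h2 := S.chn_big h1
        obtain ⟨h4, h5, h6⟩ := enc_eq hB hk.symm
        omega
    · simp
  · -- sc
    intro z p hz hp hk
    have hz' := sgm z hz
    -- the label of `p` is that of a cutting element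
    have hcut : ∀ p : X ⊕ Y, Dg (Sum.elim r r') (Sum.elim i i') (Sum.elim o o')
        (Sum.elim (KI r i o a yp kin encX (fun _ => 1))
          (KI r' i' o' a' yp' kin' (encY B) (ccY r' i' o' a' kin' kout')))
        (Sum.elim (KO kout encX) (KO kout' (encY B)))
        (Sum.elim (TI r i o a) (TI r' i' o' a')) (Sum.elim (TO r i o a) (TO r' i' o' a'))
        (r a) B p → 0 ≤ Sum.elim (KO kout encX) (KO kout' (encY B)) p →
        Sum.elim (KO kout encX) (KO kout' (encY B)) p < 4 * B →
        ∃ g, Sum.elim (Cut r i o a) (Cut r' i' o' a') g ∧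
          Sum.elim (KO kout encX) (KO kout' (encY B)) p = 4 * Sum.elim pos pos' g := by
      rintro (p | p) hp h0 h1 <;> simp only [Sum.elim_inl, Sum.elim_inr, KO] at h0 h1 ⊢
      · have e1 := S.enc1 (kout p)
        obtain ⟨g, h2, h3⟩ := (S.dg hp.2.2.2).2 (by omega) (by omega)
        refine ⟨Sum.inl g, h2, ?_⟩
        rw [Sum.elim_inl, ← h3]; exact S.enc0 _ (by omega) (by omega)
      · have e1 := S'.enc1 (kout' p)
        have hd := hp.2.2.2
        simp only [Sum.elim_inr] at hd
        rw [← hρ] at hd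
        obtain ⟨g, h2, h3⟩ := (S'.dg hd).2 (by omega) (by omega)
        refine ⟨Sum.inr g, h2, ?_⟩
        rw [Sum.elim_inr, ← h3]; exact S'.enc0 _ (by omega) (by omega)
    obtain ⟨_, _, _, q4, _, q6, q7, _⟩ := hz
    obtain ⟨g, hg, hg'⟩ := hcut p hp (by omega) (by omega)
    have hpg : Sum.elim pos pos' z = Sum.elim pos pos' g := by omega
    rcases z with z | z <;> rcases g with g | g <;>
      simp only [Sum.elim_inl, Sum.elim_inr] at hz' hg hpg
    · exact S.sc hz' hg hpg
    · have := (hpos z g (Or.inl hz') (Or.inr hg) hpg).2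
      have h7 := hg.1
      rw [this] at h7; omega
    · have := (hpos g z (Or.inr hg) (Or.inl hz') hpg.symm).1
      have h7 := hg.1
      rw [this] at h7; omega
    · exact S'.sc hz' hg hpg
  · -- cut
    rintro (p | p) h1 h2 h3 <;> simp only [Sum.elim_inl, Sum.elim_inr] at *
    · exact S.cut h1 h2 h3
    · exact S'.cut (by omega) h2 h3
  · -- eO
    rintro (s | s) (t | t) h h1 h2 <;> simp only [Sum.elim_inl, Sum.elim_inr] at *
    · exact S.eO h1 h2
    · simp at h
    · simp at h
    · exact S'.eO h1 h2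
  · rintro (s | s) (t | t) h h1 h2 <;> simp only [Sum.elim_inl, Sum.elim_inr] at *
    · exact S.eI h1 h2
    · simp at h
    · simp at h
    · exact S'.eI h1 h2
  · rintro (s | s) (t | t) h h1 h2 <;> simp only [Sum.elim_inl, Sum.elim_inr] at *
    · exact S.eOI h1 h2
    · simp at h
    · simp at h
    · exact S'.eOI h1 h2
  · rintro (s | s) (t | t) h h1 h2 <;> simp only [Sum.elim_inl, Sum.elim_inr] at *
    · exact S.eIO h1 h2
    · simp at h
    · simp at h
    · exact S'.eIO h1 h2
  · rintro (s | s) (t | t) h h1 h2 <;> simp only [Sum.elim_inl, Sum.elim_inr] at *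
    · rw [S.rk.oo s t h1 h2]
    · simp at h
    · simp at h
    · rw [S'.rk.oo s t h1 h2]
  · rintro (s | s) (t | t) h h1 h2 <;> simp only [Sum.elim_inl, Sum.elim_inr] at *
    · rw [S.rk.ii s t h1 h2]
    · simp at h
    · simp at h
    · rw [S'.rk.ii s t h1 h2]
  · rintro (s | s) (t | t) h h1 <;> simp only [Sum.elim_inl, Sum.elim_inr] at *
    · exact S.rk.ne s t h1
    · simp at h
    · simp at h
    · exact S'.rk.ne s t h1
  · rintro (z | z) (p | p) (q | q) h h' <;> simp only [Sum.elim_inl, Sum.elim_inr] at * <;>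
      first
        | exact S.rk.R z p q
        | exact S'.rk.R z p q
        | (simp at h)
        | (simp at h')
  · rintro (u | u) (v | v) (w | w) (p | p) h h' h'' <;>
      simp only [Sum.elim_inl, Sum.elim_inr] at * <;>
      first
        | exact S.rk.F u v w p
        | exact S'.rk.F u v w p
        | (simp at h)
        | (simp at h')
        | (simp at h'')
  · rintro (u | u) (v | v) (w | w) (p | p) h h' h'' <;>
      simp only [Sum.elim_inl, Sum.elim_inr] at * <;>
      first
        | exact S.rk.I u v w p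
        | exact S'.rk.I u v w p
        | (simp at h)
        | (simp at h')
        | (simp at h'')
  · -- g3
    have hY : ∀ t : Y, Chn (Sum.elim r r') (Sum.elim i i') (Sum.elim o o')
        (Sum.elim (KI r i o a yp kin encX (fun _ => 1))
          (KI r' i' o' a' yp' kin' (encY B) (ccY r' i' o' a' kin' kout')))
        (Sum.elim (KO kout encX) (KO kout' (encY B)))
        (Sum.elim (TI r i o a) (TI r' i' o' a')) (Sum.elim (TO r i o a) (TO r' i' o' a'))
        (Sum.elim (fun _ => True) (fun _ => False)) (r a) B (Sum.inr t) →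
        r' t < r' a' ∧ kin' t = 0 ∧ KI r' i' o' a' yp' kin' (encY B) (ccY r' i' o' a' kin' kout') t =
          ccY r' i' o' a' kin' kout' t := by
      intro t ht
      have h1 := ht.1
      simp only [Sum.elim_inr] at h1
      have h2 := range_nd (pos := Sum.elim pos pos') (ypos := Sum.elim yp yp') hB (Or.inl ht)
      simp only [Sum.elim_inr] at h2
      have h3 := S'.chn (p := t) (by omega) (by rw [hρ]; exact h2.2.2.2.1)
        (by rw [hρ]; exact h2.2.2.2.2)
      exact ⟨by omega, h3⟩
    rintro (p₁ | p₁) (p₂ | p₂) (p₃ | p₃) c1 c2 c3 w1 w2 w3 h2 h3 k3 h4 h5 h6 h7 k2 k1 <;>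
      simp only [Sum.elim_inl, Sum.elim_inr] at * <;> try (exact absurd trivial (by assumption))
    obtain ⟨r1, i1, e1⟩ := hY p₁ c1
    obtain ⟨r2, i2, e2⟩ := hY p₂ c2
    obtain ⟨r3, i3, e3⟩ := hY p₃ c3
    have q3 : kout' p₃ < 0 := by
      have := S'.enc1 (kout' p₃)
      simp only [KO] at k3; omega
    have L2 : Low r' i' o' a' kin' kout' p₂ := by
      by_contra hl
      rw [e2, ccY, if_neg hl] at k2; omega
    have L1 : ¬ Low r' i' o' a' kin' kout' p₁ := by
      intro hl
      rw [e1, ccY, if_pos hl] at k1; omega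
    obtain ⟨z, g, v, z1, z2, z3, z4, z5, z6, z7, z8, z9, z10, z11⟩ := L2
    have hz : i' z < i' p₁ := by
      by_contra hz
      exact L1 ⟨z, g, v, by omega, by omega, z3, z4, z5, by omega, z7, z8, z9, z10, by omega⟩
    rcases lt_trichotomy (o' p₁) (i' g) with hg | hg | hg
    · rcases lt_trichotomy (o' p₃) (i' g) with hg3 | hg3 | hg3
      · rcases lt_trichotomy (i' v) (i' p₁) with hv | hv | hv
        · exact S'.rk.I p₁ p₂ p₃ v h2 h3 (by omega) h4 h5 (by omega) (by omega) hv h7
        · have := S'.rk.ii v p₁ (by omega) hv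
          subst this; omega
        · exact L1 ⟨p₁, g, v, rfl, by omega, r1, i1, z5, by omega, hg, z8, z9, hv, le_refl _⟩
      · exact S'.rk.ne p₃ g (by omega) hg3
      · exact L1 ⟨p₁, g, p₃, rfl, by omega, r1, i1, i3, by omega, hg, hg3, q3, h7, le_refl _⟩
    · exact S'.rk.ne p₁ g (by omega) hg
    · have hz2 : i' p₂ < i' z := by
        rcases z11.lt_or_eq with h | h
        · exact h
        · have := S'.rk.ii p₂ z z1.symm h
          subst this; omega
      exact S'.rk.F z p₁ p₂ g (by omega) (by omega) (by omega) z7 hg h4 hz2 hz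
  · -- g4
    rintro (u | u) (v | v) (p | p) c1 c2 w1 w2 w3 h1 h2 h3 h4 k3 h5 k1 <;>
      simp only [Sum.elim_inl, Sum.elim_inr] at * <;> try (exact absurd trivial (by assumption))
    have hY : ∀ t : Y, Chn (Sum.elim r r') (Sum.elim i i') (Sum.elim o o')
        (Sum.elim (KI r i o a yp kin encX (fun _ => 1))
          (KI r' i' o' a' yp' kin' (encY B) (ccY r' i' o' a' kin' kout')))
        (Sum.elim (KO kout encX) (KO kout' (encY B)))
        (Sum.elim (TI r i o a) (TI r' i' o' a')) (Sum.elim (TO r i o a) (TO r' i' o' a'))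
        (Sum.elim (fun _ => True) (fun _ => False)) (r a) B (Sum.inr t) →
        r' t < r' a' ∧ kin' t = 0 ∧ KI r' i' o' a' yp' kin' (encY B) (ccY r' i' o' a' kin' kout') t =
          ccY r' i' o' a' kin' kout' t := by
      intro t ht
      have h1 := ht.1
      simp only [Sum.elim_inr] at h1
      have h2 := range_nd (pos := Sum.elim pos pos') (ypos := Sum.elim yp yp') hB (Or.inl ht)
      simp only [Sum.elim_inr] at h2
      have h3 := S'.chn (p := t) (by omega) (by rw [hρ]; exact h2.2.2.2.1)
        (by rw [hρ]; exact h2.2.2.2.2)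
      exact ⟨by omega, h3⟩
    obtain ⟨r1, i1, e1⟩ := hY u c1
    obtain ⟨r2, i2, e2⟩ := hY v c2
    have q3 : kout' v < 0 := by
      have := S'.enc1 (kout' v)
      simp only [KO] at k3; omega
    have L1 : Low r' i' o' a' kin' kout' u :=
      ⟨u, p, v, rfl, h1, r1, i1, i2, h2, h3, h4, q3, h5, le_refl _⟩
    rw [e1, ccY, if_pos L1] at k1
    omega
  · -- g8
    rintro (u | u) cu
    · have h1 := cu.1
      simp only [Sum.elim_inl] at h1
      have h2 := range_nd (pos := Sum.elim pos pos') (ypos := Sum.elim yp yp') hB (Or.inl cu)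
      simp only [Sum.elim_inl] at h2
      have h3 := S.chn (p := u) h1 h2.2.2.2.1 h2.2.2.2.2
      obtain ⟨c, hc, hc'⟩ := S.sep h1 h3.1
      refine ⟨Sum.inl c, by simp, hc, ?_⟩
      rintro (t | t) ct hw hr
      · exact hc' t hr
      · simp at hw
    · have h1 := cu.1
      simp only [Sum.elim_inr] at h1
      have h2 := range_nd (pos := Sum.elim pos pos') (ypos := Sum.elim yp yp') hB (Or.inl cu)
      simp only [Sum.elim_inr] at h2
      have h3 := S'.chn (p := u) (by omega) (by rw [hρ]; exact h2.2.2.2.1)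
        (by rw [hρ]; exact h2.2.2.2.2)
      obtain ⟨c, hc, hc'⟩ := S'.sep (by omega) h3.1
      refine ⟨Sum.inr c, by simp, hc, ?_⟩
      rintro (t | t) ct hw hr
      · simp at hw
      · exact hc' t hr

end

end Pool.Agent.J4H41.AM
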