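import Pool.Agent.J4H41.AM.Defs

/-!
# The merging theorem: local conditions for the merged labels
-/

namespace Pool.Agent.J4H41.AM

/-- lexicographic comparison of pairs -/
def Lx (a b c d : ℤ) : Prop := a < c ∨ (a = c ∧ b < d)

section
variable {T : Type} (r i o Kin Kout tI tO : T → ℤ) (ow : T → Prop) (ρ B : ℤ) (pos ypos : T → ℤ)

/-- strand elements -/
def Dg (t : T) : Prop :=
  Kin t = Kout t ∧ tI t = i t ∧ tO t = o t ∧
    (r t ≤ ρ → ((ρ - r t + 1) * (4 * B) ≤ Kout t ∨ Kout t ≤ -((ρ - r t + 1) * (4 * B)) + 1))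

/-- chain elements -/
def Chn (t : T) : Prop :=
  r t < ρ ∧ tI t = i t ∧ tO t = o t ∧
    ((ow t ∧ Kin t = 1 ∧ (Kout t = -((ρ - r t) * (4 * B)) + 1 ∨ Kout t = (ρ - r t) * (4 * B))) ∨
     (¬ ow t ∧ ((Kin t = 0 ∧ Kout t = -((ρ - r t) * (4 * B))) ∨
       (Kin t = 2 ∧ (Kout t = -((ρ - r t) * (4 * B)) ∨ Kout t = (ρ - r t) * (4 * B) + 1)))))

/-- elements of the segment of the marked point -/
def Sgm (t : T) : Prop :=
  r t = ρ ∧ tI t = 0 ∧ tO t = 0 ∧ Kout t = 4 * pos t ∧ Kin t = ypos t ∧ 0 ≤ pos t ∧ pos t < B ∧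
    0 ≤ ypos t ∧ ypos t < B

/-- abstract merged data -/
structure Mg (Ct : T → Prop) : Prop where
  hB : 0 < B
  cls : ∀ t, Dg r i o Kin Kout tI tO ρ B t ∨ Chn r i o Kin Kout tI tO ow ρ B t ∨
    Sgm r Kin Kout tI tO ρ B pos ypos t
  own : ∀ s t, Dg r i o Kin Kout tI tO ρ B s →
    (Dg r i o Kin Kout tI tO ρ B t ∨ Chn r i o Kin Kout tI tO ow ρ B t) → Kout s = Kout t →
    (ow s ↔ ow t)
  sc : ∀ z p, Sgm r Kin Kout tI tO ρ B pos ypos z → Dg r i o Kin Kout tI tO ρ B p → Kout z ≠ Kout p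
  cut : ∀ p, r p = ρ + 1 → 0 ≤ Kin p → Kin p < 4 * B → Ct p ∧ Kin p = 4 * pos p
  t1 : ∀ p₁ p₂ p₃ p₄, Sgm r Kin Kout tI tO ρ B pos ypos p₁ → Sgm r Kin Kout tI tO ρ B pos ypos p₂ →
    Sgm r Kin Kout tI tO ρ B pos ypos p₃ → Sgm r Kin Kout tI tO ρ B pos ypos p₄ →
    pos p₁ < pos p₂ → pos p₂ < pos p₃ → pos p₃ < pos p₄ →
    ypos p₂ < ypos p₄ → ypos p₄ < ypos p₁ → ypos p₁ < ypos p₃ → False
  t2 : ∀ u v w p, Sgm r Kin Kout tI tO ρ B pos ypos u → Sgm r Kin Kout tI tO ρ B pos ypos v →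
    Sgm r Kin Kout tI tO ρ B pos ypos w → Ct p → pos u < pos p → pos p < pos v → pos v < pos w →
    ypos w < ypos u → ypos u < ypos v → False
  eO : ∀ s t, (ow s ↔ ow t) → r s = r t → o s < o t → Lx (Kout s) (tO s) (Kout t) (tO t)
  eI : ∀ s t, (ow s ↔ ow t) → r s = r t → i s < i t → Lx (Kin s) (tI s) (Kin t) (tI t)
  eOI : ∀ z p, (ow z ↔ ow p) → r p = r z + 1 → o z < i p → Lx (Kout z) (tO z) (Kin p) (tI p)
  eIO : ∀ z p, (ow z ↔ ow p) → r p = r z + 1 → i p < o z → Lx (Kin p) (tI p) (Kout z) (tO z)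
  oo : ∀ p p', (ow p ↔ ow p') → r p = r p' → o p = o p' → p = p'
  ii : ∀ p p', (ow p ↔ ow p') → r p = r p' → i p = i p' → p = p'
  ne : ∀ z p, (ow z ↔ ow p) → r p = r z + 1 → o z ≠ i p
  R : ∀ z p₁ p₂, (ow z ↔ ow p₁) → (ow z ↔ ow p₂) → r p₁ = r z + 1 → r p₂ = r z + 1 →
    i p₁ < o z → o z < i p₂ → o p₁ < o p₂
  F : ∀ u v w p, (ow u ↔ ow v) → (ow u ↔ ow w) → (ow u ↔ ow p) → r v = r u → r w = r u →
    r p = r u + 1 → o u < i p → i p < o v → o v < o w → i w < i u → i u < i v → False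
  I : ∀ p₁ p₂ p₃ p₄, (ow p₁ ↔ ow p₂) → (ow p₁ ↔ ow p₃) → (ow p₁ ↔ ow p₄) →
    r p₂ = r p₁ → r p₃ = r p₁ → r p₄ = r p₁ →
    o p₁ < o p₂ → o p₂ < o p₃ → o p₃ < o p₄ → i p₂ < i p₄ → i p₄ < i p₁ → i p₁ < i p₃ → False
  g3 : ∀ p₁ p₂ p₃, Chn r i o Kin Kout tI tO ow ρ B p₁ → Chn r i o Kin Kout tI tO ow ρ B p₂ →
    Chn r i o Kin Kout tI tO ow ρ B p₃ → ¬ ow p₁ → ¬ ow p₂ → ¬ ow p₃ → r p₂ = r p₁ → r p₃ = r p₁ →
    Kout p₃ < 0 → o p₁ < o p₂ → o p₂ < o p₃ → i p₂ < i p₁ → i p₁ < i p₃ → Kin p₂ = 0 →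
    Kin p₁ = 2 → False
  g4 : ∀ u v p, Chn r i o Kin Kout tI tO ow ρ B u → Chn r i o Kin Kout tI tO ow ρ B v →
    ¬ ow u → ¬ ow v → ¬ ow p → r v = r u → r p = r u + 1 → o u < i p → i p < o v → Kout v < 0 →
    i u < i v → Kin u = 2 → False
  g8 : ∀ u, Chn r i o Kin Kout tI tO ow ρ B u → ∃ c, (ow c ↔ ow u) ∧ r c = r u + 1 ∧
    ∀ t, Chn r i o Kin Kout tI tO ow ρ B t → (ow t ↔ ow u) → r t = r u →
      (Kout t < 0 → o t < i c) ∧ (0 < Kout t → i c < o t)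

variable {r i o Kin Kout tI tO ow ρ B pos ypos} {Ct : T → Prop}

theorem Lx.le {a b c d : ℤ} (h : Lx a b c d) : a ≤ c := by
  rcases h with h | h
  · exact h.le
  · exact h.1.le

theorem Lx.asymm {a b c d : ℤ} (h : Lx a b c d) (h' : Lx c d a b) : False := by
  rcases h with h | h <;> rcases h' with h' | h' <;> omega

/-- converse of `eO` -/
theorem Mg.mO (M : Mg r i o Kin Kout tI tO ow ρ B pos ypos Ct) {s t : T} (h : ow s ↔ ow t)
    (hr : r s = r t) (hl : Lx (Kout s) (tO s) (Kout t) (tO t)) : o s < o t := by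
  rcases lt_trichotomy (o s) (o t) with h1 | h1 | h1
  · exact h1
  · have := M.oo s t h hr h1
    subst this
    exact (hl.asymm hl).elim
  · exact (hl.asymm (M.eO t s h.symm hr.symm h1)).elim

theorem Mg.mI (M : Mg r i o Kin Kout tI tO ow ρ B pos ypos Ct) {s t : T} (h : ow s ↔ ow t)
    (hr : r s = r t) (hl : Lx (Kin s) (tI s) (Kin t) (tI t)) : i s < i t := by
  rcases lt_trichotomy (i s) (i t) with h1 | h1 | h1
  · exact h1
  · have := M.ii s t h hr h1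
    subst this
    exact (hl.asymm hl).elim
  · exact (hl.asymm (M.eI t s h.symm hr.symm h1)).elim

theorem Mg.mOI (M : Mg r i o Kin Kout tI tO ow ρ B pos ypos Ct) {z p : T} (h : ow z ↔ ow p)
    (hr : r p = r z + 1) (hl : Lx (Kout z) (tO z) (Kin p) (tI p)) : o z < i p := by
  rcases lt_trichotomy (o z) (i p) with h1 | h1 | h1
  · exact h1
  · exact (M.ne z p h hr h1).elim
  · exact (hl.asymm (M.eIO z p h hr h1)).elim

theorem Mg.mIO (M : Mg r i o Kin Kout tI tO ow ρ B pos ypos Ct) {z p : T} (h : ow z ↔ ow p)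
    (hr : r p = r z + 1) (hl : Lx (Kin p) (tI p) (Kout z) (tO z)) : i p < o z := by
  rcases lt_trichotomy (i p) (o z) with h1 | h1 | h1
  · exact h1
  · exact (M.ne z p h hr h1.symm).elim
  · exact (hl.asymm (M.eOI z p h hr h1)).elim

/-- numeric range of the label of an element of rank `≤ ρ` (not on a strand) -/
theorem range_nd (hB : 0 < B) {t : T} (h : Chn r i o Kin Kout tI tO ow ρ B t ∨
    Sgm r Kin Kout tI tO ρ B pos ypos t) :
    r t ≤ ρ ∧ 0 ≤ Kin t ∧ Kin t < 4 * B ∧ Kout t < (ρ - r t + 1) * (4 * B) ∧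
      -((ρ - r t + 1) * (4 * B)) + 1 < Kout t := by
  have e : (ρ - r t + 1) * (4 * B) = (ρ - r t) * (4 * B) + 4 * B := by ring
  rw [e]
  rcases h with ⟨h1, _, _, h⟩ | ⟨h1, _, _, h4, h5, h6, h7, h8, h9⟩
  · have : 4 * B ≤ (ρ - r t) * (4 * B) := by nlinarith
    rcases h with ⟨_, h2, h3⟩ | ⟨_, h⟩ <;> omega
  · have : (ρ - r t) * (4 * B) = 0 := by rw [h1]; ring
    omega

/-- labels `kout` of elements of rank `< ρ` are not central -/
theorem range_out (M : Mg r i o Kin Kout tI tO ow ρ B pos ypos Ct) {t : T} (h : r t < ρ) :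
    (ρ - r t) * (4 * B) ≤ Kout t ∨ Kout t ≤ -((ρ - r t) * (4 * B)) + 1 := by
  have hB := M.hB
  have e : (ρ - r t + 1) * (4 * B) = (ρ - r t) * (4 * B) + 4 * B := by ring
  have : 4 * B ≤ (ρ - r t) * (4 * B) := by nlinarith
  rcases M.cls t with ⟨_, _, _, h1⟩ | ⟨h1, _, _, h⟩ | ⟨h1, _⟩
  · have := h1 h.le
    omega
  · rcases h with ⟨_, h2, h3⟩ | ⟨_, h⟩ <;> omega
  · omega

theorem merge_R (M : Mg r i o Kin Kout tI tO ow ρ B pos ypos Ct) (z p₁ p₂ : T)
    (h1 : r p₁ = r z + 1) (h2 : r p₂ = r z + 1) (l1 : Lx (Kin p₁) (tI p₁) (Kout z) (tO z))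
    (l2 : Lx (Kout z) (tO z) (Kin p₂) (tI p₂)) : Lx (Kout p₁) (tO p₁) (Kout p₂) (tO p₂) := by
  have hB := M.hB
  have k1 := l1.le
  have k2 := l2.le
  by_cases hs : (ow z ↔ ow p₁) ∧ (ow z ↔ ow p₂)
  · exact M.eO _ _ (hs.1.symm.trans hs.2) (by omega)
      (M.R z p₁ p₂ hs.1 hs.2 h1 h2 (M.mIO hs.1 h1 l1) (M.mOI hs.2 h2 l2))
  -- ranges
  have e1 : (ρ - r p₁ + 1) * (4 * B) = (ρ - r z) * (4 * B) := by rw [h1]; ring
  have e2 : (ρ - r p₂ + 1) * (4 * B) = (ρ - r z) * (4 * B) := by rw [h2]; ring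
  have aux : ∀ q, (Chn r i o Kin Kout tI tO ow ρ B q ∨ Sgm r Kin Kout tI tO ρ B pos ypos q) →
      r q = r z + 1 → 0 ≤ Kin q ∧ Kin q < 4 * B ∧ Kout q < (ρ - r z) * (4 * B) ∧
        -((ρ - r z) * (4 * B)) + 1 < Kout q ∧ 4 * B ≤ (ρ - r z) * (4 * B) ∧
        ((ρ - r z) * (4 * B) ≤ Kout z ∨ Kout z ≤ -((ρ - r z) * (4 * B)) + 1) := by
    intro q hq hr
    have e : (ρ - r q + 1) * (4 * B) = (ρ - r z) * (4 * B) := by rw [hr]; ring
    obtain ⟨a1, a2, a3, a4, a5⟩ := range_nd hB hq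
    rw [e] at a4 a5
    have hz : r z < ρ := by omega
    exact ⟨a2, a3, a4, a5, by nlinarith, range_out M hz⟩
  rcases M.cls p₁ with d1 | n1
  · rcases M.cls p₂ with d2 | n2
    · by_cases hlt : Kin p₁ < Kin p₂
      · left
        rw [← d1.1, ← d2.1]; exact hlt
      · exfalso
        have q1 : Kout p₁ = Kout z := by rw [← d1.1]; omega
        have q2 : Kout p₂ = Kout z := by rw [← d2.1]; omega
        rcases M.cls z with dz | cz | sz
        · exact hs ⟨(M.own p₁ z d1 (Or.inl dz) q1).symm, (M.own p₂ z d2 (Or.inl dz) q2).symm⟩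
        · exact hs ⟨(M.own p₁ z d1 (Or.inr cz) q1).symm, (M.own p₂ z d2 (Or.inr cz) q2).symm⟩
        · exact M.sc z p₁ sz d1 q1.symm
    · obtain ⟨a2, a3, a4, a5, a6, a7⟩ := aux p₂ n2 h2
      left
      have := d1.1
      omega
  · obtain ⟨a2, a3, a4, a5, a6, a7⟩ := aux p₁ n1 h1
    rcases M.cls p₂ with d2 | n2
    · left
      have := d2.1
      omega
    · exfalso
      obtain ⟨b2, b3, b4, b5, b6, b7⟩ := aux p₂ n2 h2
      omega

/-- trichotomy of types used in `merge_F`, `merge_I` -/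
theorem typ (M : Mg r i o Kin Kout tI tO ow ρ B pos ypos Ct) (t u : T) (h : r t = r u) :
    (Dg r i o Kin Kout tI tO ρ B t ∧ Kin t = Kout t ∧
      (r u ≤ ρ → ((ρ - r u + 1) * (4 * B) ≤ Kout t ∨ Kout t ≤ -((ρ - r u + 1) * (4 * B)) + 1))) ∨
    ((Chn r i o Kin Kout tI tO ow ρ B t ∨ Sgm r Kin Kout tI tO ρ B pos ypos t) ∧
      r u ≤ ρ ∧ 0 ≤ Kin t ∧ Kin t < 4 * B ∧ Kout t < (ρ - r u + 1) * (4 * B) ∧
      -((ρ - r u + 1) * (4 * B)) + 1 < Kout t) := by
  rcases M.cls t with d | n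
  · left
    refine ⟨d, d.1, ?_⟩
    have := d.2.2.2
    rw [h] at this
    exact this
  · right
    refine ⟨n, ?_⟩
    have := range_nd M.hB n
    rw [h] at this
    exact this

/-- an element of rank `r u + 1` whose in-label equals the out-label of a non-central element `u` lies on a
strand -/
theorem dg_of_eq (M : Mg r i o Kin Kout tI tO ow ρ B pos ypos Ct) {u p : T} (h : r p = r u + 1)
    (hk : Kin p = Kout u) : Dg r i o Kin Kout tI tO ρ B p := by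
  rcases M.cls p with d | n
  · exact d
  · exfalso
    obtain ⟨a1, a2, a3, _, _⟩ := range_nd M.hB n
    have hz : r u < ρ := by omega
    have := range_out M hz
    have hB := M.hB
    have : 4 * B ≤ (ρ - r u) * (4 * B) := by nlinarith
    omega

theorem chn_of (M : Mg r i o Kin Kout tI tO ow ρ B pos ypos Ct) {t : T} (h : r t < ρ)
    (n : Chn r i o Kin Kout tI tO ow ρ B t ∨ Sgm r Kin Kout tI tO ρ B pos ypos t) :
    Chn r i o Kin Kout tI tO ow ρ B t := by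
  rcases n with n | n
  · exact n
  · exact absurd n.1 (by omega)

theorem sgm_of (M : Mg r i o Kin Kout tI tO ow ρ B pos ypos Ct) {t : T} (h : r t = ρ)
    (n : Chn r i o Kin Kout tI tO ow ρ B t ∨ Sgm r Kin Kout tI tO ρ B pos ypos t) :
    Sgm r Kin Kout tI tO ρ B pos ypos t := by
  rcases n with n | n
  · exact absurd n.1 (by omega)
  · exact n

/-- the codes of chain elements -/
theorem code {t u : T} (h : r t = r u) (c : Chn r i o Kin Kout tI tO ow ρ B t) :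
    (ow t ∧ Kin t = 1 ∧ (Kout t = -((ρ - r u) * (4 * B)) + 1 ∨ Kout t = (ρ - r u) * (4 * B))) ∨
     (¬ ow t ∧ ((Kin t = 0 ∧ Kout t = -((ρ - r u) * (4 * B))) ∨
       (Kin t = 2 ∧ (Kout t = -((ρ - r u) * (4 * B)) ∨ Kout t = (ρ - r u) * (4 * B) + 1)))) := by
  have := c.2.2.2
  rw [h] at this
  exact this

theorem merge_F (M : Mg r i o Kin Kout tI tO ow ρ B pos ypos Ct) (u v w p : T)
    (h1 : r v = r u) (h2 : r w = r u) (h3 : r p = r u + 1) (l1 : Lx (Kout u) (tO u) (Kin p) (tI p))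
    (l2 : Lx (Kin p) (tI p) (Kout v) (tO v)) (l3 : Lx (Kout v) (tO v) (Kout w) (tO w))
    (l4 : Lx (Kin w) (tI w) (Kin u) (tI u)) (l5 : Lx (Kin u) (tI u) (Kin v) (tI v)) : False := by
  have hB := M.hB
  have k1 := l1.le
  have k2 := l2.le
  have k3 := l3.le
  have k4 := l4.le
  have k5 := l5.le
  by_cases hs : (ow u ↔ ow v) ∧ (ow u ↔ ow w) ∧ (ow u ↔ ow p)
  · obtain ⟨s1, s2, s3⟩ := hs
    exact M.F u v w p s1 s2 s3 h1 h2 h3 (M.mOI s3 h3 l1)
      (M.mIO (s1.symm.trans s3) (by omega) l2) (M.mO (s1.symm.trans s2) (by omega) l3)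
      (M.mI s2.symm (by omega) l4) (M.mI s1 (by omega) l5)
  have hE : r u ≤ ρ → 4 * B ≤ (ρ - r u + 1) * (4 * B) := by
    intro h; nlinarith
  rcases typ M u u rfl with ⟨du, du1, du2⟩ | ⟨nu, nu0, nu1, nu2, nu3, nu4⟩ <;>
  rcases typ M v u h1 with ⟨dv, dv1, dv2⟩ | ⟨nv, nv0, nv1, nv2, nv3, nv4⟩ <;>
  rcases typ M w u h2 with ⟨dw, dw1, dw2⟩ | ⟨nw, nw0, nw1, nw2, nw3, nw4⟩ <;>
  try omega
  · -- all on strands
    have dp := dg_of_eq M h3 (by omega : Kin p = Kout u)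
    have := dp.1
    exact hs ⟨M.own u v du (Or.inl dv) (by omega), M.own u w du (Or.inl dw) (by omega),
      M.own u p du (Or.inl dp) (by omega)⟩
  · -- none on a strand
    rcases lt_or_eq_of_le nu0 with hlt | heq
    · have cu := chn_of M hlt nu
      have cv := chn_of M (by omega) nv
      have cw := chn_of M (by omega) nw
      have hD : 4 * B ≤ (ρ - r u) * (4 * B) := by nlinarith
      have eu := code rfl cu
      have ev := code h1 cv
      have ew := code h2 cw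
      by_cases hku : Kout u = Kout v
      · have dp := dg_of_eq M h3 (by omega : Kin p = Kout u)
        have ep : ow p ↔ ow u := M.own p u dp (Or.inr cu) (by have := dp.1; omega)
        have ep' : ow p ↔ ow v := M.own p v dp (Or.inr cv) (by have := dp.1; omega)
        by_cases hw : ow u ↔ ow w
        · exact hs ⟨ep.symm.trans ep', hw, ep.symm⟩
        · rcases eu with ⟨e1, e2, e3⟩ | ⟨e1, e2⟩
          · have f1 : ow v := ep'.1 (ep.2 e1)
            have f2 : ¬ ow w := fun h => hw ⟨fun _ => h, fun _ => e1⟩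
            rcases ev with ⟨_, e2', e3'⟩ | ⟨e, _⟩
            · rcases ew with ⟨e, _⟩ | ⟨_, e4⟩
              · exact f2 e
              · omega
            · exact e f1
          · have f1 : ¬ ow v := fun h => e1 (ep.1 (ep'.2 h))
            have f2 : ow w := by
              by_contra h
              exact hw ⟨fun h' => (e1 h').elim, fun h' => (h h').elim⟩
            rcases ev with ⟨e, _⟩ | ⟨_, e2'⟩
            · exact f1 e
            · rcases ew with ⟨_, e3, e4⟩ | ⟨e, _⟩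
              · exact M.g4 u v p cu cv e1 f1 (fun h => e1 (ep.1 h)) h1 h3
                  (M.mOI ep.symm h3 l1) (M.mIO ep'.symm (by omega) l2) (by omega)
                  (M.mI (ep.symm.trans ep') (by omega) l5) (by omega)
              · exact e f2
      · by_cases hall : (ow u ↔ ow v) ∧ (ow u ↔ ow w)
        · obtain ⟨c, hc1, hc2, hc3⟩ := M.g8 u cu
          have q1 := (hc3 u cu Iff.rfl rfl).1 (by
            rcases eu with ⟨_, e2, e3⟩ | ⟨_, e2⟩ <;> rcases ev with ⟨_, e2', e3'⟩ | ⟨_, e2'⟩ <;> omega)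
          have q2 := (hc3 v cv hall.1.symm h1).2 (by
            rcases eu with ⟨_, e2, e3⟩ | ⟨_, e2⟩ <;> rcases ev with ⟨_, e2', e3'⟩ | ⟨_, e2'⟩ <;> omega)
          exact M.F u v w c hall.1 hall.2 hc1.symm h1 h2 hc2 q1 q2
            (M.mO (hall.1.symm.trans hall.2) (by omega) l3)
            (M.mI hall.2.symm (by omega) l4) (M.mI hall.1 (by omega) l5)
        · exfalso
          apply hall
          rcases eu with ⟨e1, e2, e3⟩ | ⟨e1, e2⟩ <;> rcases ev with ⟨e1', e2', e3'⟩ | ⟨e1', e2'⟩ <;>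
          rcases ew with ⟨e1'', e2'', e3''⟩ | ⟨e1'', e2''⟩ <;>
          first
            | exact ⟨⟨fun _ => e1', fun _ => e1⟩, ⟨fun _ => e1'', fun _ => e1⟩⟩
            | exact ⟨⟨fun h => (e1 h).elim, fun h => (e1' h).elim⟩,
                ⟨fun h => (e1 h).elim, fun h => (e1'' h).elim⟩⟩
            | omega
    · have su := sgm_of M heq nu
      have sv := sgm_of M (by omega) nv
      have sw := sgm_of M (by omega) nw
      obtain ⟨_, su1, su2, su3, su4, su5, su6, su7, su8⟩ := id su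
      obtain ⟨_, sv1, sv2, sv3, sv4, sv5, sv6, sv7, sv8⟩ := id sv
      obtain ⟨_, sw1, sw2, sw3, sw4, sw5, sw6, sw7, sw8⟩ := id sw
      have dp : Dg r i o Kin Kout tI tO ρ B p := by
        rcases M.cls p with d | n | n
        · exact d
        · exact absurd n.1 (by omega)
        · exact absurd n.1 (by omega)
      have hp := dp.1
      have hc := M.cut p (by omega) (by omega) (by omega)
      have n1 := M.sc u p su dp
      have n2 := M.sc v p sv dp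
      refine M.t2 u v w p su sv sw hc.1 (by omega) (by omega) ?_ ?_ ?_
      · rcases l3 with l | l <;> omega
      · rcases l4 with l | l <;> omega
      · rcases l5 with l | l <;> omega

theorem merge_I (M : Mg r i o Kin Kout tI tO ow ρ B pos ypos Ct) (p₁ p₂ p₃ p₄ : T)
    (h2 : r p₂ = r p₁) (h3 : r p₃ = r p₁) (h4 : r p₄ = r p₁)
    (l1 : Lx (Kout p₁) (tO p₁) (Kout p₂) (tO p₂)) (l2 : Lx (Kout p₂) (tO p₂) (Kout p₃) (tO p₃))
    (l3 : Lx (Kout p₃) (tO p₃) (Kout p₄) (tO p₄)) (l4 : Lx (Kin p₂) (tI p₂) (Kin p₄) (tI p₄))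
    (l5 : Lx (Kin p₄) (tI p₄) (Kin p₁) (tI p₁)) (l6 : Lx (Kin p₁) (tI p₁) (Kin p₃) (tI p₃)) :
    False := by
  have hB := M.hB
  have k1 := l1.le
  have k2 := l2.le
  have k3 := l3.le
  have k4 := l4.le
  have k5 := l5.le
  have k6 := l6.le
  by_cases hs : (ow p₁ ↔ ow p₂) ∧ (ow p₁ ↔ ow p₃) ∧ (ow p₁ ↔ ow p₄)
  · obtain ⟨s1, s2, s3⟩ := hs
    exact M.I p₁ p₂ p₃ p₄ s1 s2 s3 h2 h3 h4 (M.mO s1 (by omega) l1)
      (M.mO (s1.symm.trans s2) (by omega) l2) (M.mO (s2.symm.trans s3) (by omega) l3)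
      (M.mI (s1.symm.trans s3) (by omega) l4) (M.mI s3.symm (by omega) l5)
      (M.mI s2 (by omega) l6)
  have hE : r p₁ ≤ ρ → 4 * B ≤ (ρ - r p₁ + 1) * (4 * B) := by
    intro h; nlinarith
  rcases typ M p₁ p₁ rfl with ⟨d1, d1a, d1b⟩ | ⟨n1, n10, n11, n12, n13, n14⟩ <;>
  rcases typ M p₂ p₁ h2 with ⟨d2, d2a, d2b⟩ | ⟨n2, n20, n21, n22, n23, n24⟩ <;>
  rcases typ M p₃ p₁ h3 with ⟨d3, d3a, d3b⟩ | ⟨n3, n30, n31, n32, n33, n34⟩ <;>
  rcases typ M p₄ p₁ h4 with ⟨d4, d4a, d4b⟩ | ⟨n4, n40, n41, n42, n43, n44⟩ <;>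
  try omega
  · exact hs ⟨M.own p₁ p₂ d1 (Or.inl d2) (by omega), M.own p₁ p₃ d1 (Or.inl d3) (by omega),
      M.own p₁ p₄ d1 (Or.inl d4) (by omega)⟩
  · rcases lt_or_eq_of_le n10 with hlt | heq
    · have c1 := chn_of M hlt n1
      have c2 := chn_of M (by omega) n2
      have c3 := chn_of M (by omega) n3
      have c4 := chn_of M (by omega) n4
      have hD : 4 * B ≤ (ρ - r p₁) * (4 * B) := by nlinarith
      have e1 := code rfl c1
      have e2 := code h2 c2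
      have e3 := code h3 c3
      have e4 := code h4 c4
      rcases e1 with ⟨a1, e1⟩ | ⟨a1, e1⟩ <;> rcases e2 with ⟨a2, e2⟩ | ⟨a2, e2⟩ <;>
      rcases e3 with ⟨a3, e3⟩ | ⟨a3, e3⟩ <;> rcases e4 with ⟨a4, e4⟩ | ⟨a4, e4⟩ <;>
      try omega
      · exact hs ⟨⟨fun _ => a2, fun _ => a1⟩, ⟨fun _ => a3, fun _ => a1⟩, ⟨fun _ => a4, fun _ => a1⟩⟩
      · -- only `p₂` in `X`
        have s13 : ow p₁ ↔ ow p₃ := ⟨fun h => (a1 h).elim, fun h => (a3 h).elim⟩
        have s14 : ow p₁ ↔ ow p₄ := ⟨fun h => (a1 h).elim, fun h => (a4 h).elim⟩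
        obtain ⟨c, hc1, hc2, hc3⟩ := M.g8 p₁ c1
        have q1 := (hc3 p₁ c1 Iff.rfl rfl).1 (by omega)
        have q2 := (hc3 p₃ c3 s13.symm h3).2 (by omega)
        exact M.F p₁ p₃ p₄ c s13 s14 hc1.symm h3 h4 hc2 q1 q2
          (M.mO (s13.symm.trans s14) (by omega) l3) (M.mI s14.symm (by omega) l5)
          (M.mI s13 (by omega) l6)
      · -- only `p₄` in `X`
        have s12 : ow p₁ ↔ ow p₂ := ⟨fun h => (a1 h).elim, fun h => (a2 h).elim⟩
        have s13 : ow p₁ ↔ ow p₃ := ⟨fun h => (a1 h).elim, fun h => (a3 h).elim⟩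
        refine M.g3 p₁ p₂ p₃ c1 c2 c3 a1 a2 a3 h2 h3 (by omega) (M.mO s12 (by omega) l1)
          (M.mO (s12.symm.trans s13) (by omega) l2) (M.mI s12.symm (by omega) ?_)
          (M.mI s13 (by omega) l6) (by omega) (by omega)
        left; omega
      · exact hs ⟨⟨fun h => (a1 h).elim, fun h => (a2 h).elim⟩,
          ⟨fun h => (a1 h).elim, fun h => (a3 h).elim⟩, ⟨fun h => (a1 h).elim, fun h => (a4 h).elim⟩⟩
    · have s1 := sgm_of M heq n1
      have s2 := sgm_of M (by omega) n2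
      have s3 := sgm_of M (by omega) n3
      have s4 := sgm_of M (by omega) n4
      obtain ⟨_, u1, u2, u3, u4, _⟩ := id s1
      obtain ⟨_, v1, v2, v3, v4, _⟩ := id s2
      obtain ⟨_, w1, w2, w3, w4, _⟩ := id s3
      obtain ⟨_, x1, x2, x3, x4, _⟩ := id s4
      refine M.t1 p₁ p₂ p₃ p₄ s1 s2 s3 s4 ?_ ?_ ?_ ?_ ?_ ?_
      · rcases l1 with l | l <;> omega
      · rcases l2 with l | l <;> omega
      · rcases l3 with l | l <;> omega
      · rcases l4 with l | l <;> omega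
      · rcases l5 with l | l <;> omega
      · rcases l6 with l | l <;> omega

end

end Pool.Agent.J4H41.AM
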