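import Pool.Agent.J4H41.AM.Defs

set_option autoImplicit false

/-! # Job ROLL: from polar conditions back to 3142-freeness (proof by helper70) -/

namespace Pool.Agent.J4H41.AM.Rl

theorem R' {E : Type} {q : E → ℕ} {i o : E → ℤ} (h : Polar q i o) (z p₁ p₂ : E)
    (h0 : q z < 4) (h1 : q p₁ = (q z + 1) % 4) (h2 : q p₂ = (q z + 1) % 4)
    (h3 : i p₁ < o z) (h4 : o z < i p₂) (h5 : o p₂ ≤ o p₁) : False :=
  absurd (h.R z p₁ p₂ h0 h1 h2 h3 h4) (not_lt.2 h5)

theorem cases5 {E : Type} (q : E → ℕ) (i o : E → ℤ) (h4 : ∀ p, q p ≤ 4)
    (hp : ∀ p, q p < 4 → 0 < i p ∧ 0 < o p) (p : E) :
    (q p = 0 ∧ px (q p) (i p) (o p) = - o p ∧ py (q p) (i p) (o p) = - i p ∧ 0 < i p ∧ 0 < o p) ∨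
    (q p = 1 ∧ px (q p) (i p) (o p) = - i p ∧ py (q p) (i p) (o p) = o p ∧ 0 < i p ∧ 0 < o p) ∨
    (q p = 2 ∧ px (q p) (i p) (o p) = o p ∧ py (q p) (i p) (o p) = i p ∧ 0 < i p ∧ 0 < o p) ∨
    (q p = 3 ∧ px (q p) (i p) (o p) = i p ∧ py (q p) (i p) (o p) = - o p ∧ 0 < i p ∧ 0 < o p) ∨
    (q p = 4 ∧ px (q p) (i p) (o p) = 0 ∧ py (q p) (i p) (o p) = 0) := by
  have h := h4 p
  have h' := hp p
  have : q p = 0 ∨ q p = 1 ∨ q p = 2 ∨ q p = 3 ∨ q p = 4 := by omega
  rcases this with h1 | h1 | h1 | h1 | h1
  · have := h' (by omega)
    simp [h1, px, py, this]
  · have := h' (by omega)
    simp [h1, px, py, this]
  · have := h' (by omega)
    simp [h1, px, py, this]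
  · have := h' (by omega)
    simp [h1, px, py, this]
  · simp [h1, px, py]

theorem t_ROLL : S_ROLL := by
  intro E q i o h4 hp h P Q R S hPQ hQR hRS hQS hSP hPR
  dsimp only at hPQ hQR hRS hQS hSP hPR
  have cP := cases5 q i o h4 hp P
  have cQ := cases5 q i o h4 hp Q
  have cR := cases5 q i o h4 hp R
  have cS := cases5 q i o h4 hp S
  generalize px (q P) (i P) (o P) = xP at *
  generalize px (q Q) (i Q) (o Q) = xQ at *
  generalize px (q R) (i R) (o R) = xR at *
  generalize px (q S) (i S) (o S) = xS at *
  generalize py (q P) (i P) (o P) = yP at *
  generalize py (q Q) (i Q) (o Q) = yQ at *
  generalize py (q R) (i R) (o R) = yR at *
  generalize py (q S) (i S) (o S) = yS at *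
  clear h4 hp
  rcases cP with cP | cP | cP | cP | cP <;> rcases cQ with cQ | cQ | cQ | cQ | cQ <;>
    first
    | (exfalso; clear cR cS; omega)
    | (rcases cR with cR | cR | cR | cR | cR <;>
        first
        | (exfalso; clear cS; omega)
        | (rcases cS with cS | cS | cS | cS | cS <;>
            first
            | (exfalso; omega)
            | (first
                  | exact R' h P Q R (by omega) (by omega) (by omega) (by omega) (by omega) (by omega)
                  | exact R' h P Q S (by omega) (by omega) (by omega) (by omega) (by omega) (by omega)
                  | exact R' h P R Q (by omega) (by omega) (by omega) (by omega) (by omega) (by omega)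
                  | exact R' h P R S (by omega) (by omega) (by omega) (by omega) (by omega) (by omega)
                  | exact R' h P S Q (by omega) (by omega) (by omega) (by omega) (by omega) (by omega)
                  | exact R' h P S R (by omega) (by omega) (by omega) (by omega) (by omega) (by omega)
                  | exact R' h Q P R (by omega) (by omega) (by omega) (by omega) (by omega) (by omega)
                  | exact R' h Q P S (by omega) (by omega) (by omega) (by omega) (by omega) (by omega)
                  | exact R' h Q R P (by omega) (by omega) (by omega) (by omega) (by omega) (by omega)
                  | exact R' h Q R S (by omega) (by omega) (by omega) (by omega) (by omega) (by omega)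
                  | exact R' h Q S P (by omega) (by omega) (by omega) (by omega) (by omega) (by omega)
                  | exact R' h Q S R (by omega) (by omega) (by omega) (by omega) (by omega) (by omega)
                  | exact R' h R P Q (by omega) (by omega) (by omega) (by omega) (by omega) (by omega)
                  | exact R' h R P S (by omega) (by omega) (by omega) (by omega) (by omega) (by omega)
                  | exact R' h R Q P (by omega) (by omega) (by omega) (by omega) (by omega) (by omega)
                  | exact R' h R Q S (by omega) (by omega) (by omega) (by omega) (by omega) (by omega)
                  | exact R' h R S P (by omega) (by omega) (by omega) (by omega) (by omega) (by omega)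
                  | exact R' h R S Q (by omega) (by omega) (by omega) (by omega) (by omega) (by omega)
                  | exact R' h S P Q (by omega) (by omega) (by omega) (by omega) (by omega) (by omega)
                  | exact R' h S P R (by omega) (by omega) (by omega) (by omega) (by omega) (by omega)
                  | exact R' h S Q P (by omega) (by omega) (by omega) (by omega) (by omega) (by omega)
                  | exact R' h S Q R (by omega) (by omega) (by omega) (by omega) (by omega) (by omega)
                  | exact R' h S R P (by omega) (by omega) (by omega) (by omega) (by omega) (by omega)
                  | exact R' h S R Q (by omega) (by omega) (by omega) (by omega) (by omega) (by omega)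
                  | exact Polar.F h P Q R S (by omega) (by omega) (by omega) (by omega) (by omega) (by omega) (by omega) (by omega) (by omega)
                  | exact Polar.F h P Q S R (by omega) (by omega) (by omega) (by omega) (by omega) (by omega) (by omega) (by omega) (by omega)
                  | exact Polar.F h P R Q S (by omega) (by omega) (by omega) (by omega) (by omega) (by omega) (by omega) (by omega) (by omega)
                  | exact Polar.F h P R S Q (by omega) (by omega) (by omega) (by omega) (by omega) (by omega) (by omega) (by omega) (by omega)
                  | exact Polar.F h P S Q R (by omega) (by omega) (by omega) (by omega) (by omega) (by omega) (by omega) (by omega) (by omega)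
                  | exact Polar.F h P S R Q (by omega) (by omega) (by omega) (by omega) (by omega) (by omega) (by omega) (by omega) (by omega)
                  | exact Polar.F h Q P R S (by omega) (by omega) (by omega) (by omega) (by omega) (by omega) (by omega) (by omega) (by omega)
                  | exact Polar.F h Q P S R (by omega) (by omega) (by omega) (by omega) (by omega) (by omega) (by omega) (by omega) (by omega)
                  | exact Polar.F h Q R P S (by omega) (by omega) (by omega) (by omega) (by omega) (by omega) (by omega) (by omega) (by omega)
                  | exact Polar.F h Q R S P (by omega) (by omega) (by omega) (by omega) (by omega) (by omega) (by omega) (by omega) (by omega)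
                  | exact Polar.F h Q S P R (by omega) (by omega) (by omega) (by omega) (by omega) (by omega) (by omega) (by omega) (by omega)
                  | exact Polar.F h Q S R P (by omega) (by omega) (by omega) (by omega) (by omega) (by omega) (by omega) (by omega) (by omega)
                  | exact Polar.F h R P Q S (by omega) (by omega) (by omega) (by omega) (by omega) (by omega) (by omega) (by omega) (by omega)
                  | exact Polar.F h R P S Q (by omega) (by omega) (by omega) (by omega) (by omega) (by omega) (by omega) (by omega) (by omega)
                  | exact Polar.F h R Q P S (by omega) (by omega) (by omega) (by omega) (by omega) (by omega) (by omega) (by omega) (by omega)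
                  | exact Polar.F h R Q S P (by omega) (by omega) (by omega) (by omega) (by omega) (by omega) (by omega) (by omega) (by omega)
                  | exact Polar.F h R S P Q (by omega) (by omega) (by omega) (by omega) (by omega) (by omega) (by omega) (by omega) (by omega)
                  | exact Polar.F h R S Q P (by omega) (by omega) (by omega) (by omega) (by omega) (by omega) (by omega) (by omega) (by omega)
                  | exact Polar.F h S P Q R (by omega) (by omega) (by omega) (by omega) (by omega) (by omega) (by omega) (by omega) (by omega)
                  | exact Polar.F h S P R Q (by omega) (by omega) (by omega) (by omega) (by omega) (by omega) (by omega) (by omega) (by omega)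
                  | exact Polar.F h S Q P R (by omega) (by omega) (by omega) (by omega) (by omega) (by omega) (by omega) (by omega) (by omega)
                  | exact Polar.F h S Q R P (by omega) (by omega) (by omega) (by omega) (by omega) (by omega) (by omega) (by omega) (by omega)
                  | exact Polar.F h S R P Q (by omega) (by omega) (by omega) (by omega) (by omega) (by omega) (by omega) (by omega) (by omega)
                  | exact Polar.F h S R Q P (by omega) (by omega) (by omega) (by omega) (by omega) (by omega) (by omega) (by omega) (by omega)
                  | exact Polar.I h P Q R S (by omega) (by omega) (by omega) (by omega) (by omega) (by omega) (by omega) (by omega) (by omega) (by omega)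
                  | exact Polar.I h P Q S R (by omega) (by omega) (by omega) (by omega) (by omega) (by omega) (by omega) (by omega) (by omega) (by omega)
                  | exact Polar.I h P R Q S (by omega) (by omega) (by omega) (by omega) (by omega) (by omega) (by omega) (by omega) (by omega) (by omega)
                  | exact Polar.I h P R S Q (by omega) (by omega) (by omega) (by omega) (by omega) (by omega) (by omega) (by omega) (by omega) (by omega)
                  | exact Polar.I h P S Q R (by omega) (by omega) (by omega) (by omega) (by omega) (by omega) (by omega) (by omega) (by omega) (by omega)
                  | exact Polar.I h P S R Q (by omega) (by omega) (by omega) (by omega) (by omega) (by omega) (by omega) (by omega) (by omega) (by omega)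
                  | exact Polar.I h Q P R S (by omega) (by omega) (by omega) (by omega) (by omega) (by omega) (by omega) (by omega) (by omega) (by omega)
                  | exact Polar.I h Q P S R (by omega) (by omega) (by omega) (by omega) (by omega) (by omega) (by omega) (by omega) (by omega) (by omega)
                  | exact Polar.I h Q R P S (by omega) (by omega) (by omega) (by omega) (by omega) (by omega) (by omega) (by omega) (by omega) (by omega)
                  | exact Polar.I h Q R S P (by omega) (by omega) (by omega) (by omega) (by omega) (by omega) (by omega) (by omega) (by omega) (by omega)
                  | exact Polar.I h Q S P R (by omega) (by omega) (by omega) (by omega) (by omega) (by omega) (by omega) (by omega) (by omega) (by omega)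
                  | exact Polar.I h Q S R P (by omega) (by omega) (by omega) (by omega) (by omega) (by omega) (by omega) (by omega) (by omega) (by omega)
                  | exact Polar.I h R P Q S (by omega) (by omega) (by omega) (by omega) (by omega) (by omega) (by omega) (by omega) (by omega) (by omega)
                  | exact Polar.I h R P S Q (by omega) (by omega) (by omega) (by omega) (by omega) (by omega) (by omega) (by omega) (by omega) (by omega)
                  | exact Polar.I h R Q P S (by omega) (by omega) (by omega) (by omega) (by omega) (by omega) (by omega) (by omega) (by omega) (by omega)
                  | exact Polar.I h R Q S P (by omega) (by omega) (by omega) (by omega) (by omega) (by omega) (by omega) (by omega) (by omega) (by omega)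
                  | exact Polar.I h R S P Q (by omega) (by omega) (by omega) (by omega) (by omega) (by omega) (by omega) (by omega) (by omega) (by omega)
                  | exact Polar.I h R S Q P (by omega) (by omega) (by omega) (by omega) (by omega) (by omega) (by omega) (by omega) (by omega) (by omega)
                  | exact Polar.I h S P Q R (by omega) (by omega) (by omega) (by omega) (by omega) (by omega) (by omega) (by omega) (by omega) (by omega)
                  | exact Polar.I h S P R Q (by omega) (by omega) (by omega) (by omega) (by omega) (by omega) (by omega) (by omega) (by omega) (by omega)
                  | exact Polar.I h S Q P R (by omega) (by omega) (by omega) (by omega) (by omega) (by omega) (by omega) (by omega) (by omega) (by omega)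
                  | exact Polar.I h S Q R P (by omega) (by omega) (by omega) (by omega) (by omega) (by omega) (by omega) (by omega) (by omega) (by omega)
                  | exact Polar.I h S R P Q (by omega) (by omega) (by omega) (by omega) (by omega) (by omega) (by omega) (by omega) (by omega) (by omega)
                  | exact Polar.I h S R Q P (by omega) (by omega) (by omega) (by omega) (by omega) (by omega) (by omega) (by omega) (by omega) (by omega)
                  | exact Polar.Z h P Q R S (by omega) (by omega) (by omega) (by omega) (by omega) (by omega) (by omega) (by omega)
                  | exact Polar.Z h P Q S R (by omega) (by omega) (by omega) (by omega) (by omega) (by omega) (by omega) (by omega)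
                  | exact Polar.Z h P R Q S (by omega) (by omega) (by omega) (by omega) (by omega) (by omega) (by omega) (by omega)
                  | exact Polar.Z h P R S Q (by omega) (by omega) (by omega) (by omega) (by omega) (by omega) (by omega) (by omega)
                  | exact Polar.Z h P S Q R (by omega) (by omega) (by omega) (by omega) (by omega) (by omega) (by omega) (by omega)
                  | exact Polar.Z h P S R Q (by omega) (by omega) (by omega) (by omega) (by omega) (by omega) (by omega) (by omega)
                  | exact Polar.Z h Q P R S (by omega) (by omega) (by omega) (by omega) (by omega) (by omega) (by omega) (by omega)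
                  | exact Polar.Z h Q P S R (by omega) (by omega) (by omega) (by omega) (by omega) (by omega) (by omega) (by omega)
                  | exact Polar.Z h Q R P S (by omega) (by omega) (by omega) (by omega) (by omega) (by omega) (by omega) (by omega)
                  | exact Polar.Z h Q R S P (by omega) (by omega) (by omega) (by omega) (by omega) (by omega) (by omega) (by omega)
                  | exact Polar.Z h Q S P R (by omega) (by omega) (by omega) (by omega) (by omega) (by omega) (by omega) (by omega)
                  | exact Polar.Z h Q S R P (by omega) (by omega) (by omega) (by omega) (by omega) (by omega) (by omega) (by omega)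
                  | exact Polar.Z h R P Q S (by omega) (by omega) (by omega) (by omega) (by omega) (by omega) (by omega) (by omega)
                  | exact Polar.Z h R P S Q (by omega) (by omega) (by omega) (by omega) (by omega) (by omega) (by omega) (by omega)
                  | exact Polar.Z h R Q P S (by omega) (by omega) (by omega) (by omega) (by omega) (by omega) (by omega) (by omega)
                  | exact Polar.Z h R Q S P (by omega) (by omega) (by omega) (by omega) (by omega) (by omega) (by omega) (by omega)
                  | exact Polar.Z h R S P Q (by omega) (by omega) (by omega) (by omega) (by omega) (by omega) (by omega) (by omega)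
                  | exact Polar.Z h R S Q P (by omega) (by omega) (by omega) (by omega) (by omega) (by omega) (by omega) (by omega)
                  | exact Polar.Z h S P Q R (by omega) (by omega) (by omega) (by omega) (by omega) (by omega) (by omega) (by omega)
                  | exact Polar.Z h S P R Q (by omega) (by omega) (by omega) (by omega) (by omega) (by omega) (by omega) (by omega)
                  | exact Polar.Z h S Q P R (by omega) (by omega) (by omega) (by omega) (by omega) (by omega) (by omega) (by omega)
                  | exact Polar.Z h S Q R P (by omega) (by omega) (by omega) (by omega) (by omega) (by omega) (by omega) (by omega)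
                  | exact Polar.Z h S R P Q (by omega) (by omega) (by omega) (by omega) (by omega) (by omega) (by omega) (by omega)
                  | exact Polar.Z h S R Q P (by omega) (by omega) (by omega) (by omega) (by omega) (by omega) (by omega) (by omega))))

end Pool.Agent.J4H41.AM.Rl
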