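import Pool.Agent.J4H41.AM.Strand2

/-!
# Properties of the labels, all ranks; job STRAND
-/

namespace Pool.Agent.J4H41.AM

open Classical

section
variable {X : Type} [Fintype X] {r i o : X → ℤ} {a : X} {B : ℤ} {pos k : X → ℤ}

set_option linter.unusedSectionVars false
set_option linter.unusedVariables false

theorem lv_low (S : SI r i o a B pos) (hk : ∀ p, k p = Phi r i o a B pos k p) (m : ℕ)
    (h : (m : ℤ) - 6 ≤ r a) : Lv r i o a B k ((m : ℤ) - 6) := by
  induction m with
  | zero =>
    refine ⟨fun p p' hp => ?_, fun p hp => ?_, fun _ p hp => ?_, fun _ p hp => ?_⟩ <;>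
      exact absurd (S.lb p) (by push_cast at hp; omega)
  | succ m ih =>
    push_cast at h ⊢
    have := ih (by omega)
    apply step_le S hk (n := (m : ℤ) + 1 - 6) _ (by omega) (by omega)
    have e : (m : ℤ) + 1 - 6 - 1 = (m : ℤ) - 6 := by ring
    rw [e]; exact this

theorem lv (S : SI r i o a B pos) (hk : ∀ p, k p = Phi r i o a B pos k p) {n : ℤ}
    (h : n ≤ r a) (h' : -6 ≤ n) : Lv r i o a B k n := by
  have := lv_low S hk (n + 6).toNat (by omega)
  have e : ((n + 6).toNat : ℤ) - 6 = n := by omega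
  rwa [e] at this

theorem seg_self : Seg r i o a a := ⟨rfl, sameGap_refl a⟩

theorem rk0 (S : SI r i o a B pos) (hk : ∀ p, k p = Phi r i o a B pos k p) {z : X} (hz : r z = r a) :
    (Seg r i o a z ∧ k z = pos z ∧ 0 ≤ k z ∧ k z < B) ∨
      (¬ Seg r i o a z ∧ (B ≤ k z ∨ k z ≤ -B)) := by
  have ha := S.ha
  rcases range_k S hk (lv S hk (n := r a - 1) (by omega) (by omega)) le_rfl hz with h | h | h
  · right
    refine ⟨fun h' => h.1 ((seg_iff hz).2 h'), ?_⟩
    have e : (r a - r a + 1) * B = B := by ring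
    rw [e] at h; exact h.2
  · left
    exact ⟨(seg_iff hz).1 h.1, h.2.2.1, h.2.2.2.1, h.2.2.2.2⟩
  · omega

/-- elements of rank `r a + 1` -/
theorem cls1 (S : SI r i o a B pos) (hk : ∀ p, k p = Phi r i o a B pos k p) {p : X}
    (hp : r p = r a + 1) :
    (Cut r i o a p ∧ k p = pos p ∧ 0 ≤ k p ∧ k p < B) ∨
    (¬ Cut r i o a p ∧ (∀ s, Seg r i o a s → i p < o s) ∧ k p = lo r i o ((r a + 10) * B) k p ∧
      k p ≤ -B) ∨
    (¬ Cut r i o a p ∧ (∀ s, Seg r i o a s → o s < i p) ∧ k p = hi r i o ((r a + 10) * B) k p ∧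
      B ≤ k p) := by
  have hB := S.hB
  have ha := S.ha
  have hDB := S.D_B
  have L := lv S hk (n := r a) (by omega) (by omega)
  have hka := rk0 S hk (rfl : r a = r a)
  by_cases hc : Cut r i o a p
  · left
    have h1 := S.posr p (Or.inr hc)
    have h2 : k p = pos p := by
      rw [hk p]; unfold Phi; rw [if_neg (by omega), if_pos hp, if_pos hc]
    exact ⟨hc, h2, by omega, by omega⟩
  · right
    by_cases hs : ∀ s, Seg r i o a s → i p < o s
    · left
      have h2 : k p = lo r i o ((r a + 10) * B) k p := by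
        conv_lhs => rw [hk p]
        unfold Phi; rw [if_neg (by omega), if_pos hp, if_neg hc, if_pos hs]
      refine ⟨hc, hs, h2, ?_⟩
      rw [h2]
      apply lo_le
      · intro z hz hz'
        have h3 : ¬ Seg r i o a z := fun h => by have := hs z h; omega
        have h4 := hs a seg_self
        have h5 := L.m1 z a (by omega) rfl (by omega)
        rcases rk0 S hk (by omega : r z = r a) with h6 | h6
        · exact absurd h6.1 h3
        · rcases hka with h7 | h7
          · omega
          · exact absurd seg_self h7.1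
      · omega
    · right
      have h2 : k p = hi r i o ((r a + 10) * B) k p := by
        conv_lhs => rw [hk p]
        unfold Phi; rw [if_neg (by omega), if_pos hp, if_neg hc, if_neg hs]
      push Not at hs
      obtain ⟨s₀, hs₀, hs₁⟩ := hs
      have hlt : ∀ s, Seg r i o a s → ¬ (i p = o s) := fun s h h' =>
        S.R.ne s p (by rw [h.1]; exact hp) h'.symm
      have hs₂ : o s₀ < i p := lt_of_le_of_ne hs₁ (fun h => hlt s₀ hs₀ h.symm)
      have hall : ∀ s, Seg r i o a s → o s < i p := by
        intro s h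
        rcases lt_trichotomy (o s) (i p) with h3 | h3 | h3
        · exact h3
        · exact absurd h3.symm (hlt s h)
        · exact absurd ⟨hp, ⟨s₀, hs₀, hs₂⟩, ⟨s, h, h3⟩⟩ hc
      refine ⟨hc, hall, h2, ?_⟩
      rw [h2]
      apply le_hi
      · intro z hz hz'
        have h3 : ¬ Seg r i o a z := fun h => by have := hall z h; omega
        have h4 := hall a seg_self
        have h5 := L.m1 a z rfl (by omega) (by omega)
        rcases rk0 S hk (by omega : r z = r a) with h6 | h6
        · exact absurd h6.1 h3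
        · rcases hka with h7 | h7
          · omega
          · exact absurd seg_self h7.1
      · omega

theorem one2 (S : SI r i o a B pos) (hk : ∀ p, k p = Phi r i o a B pos k p) {p p' : X}
    (hp : r p = r a + 1) (hp' : r p' = r a + 1) (h : i p < i p') : k p ≤ k p' := by
  have hB := S.hB
  have hs := (seg_self : Seg r i o a a)
  rcases cls1 S hk hp with ⟨a1, a2, a3, a4⟩ | ⟨a1, a2, a3, a4⟩ | ⟨a1, a2, a3, a4⟩ <;>
  rcases cls1 S hk hp' with ⟨b1, b2, b3, b4⟩ | ⟨b1, b2, b3, b4⟩ | ⟨b1, b2, b3, b4⟩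
  · rw [a2, b2]; exact S.pgg p p' a1 b1 h
  · obtain ⟨_, ⟨s, s1, s2⟩, _⟩ := a1
    have := b2 s s1; omega
  · omega
  · omega
  · rw [a3, b3]; exact lo_mono k S.R (by omega) h.le
  · omega
  · obtain ⟨_, _, ⟨s, s1, s2⟩⟩ := b1
    have := a2 s s1; omega
  · have := a2 a hs; have := b2 a hs; omega
  · rw [a3, b3]; exact hi_mono k S.R (by omega) h.le

theorem cut_gap (R : Ranked r i o) {p p' : X} (h : Cut r i o a p) (hr : r p = r p')
    (hg : SameGap r i o p p') : Cut r i o a p' := by
  obtain ⟨h1, ⟨s, s1, s2⟩, ⟨t, t1, t2⟩⟩ := h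
  refine ⟨by omega, ⟨s, s1, ?_⟩, ⟨t, t1, ?_⟩⟩
  · have h2 := hg s (by rw [s1.1]; exact h1)
    have h3 := R.ne s p' (by rw [s1.1]; omega)
    omega
  · have h2 := hg t (by rw [t1.1]; exact h1)
    have h3 := R.ne t p' (by rw [t1.1]; omega)
    omega

theorem one1 (S : SI r i o a B pos) (hk : ∀ p, k p = Phi r i o a B pos k p) {p p' : X}
    (hp : r p = r a + 1) (hp' : r p' = r a + 1) (ho : o p < o p') : k p ≤ k p' := by
  have hB := S.hB
  have hs := (seg_self : Seg r i o a a)
  rcases lt_trichotomy (i p) (i p') with h | h | h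
  · exact one2 S hk hp hp' h
  · have := S.R.ii p p' (by omega) h
    subst this; omega
  · have hg := gap_of_rev S.R (by omega : r p = r p') h ho
    rcases cls1 S hk hp with ⟨a1, a2, a3, a4⟩ | ⟨a1, a2, a3, a4⟩ | ⟨a1, a2, a3, a4⟩ <;>
    rcases cls1 S hk hp' with ⟨b1, b2, b3, b4⟩ | ⟨b1, b2, b3, b4⟩ | ⟨b1, b2, b3, b4⟩
    · rw [a2, b2, S.pge p p' a1 b1 hg]
    · exact absurd (cut_gap S.R a1 (by omega) hg) b1
    · omega
    · omega
    · rw [a3, b3, lo_gap S.R (by omega) hg]
    · omega
    · exact absurd (cut_gap S.R b1 (by omega) (hg.symm (by omega))) a1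
    · have := a2 a hs; have := b2 a hs
      have := (hg a (by omega)).2
      omega
    · rw [a3, b3, hi_gap S.R (by omega) hg]

theorem one3 (S : SI r i o a B pos) (hk : ∀ p, k p = Phi r i o a B pos k p) {z p : X}
    (hp : r p = r a + 1) (hz : r z = r a) :
    (o z < i p → k z ≤ k p) ∧ (i p < o z → k p ≤ k z) := by
  have hB := S.hB
  have ha := S.ha
  have L := lv S hk (n := r a) (by omega) (by omega)
  rcases cls1 S hk hp with ⟨a1, a2, a3, a4⟩ | ⟨a1, a2, a3, a4⟩ | ⟨a1, a2, a3, a4⟩
  · rcases rk0 S hk hz with ⟨b1, b2, b3, b4⟩ | ⟨b1, b2⟩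
    · rw [a2, b2]
      exact ⟨fun h => (S.psg z p b1 a1 h).le, fun h => (S.pgs z p b1 a1 h).le⟩
    · obtain ⟨_, ⟨s, s1, s2⟩, ⟨t, t1, t2⟩⟩ := a1
      have hs := rk0 S hk s1.1
      have ht := rk0 S hk t1.1
      constructor
      · intro h
        have := L.m1 z t hz t1.1 (by omega)
        rcases ht with h1 | h1
        · omega
        · exact absurd t1 h1.1
      · intro h
        have := L.m1 s z s1.1 hz (by omega)
        rcases hs with h1 | h1
        · omega
        · exact absurd s1 h1.1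
  · rw [a3]
    refine ⟨fun h => le_lo (by omega) h, fun h => ?_⟩
    apply lo_le
    · intro z' h2 h3
      exact L.m1 z' z (by omega) hz (by omega)
    · exact (L.bd z hz).1
  · rw [a3]
    refine ⟨fun h => ?_, fun h => hi_le (by omega) h⟩
    apply le_hi
    · intro z' h2 h3
      exact L.m1 z z' hz (by omega) (by omega)
    · exact (L.bd z hz).2

variable (r i o a B pos k) in
/-- invariants of level `n > r a` -/
structure Lw (n : ℤ) : Prop where
  m1 : ∀ p p', r p = n → r p' = n → o p < o p' → k p ≤ k p'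
  m2 : ∀ p p', r p = n → r p' = n → i p < i p' → k p ≤ k p'
  m3 : ∀ z p, r p = n → r z = n - 1 → (o z < i p → k z ≤ k p) ∧ (i p < o z → k p ≤ k z)
  bd : ∀ p, r p = n → -((r a + 10) * B) ≤ k p ∧ k p ≤ (r a + 10) * B
  lab : ∀ p, r p = n → B ≤ k p ∨ k p ≤ -B ∨ ∃ g, Cut r i o a g ∧ k p = pos g

theorem lw_one (S : SI r i o a B pos) (hk : ∀ p, k p = Phi r i o a B pos k p) :
    Lw r i o a B pos k (r a + 1) := by
  have hB := S.hB
  have hDB := S.D_B
  refine ⟨fun p p' h1 h2 => one1 S hk h1 h2, fun p p' h1 h2 => one2 S hk h1 h2,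
    fun z p h1 h2 => one3 S hk h1 (by omega), fun p hp => ?_, fun p hp => ?_⟩
  · rcases cls1 S hk hp with ⟨a1, a2, a3, a4⟩ | ⟨a1, a2, a3, a4⟩ | ⟨a1, a2, a3, a4⟩
    · omega
    · have := lo_ge (r := r) (i := i) (o := o) (f := k) (D := (r a + 10) * B) p
      omega
    · have := hi_le_D (r := r) (i := i) (o := o) (f := k) (D := (r a + 10) * B) p
      omega
  · rcases cls1 S hk hp with ⟨a1, a2, a3, a4⟩ | ⟨a1, a2, a3, a4⟩ | ⟨a1, a2, a3, a4⟩
    · exact Or.inr (Or.inr ⟨p, a1, a2⟩)
    · exact Or.inr (Or.inl a4)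
    · exact Or.inl a4

theorem k_far (hk : ∀ p, k p = Phi r i o a B pos k p) {p : X} (h : r a + 1 < r p) :
    k p = lo r i o ((r a + 10) * B) k p := by
  conv_lhs => rw [hk p]
  unfold Phi
  rw [if_neg (by omega), if_neg (by omega)]

theorem bd_all (S : SI r i o a B pos) (hk : ∀ p, k p = Phi r i o a B pos k p) (z : X) :
    -((r a + 10) * B) ≤ k z := by
  have h1 := S.lb z
  rcases le_or_gt (r z) (r a) with h | h
  · exact ((lv S hk h (by omega)).bd z rfl).1
  · by_cases h' : r z = r a + 1
    · exact ((lw_one S hk).bd z h').1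
    · rw [k_far hk (by omega)]; exact lo_ge z

theorem lw_step (S : SI r i o a B pos) (hk : ∀ p, k p = Phi r i o a B pos k p) {n : ℤ}
    (hn : r a + 1 < n) (L : Lw r i o a B pos k (n - 1)) : Lw r i o a B pos k n := by
  have hB := S.hB
  have hDB := S.D_B
  refine ⟨?_, ?_, ?_, ?_, ?_⟩
  · intro p p' hp hp' ho
    rw [k_far hk (by omega : r a + 1 < r p), k_far hk (by omega : r a + 1 < r p')]
    rcases lt_trichotomy (i p) (i p') with h | h | h
    · exact lo_mono k S.R (by omega) h.le
    · have := S.R.ii p p' (by omega) h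
      subst this; omega
    · exact (lo_gap S.R (by omega) (gap_of_rev S.R (by omega : r p = r p') h ho)).le
  · intro p p' hp hp' h
    rw [k_far hk (by omega : r a + 1 < r p), k_far hk (by omega : r a + 1 < r p')]
    exact lo_mono k S.R (by omega) h.le
  · intro z p hp hz
    rw [k_far hk (by omega : r a + 1 < r p)]
    refine ⟨fun h => le_lo (by omega) h, fun h => ?_⟩
    apply lo_le
    · intro z' h2 h3
      exact L.m1 z' z (by omega) hz (by omega)
    · exact (L.bd z hz).1
  · intro p hp
    rw [k_far hk (by omega : r a + 1 < r p)]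
    refine ⟨lo_ge p, ?_⟩
    apply lo_le
    · intro z h2 h3
      exact (L.bd z (by omega)).2
    · omega
  · intro p hp
    rw [k_far hk (by omega : r a + 1 < r p)]
    rcases lo_cases (r := r) (i := i) (o := o) (f := k) (D := (r a + 10) * B) p
      (bd_all S hk) with h | ⟨z, h1, h2, h3⟩
    · right; left; omega
    · rw [h3]; exact L.lab z (by omega)

theorem lw (S : SI r i o a B pos) (hk : ∀ p, k p = Phi r i o a B pos k p) (m : ℕ) :
    Lw r i o a B pos k (r a + 1 + m) := by
  induction m with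
  | zero => simpa using lw_one S hk
  | succ m ih =>
    apply lw_step S hk (by push_cast; omega)
    have e : r a + 1 + ((m + 1 : ℕ) : ℤ) - 1 = r a + 1 + m := by push_cast; ring
    rw [e]; exact ih

theorem lw' (S : SI r i o a B pos) (hk : ∀ p, k p = Phi r i o a B pos k p) {n : ℤ}
    (hn : r a < n) : Lw r i o a B pos k n := by
  have := lw S hk (n - r a - 1).toNat
  have e : r a + 1 + ((n - r a - 1).toNat : ℤ) = n := by omega
  rwa [e] at this

theorem strand_main (S : SI r i o a B pos) (hk : ∀ p, k p = Phi r i o a B pos k p) :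
    Strand r i o a B pos (kin' r i o a k) k := by
  have hB := S.hB
  have ha := S.ha
  have far : ∀ p, r a < r p → kin' r i o a k p = k p := by
    intro p hp
    unfold kin'
    rw [if_neg (fun h => by have := h.1; omega)]
  refine ⟨?_, ?_, ?_, ?_, ?_, ?_, ?_, ?_, ?_⟩
  · intro p p' h ho
    have := S.lb p
    rcases le_or_gt (r p) (r a) with h1 | h1
    · exact (lv S hk h1 (by omega)).m1 p p' rfl h.symm ho
    · exact (lw' S hk h1).m1 p p' rfl h.symm ho
  · intro p p' h hi
    have := S.lb p
    rcases le_or_gt (r p) (r a) with h1 | h1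
    · exact step2 S hk (lv S hk (n := r p - 1) (by omega) (by omega)) h1 rfl h.symm hi
    · rw [far p h1, far p' (by omega)]
      exact (lw' S hk h1).m2 p p' rfl h.symm hi
  · intro z p h ho
    have := S.lb p
    rcases le_or_gt (r p) (r a) with h1 | h1
    · exact (step3 S hk (lv S hk (n := r p - 1) (by omega) (by omega)) h1 rfl (by omega)).1 ho
    · rw [far p h1]
      exact ((lw' S hk h1).m3 z p rfl (by omega)).1 ho
  · intro z p h ho
    have := S.lb p
    rcases le_or_gt (r p) (r a) with h1 | h1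
    · exact (step3 S hk (lv S hk (n := r p - 1) (by omega) (by omega)) h1 rfl (by omega)).2 ho
    · rw [far p h1]
      exact ((lw' S hk h1).m3 z p rfl (by omega)).2 ho
  · intro p hp
    have := S.lb p
    rcases range_k S hk (lv S hk (n := r p - 1) (by omega) (by omega)) hp.le rfl with h | h | h
    · right
      unfold kin'
      rw [if_neg h.1]
      exact ⟨rfl, h.2⟩
    · omega
    · left
      unfold kin'
      rw [if_pos h.1]
      exact ⟨rfl, h.2.2⟩
  · intro p hp
    rcases rk0 S hk hp with h | h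
    · left
      refine ⟨h.1, ?_, h.2.1⟩
      unfold kin'
      rw [if_pos ((seg_iff hp).2 h.1)]
    · right
      refine ⟨h.1, ?_, h.2⟩
      unfold kin'
      rw [if_neg (fun h' => h.1 ((seg_iff hp).1 h'))]
  · intro p hp
    have hf := far p (by omega)
    rcases cls1 S hk hp with ⟨a1, a2, a3, a4⟩ | ⟨a1, a2, a3, a4⟩ | ⟨a1, a2, a3, a4⟩
    · exact Or.inl ⟨a1, hf, a2⟩
    · exact Or.inr ⟨a1, hf, Or.inr a4⟩
    · exact Or.inr ⟨a1, hf, Or.inl a4⟩
  · intro p hp
    exact ⟨far p (by omega), (lw' S hk (by omega : r a < r p)).lab p rfl⟩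
  · intro p hp hk0
    have := S.lb p
    by_cases hc : CC r i o a p
    · obtain ⟨_, c, c1, c2, c3⟩ := hc
      obtain ⟨d, d1, d2, _⟩ := c1.pred (by omega)
      refine ⟨d, by omega, ?_⟩
      unfold kin'
      rw [if_pos ⟨d1.rank.1, d, d1, rfl, sameGap_refl d⟩]
    · exfalso
      unfold kin' at hk0
      rw [if_neg hc] at hk0
      have hpos : 0 < (r a - r p + 1) * B := by apply mul_pos <;> omega
      rcases range_k S hk (lv S hk (n := r p - 1) (by omega) (by omega)) hp.le rfl with h | h | h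
      · omega
      · exact hc h.1
      · exact hc h.1

end

theorem t_STRAND : S_STRAND := by
  intro X _ r i o R lb a ha B hB pos h1 h2 h3 h4 h5 h6
  have := Fintype.ofFinite X
  have S : SI r i o a B pos := ⟨R, lb, ha, hB, h1, h2, h3, h4, h5, h6⟩
  obtain ⟨k, hk⟩ := exists_fix r i o a B pos lb
  exact ⟨kin' r i o a k, k, strand_main S hk⟩

end Pool.Agent.J4H41.AM
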