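import Pool.Agent.J4H41.AM.Defs

/-!
# Job UNROLL: polar data of a 3142-free configuration
-/

namespace Pool.Agent.J4H41.AM

open Classical

section
variable {X : Type} (x y : X → ℤ) (b : X)

/-- quadrant -/
noncomputable def qd (p : X) : ℕ :=
  if p = b then 4 else if x p < x b then (if y p < y b then 0 else 1)
  else (if y p < y b then 3 else 2)

/-- in-distance -/
noncomputable def din (p : X) : ℤ :=
  if qd x y b p = 0 then y b - y p else if qd x y b p = 1 then x b - x p
  else if qd x y b p = 2 then y p - y b else if qd x y b p = 3 then x p - x b else 0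

/-- out-distance -/
noncomputable def dout (p : X) : ℤ :=
  if qd x y b p = 0 then x b - x p else if qd x y b p = 1 then y p - y b
  else if qd x y b p = 2 then x p - x b else if qd x y b p = 3 then y b - y p else 0

theorem qd_le (p : X) : qd x y b p ≤ 4 := by
  unfold qd; split_ifs <;> omega

theorem qd_cases (hx : Function.Injective x) (hy : Function.Injective y) (p : X) :
    (qd x y b p = 0 ∧ x p < x b ∧ y p < y b ∧ din x y b p = y b - y p ∧ dout x y b p = x b - x p) ∨
    (qd x y b p = 1 ∧ x p < x b ∧ y b < y p ∧ din x y b p = x b - x p ∧ dout x y b p = y p - y b) ∨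
    (qd x y b p = 2 ∧ x b < x p ∧ y b < y p ∧ din x y b p = y p - y b ∧ dout x y b p = x p - x b) ∨
    (qd x y b p = 3 ∧ x b < x p ∧ y p < y b ∧ din x y b p = x p - x b ∧ dout x y b p = y b - y p) ∨
    (qd x y b p = 4 ∧ p = b) := by
  by_cases h : p = b
  · right; right; right; right
    exact ⟨by simp [qd, h], h⟩
  · have h1 : x p ≠ x b := fun h' => h (hx h')
    have h2 : y p ≠ y b := fun h' => h (hy h')
    by_cases h3 : x p < x b <;> by_cases h4 : y p < y b
    · left
      have : qd x y b p = 0 := by simp [qd, h, h3, h4]
      refine ⟨this, h3, h4, ?_, ?_⟩ <;> simp [din, dout, this]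
    · right; left
      have : qd x y b p = 1 := by simp [qd, h, h3, h4]
      refine ⟨this, h3, by omega, ?_, ?_⟩ <;> simp [din, dout, this]
    · right; right; right; left
      have : qd x y b p = 3 := by simp [qd, h, h3, h4]
      refine ⟨this, by omega, h4, ?_, ?_⟩ <;> simp [din, dout, this]
    · right; right; left
      have : qd x y b p = 2 := by simp [qd, h, h3, h4]
      refine ⟨this, by omega, by omega, ?_, ?_⟩ <;> simp [din, dout, this]

end

theorem t_UNROLL : S_UNROLL := by
  intro X x y b hx hy hF
  have C := qd_cases x y b hx hy
  refine ⟨qd x y b, din x y b, dout x y b, ⟨?_, ?_, ?_, ?_⟩, qd_le x y b, ?_, ?_, ?_, ?_⟩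
  · intro z p₁ p₂ hz h1 h2 h3 h4
    by_contra hc
    have hne : p₁ ≠ p₂ := by rintro rfl; omega
    have e1 : x p₁ ≠ x p₂ := fun h => hne (hx h)
    have e2 : y p₁ ≠ y p₂ := fun h => hne (hy h)
    rcases C z with c | c | c | c | c
    · rcases C p₁ with d | d | d | d | d <;> try omega
      rcases C p₂ with e | e | e | e | e <;> try omega
      exact hF p₂ z p₁ b (by omega) (by omega) (by omega) (by omega) (by omega) (by omega)
    · rcases C p₁ with d | d | d | d | d <;> try omega
      rcases C p₂ with e | e | e | e | e <;> try omega
      exact hF z b p₂ p₁ (by omega) (by omega) (by omega) (by omega) (by omega) (by omega)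
    · rcases C p₁ with d | d | d | d | d <;> try omega
      rcases C p₂ with e | e | e | e | e <;> try omega
      exact hF b p₁ z p₂ (by omega) (by omega) (by omega) (by omega) (by omega) (by omega)
    · rcases C p₁ with d | d | d | d | d <;> try omega
      rcases C p₂ with e | e | e | e | e <;> try omega
      exact hF p₁ p₂ b z (by omega) (by omega) (by omega) (by omega) (by omega) (by omega)
    · omega
  · intro u v w p hu hv hw hp h1 h2 h3 h4 h5
    rcases C u with c | c | c | c | c
    · rcases C v with d | d | d | d | d <;> try omega
      rcases C w with e | e | e | e | e <;> try omega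
      rcases C p with f | f | f | f | f <;> try omega
      exact hF w v p u (by omega) (by omega) (by omega) (by omega) (by omega) (by omega)
    · rcases C v with d | d | d | d | d <;> try omega
      rcases C w with e | e | e | e | e <;> try omega
      rcases C p with f | f | f | f | f <;> try omega
      exact hF v u w p (by omega) (by omega) (by omega) (by omega) (by omega) (by omega)
    · rcases C v with d | d | d | d | d <;> try omega
      rcases C w with e | e | e | e | e <;> try omega
      rcases C p with f | f | f | f | f <;> try omega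
      exact hF u p v w (by omega) (by omega) (by omega) (by omega) (by omega) (by omega)
    · rcases C v with d | d | d | d | d <;> try omega
      rcases C w with e | e | e | e | e <;> try omega
      rcases C p with f | f | f | f | f <;> try omega
      exact hF p w u v (by omega) (by omega) (by omega) (by omega) (by omega) (by omega)
    · omega
  · intro p₁ p₂ p₃ p₄ h0 g2 g3 g4 h1 h2 h3 h4 h5 h6
    rcases C p₁ with c | c | c | c | c
    · rcases C p₂ with d | d | d | d | d <;> try omega
      rcases C p₃ with e | e | e | e | e <;> try omega
      rcases C p₄ with f | f | f | f | f <;> try omega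
      exact hF p₄ p₃ p₂ p₁ (by omega) (by omega) (by omega) (by omega) (by omega) (by omega)
    · rcases C p₂ with d | d | d | d | d <;> try omega
      rcases C p₃ with e | e | e | e | e <;> try omega
      rcases C p₄ with f | f | f | f | f <;> try omega
      exact hF p₃ p₁ p₄ p₂ (by omega) (by omega) (by omega) (by omega) (by omega) (by omega)
    · rcases C p₂ with d | d | d | d | d <;> try omega
      rcases C p₃ with e | e | e | e | e <;> try omega
      rcases C p₄ with f | f | f | f | f <;> try omega
      exact hF p₁ p₂ p₃ p₄ (by omega) (by omega) (by omega) (by omega) (by omega) (by omega)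
    · rcases C p₂ with d | d | d | d | d <;> try omega
      rcases C p₃ with e | e | e | e | e <;> try omega
      rcases C p₄ with f | f | f | f | f <;> try omega
      exact hF p₂ p₄ p₁ p₃ (by omega) (by omega) (by omega) (by omega) (by omega) (by omega)
    · omega
  · intro z₀ z₁ z₂ z₃ g0 g1 g2 g3 h1 h2 h3 h4
    rcases C z₀ with c | c | c | c | c <;> try omega
    rcases C z₁ with d | d | d | d | d <;> try omega
    rcases C z₂ with e | e | e | e | e <;> try omega
    rcases C z₃ with f | f | f | f | f <;> try omega
    exact hF z₁ z₀ z₂ z₃ (by omega) (by omega) (by omega) (by omega) (by omega) (by omega)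
  · intro p
    constructor
    · intro h
      rcases C p with c | c | c | c | c
      · omega
      · omega
      · omega
      · omega
      · exact c.2
    · rintro rfl; simp [qd]
  · intro p hp
    rcases C p with c | c | c | c | c <;> omega
  · intro p
    rcases C p with ⟨c0, c1, c2, c3, c4⟩ | ⟨c0, c1, c2, c3, c4⟩ | ⟨c0, c1, c2, c3, c4⟩ |
      ⟨c0, c1, c2, c3, c4⟩ | ⟨c0, c1⟩
    · simp only [px, c0, c3, c4]; norm_num
    · simp only [px, c0, c3, c4]; norm_num
    · simp only [px, c0, c3, c4]; norm_num
    · simp only [px, c0, c3, c4]; norm_num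
    · subst c1; simp [px, c0]
  · intro p
    rcases C p with ⟨c0, c1, c2, c3, c4⟩ | ⟨c0, c1, c2, c3, c4⟩ | ⟨c0, c1, c2, c3, c4⟩ |
      ⟨c0, c1, c2, c3, c4⟩ | ⟨c0, c1⟩
    · simp only [py, c0, c3, c4]; norm_num
    · simp only [py, c0, c3, c4]; norm_num
    · simp only [py, c0, c3, c4]; norm_num
    · simp only [py, c0, c3, c4]; norm_num
    · subst c1; simp [py, c0]

end Pool.Agent.J4H41.AM
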