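import Pool.Agent.J4H41.AM.Cross
import Pool.Agent.J4H41.AM.Strand3
import Pool.Agent.J4H41.AM.Unroll
import Pool.Agent.J4H70.AM.Rank
import Pool.Agent.J4H41.AM.Roll

/-!
# Ranked data of a configuration, and its core
-/

namespace Pool.Agent.J4H41.AM

open Classical

section
variable {X : Type} (x y : X → ℤ) (a b : X) (q : X → ℕ) (i o r : X → ℤ) (m : ℤ)

/-- polar data with a rank function, `r a = m` -/
structure RD : Prop where
  rk : Ranked r i o
  lb : ∀ p, -5 ≤ r p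
  ra : r a = m
  m0 : 0 ≤ m
  m4 : m % 4 = 0
  q4 : ∀ p, q p ≤ 4
  qb : ∀ p, q p = 4 ↔ p = b
  ps : ∀ p, q p < 4 → 0 < i p ∧ 0 < o p
  rq : ∀ p, q p < 4 → 0 ≤ r p ∧ r p % 4 = (q p : ℤ)
  rb : r b = -5
  r2 : ∀ p p', q p < 4 → q p = q p' → o p ≤ o p' → r p ≤ r p'
  r3 : ∀ p p', q p < 4 → q p = q p' → i p ≤ i p' → r p ≤ r p'
  r4 : ∀ z p, q z < 4 → q p = (q z + 1) % 4 → o z < i p → r z + 1 ≤ r p
  r5 : ∀ z p, q z < 4 → q p = (q z + 1) % 4 → i p < o z → r p ≤ r z + 1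
  cx : ∀ p, x p = x b + px (q p) (i p) (o p)
  cy : ∀ p, y p = y b + py (q p) (i p) (o p)

end

theorem px0 (i o : ℤ) : px 0 i o = -o ∧ py 0 i o = -i := by simp [px, py]
theorem px1 (i o : ℤ) : px 1 i o = -i ∧ py 1 i o = o := by simp [px, py]
theorem px2 (i o : ℤ) : px 2 i o = o ∧ py 2 i o = i := by simp [px, py]
theorem px3 (i o : ℤ) : px 3 i o = i ∧ py 3 i o = -o := by simp [px, py]
theorem px4 (i o : ℤ) : px 4 i o = 0 ∧ py 4 i o = 0 := by simp [px, py]

/-- case distinction on the quadrant -/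
theorem quad {s : ℕ} (i o : ℤ) (h : s ≤ 4) :
    (s = 0 ∧ px s i o = -o ∧ py s i o = -i) ∨ (s = 1 ∧ px s i o = -i ∧ py s i o = o) ∨
    (s = 2 ∧ px s i o = o ∧ py s i o = i) ∨ (s = 3 ∧ px s i o = i ∧ py s i o = -o) ∨
    (s = 4 ∧ px s i o = 0 ∧ py s i o = 0) := by
  have : s = 0 ∨ s = 1 ∨ s = 2 ∨ s = 3 ∨ s = 4 := by omega
  rcases this with rfl | rfl | rfl | rfl | rfl
  · exact Or.inl ⟨rfl, px0 i o⟩
  · exact Or.inr (Or.inl ⟨rfl, px1 i o⟩)
  · exact Or.inr (Or.inr (Or.inl ⟨rfl, px2 i o⟩))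
  · exact Or.inr (Or.inr (Or.inr (Or.inl ⟨rfl, px3 i o⟩)))
  · exact Or.inr (Or.inr (Or.inr (Or.inr ⟨rfl, px4 i o⟩)))

/-- existence of ranked data -/
theorem exists_RD {X : Type} [Finite X] {x y : X → ℤ} {a b : X} (hx : Function.Injective x)
    (hy : Function.Injective y) (hF : Free x y) (hax : x a < x b) (hay : y a < y b) :
    ∃ (q : X → ℕ) (i o : X → ℤ) (ρ : ℤ), ∀ m, ρ ≤ m → m % 4 = 0 →
      ∃ r : X → ℤ, RD x y a b q i o r m := by
  obtain ⟨q, i, o, hP, h4, hb, hps, cx, cy⟩ := t_UNROLL X x y b hx hy hF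
  have hne : ∀ z p, q z < 4 → q p = (q z + 1) % 4 → o z ≠ i p := by
    intro z p h1 h2 h3
    have hzp : z ≠ p := by rintro rfl; omega
    have e1 : x z ≠ x p := fun h => hzp (hx h)
    have e2 : y z ≠ y p := fun h => hzp (hy h)
    have g1 := cx z; have g2 := cy z; have g3 := cx p; have g4 := cy p
    rcases quad (i z) (o z) (h4 z) with ⟨c, d, e⟩ | ⟨c, d, e⟩ | ⟨c, d, e⟩ | ⟨c, d, e⟩ | ⟨c, d, e⟩ <;>
    rcases quad (i p) (o p) (h4 p) with ⟨c', d', e'⟩ | ⟨c', d', e'⟩ | ⟨c', d', e'⟩ |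
      ⟨c', d', e'⟩ | ⟨c', d', e'⟩ <;> omega
  obtain ⟨r, k1, k2, k3, k4, k5, k6⟩ := Pool.Agent.J4H70.AM.t_RANK X q i o h4 hP hne
  have hqa : q a = 0 := by
    have g1 := cx a; have g2 := cy a; have g3 := hps a
    rcases quad (i a) (o a) (h4 a) with ⟨c, d, e⟩ | ⟨c, d, e⟩ | ⟨c, d, e⟩ | ⟨c, d, e⟩ |
      ⟨c, d, e⟩ <;> omega
  have hra := k2 a (by omega)
  rw [hqa] at hra
  refine ⟨q, i, o, r a, fun m hm hm4 => ?_⟩
  let r' : X → ℤ := fun p => if q p = 4 then -5 else r p + (m - r a)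
  have e4 : ∀ p, q p = 4 → r' p = -5 := fun p h => by simp [r', h]
  have e5 : ∀ p, q p < 4 → r' p = r p + (m - r a) := fun p h => by
    have : q p ≠ 4 := by omega
    simp [r', this]
  have e6 : ∀ p, (q p = 4 ∧ r' p = -5 ∧ p = b) ∨
      (q p < 4 ∧ r' p = r p + (m - r a) ∧ 0 ≤ r' p ∧ r' p % 4 = (q p : ℤ)) := by
    intro p
    rcases (h4 p).lt_or_eq with h | h
    · right
      have := k2 p h
      have e := e5 p h
      refine ⟨h, e, by omega, by omega⟩
    · exact Or.inl ⟨h, e4 p h, (hb p).1 h⟩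
  have hR : Ranked r' i o := by
    refine ⟨?_, ?_, ?_, ?_, ?_, ?_⟩
    · intro p p' h1 h2
      rcases e6 p with ⟨_, f1, f2⟩ | ⟨f0, _, f1, f2⟩ <;>
      rcases e6 p' with ⟨_, g1, g2⟩ | ⟨g0, _, g1, g2⟩
      · rw [f2, g2]
      · omega
      · omega
      · have hq : q p = q p' := by omega
        have u1 := cx p; have u2 := cy p; have u3 := cx p'; have u4 := cy p'
        rcases quad (i p) (o p) (h4 p) with ⟨c, d, e⟩ | ⟨c, d, e⟩ | ⟨c, d, e⟩ | ⟨c, d, e⟩ |
          ⟨c, d, e⟩ <;>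
        rcases quad (i p') (o p') (h4 p') with ⟨c', d', e'⟩ | ⟨c', d', e'⟩ | ⟨c', d', e'⟩ |
          ⟨c', d', e'⟩ | ⟨c', d', e'⟩ <;> first | omega | (apply hx; omega) | (apply hy; omega)
    · intro p p' h1 h2
      rcases e6 p with ⟨_, f1, f2⟩ | ⟨f0, _, f1, f2⟩ <;>
      rcases e6 p' with ⟨_, g1, g2⟩ | ⟨g0, _, g1, g2⟩
      · rw [f2, g2]
      · omega
      · omega
      · have hq : q p = q p' := by omega
        have u1 := cx p; have u2 := cy p; have u3 := cx p'; have u4 := cy p'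
        rcases quad (i p) (o p) (h4 p) with ⟨c, d, e⟩ | ⟨c, d, e⟩ | ⟨c, d, e⟩ | ⟨c, d, e⟩ |
          ⟨c, d, e⟩ <;>
        rcases quad (i p') (o p') (h4 p') with ⟨c', d', e'⟩ | ⟨c', d', e'⟩ | ⟨c', d', e'⟩ |
          ⟨c', d', e'⟩ | ⟨c', d', e'⟩ <;> first | omega | (apply hx; omega) | (apply hy; omega)
    · intro z p h1
      rcases e6 z with ⟨_, f1, f2⟩ | ⟨f0, _, f1, f2⟩ <;>
      rcases e6 p with ⟨_, g1, g2⟩ | ⟨g0, _, g1, g2⟩
      · omega
      · omega
      · omega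
      · exact hne z p f0 (by omega)
    · intro z p₁ p₂ h1 h2
      rcases e6 z with ⟨_, f1, f2⟩ | ⟨f0, _, f1, f2⟩ <;>
      rcases e6 p₁ with ⟨_, g1, g2⟩ | ⟨g0, _, g1, g2⟩ <;>
      rcases e6 p₂ with ⟨_, j1, j2⟩ | ⟨j0, _, j1, j2⟩ <;> try omega
      exact hP.R z p₁ p₂ f0 (by omega) (by omega)
    · intro u v w p h1 h2 h3 h5 h6
      rcases e6 u with ⟨_, f1, f2⟩ | ⟨f0, _, f1, f2⟩ <;>
      rcases e6 v with ⟨_, g1, g2⟩ | ⟨g0, _, g1, g2⟩ <;>
      rcases e6 w with ⟨_, j1, j2⟩ | ⟨j0, _, j1, j2⟩ <;>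
      rcases e6 p with ⟨_, l1, l2⟩ | ⟨l0, _, l1, l2⟩ <;> try omega
      exact hP.F u v w p f0 (by omega) (by omega) (by omega) h5 h6
    · intro u v w p h1 h2 h3 h5 h6
      rcases e6 u with ⟨f0, f1, f2⟩ | ⟨f0, _, f1, f2⟩ <;>
      rcases e6 v with ⟨g0, g1, g2⟩ | ⟨g0, _, g1, g2⟩ <;>
      rcases e6 w with ⟨j0, j1, j2⟩ | ⟨j0, _, j1, j2⟩ <;>
      rcases e6 p with ⟨l0, l1, l2⟩ | ⟨l0, _, l1, l2⟩ <;> try omega
      · subst f2; subst g2; omega
      · exact hP.I u v w p f0 (by omega) (by omega) (by omega) h5 h6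
  refine ⟨r', hR, ?_, ?_, by omega, hm4, h4, hb, hps, ?_, ?_, ?_, ?_, ?_, ?_, cx, cy⟩
  · intro p
    rcases e6 p with ⟨_, g1, g2⟩ | ⟨g0, _, g1, g2⟩ <;> omega
  · rw [e5 a (by omega)]; ring
  · intro p hp
    rcases e6 p with ⟨_, g1, g2⟩ | ⟨g0, _, g1, g2⟩
    · omega
    · exact ⟨g1, g2⟩
  · exact e4 b ((hb b).2 rfl)
  · intro p p' h1 h2 h3
    rw [e5 p h1, e5 p' (by omega)]
    have := k3 p p' h1 h2 h3; omega
  · intro p p' h1 h2 h3
    rw [e5 p h1, e5 p' (by omega)]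
    have := k4 p p' h1 h2 h3; omega
  · intro p p' h1 h2 h3
    rw [e5 p h1, e5 p' (by omega)]
    have := k5 p p' h1 h2 h3; omega
  · intro p p' h1 h2 h3
    rw [e5 p h1, e5 p' (by omega)]
    have := k6 p p' h1 h2 h3; omega

section
variable {X : Type} {x y : X → ℤ} {a b : X} {q : X → ℕ} {i o r : X → ℤ} {m : ℤ}

theorem SameGap.trans {p p' p'' : X} (R : Ranked r i o) (h : SameGap r i o p p')
    (h' : SameGap r i o p' p'') (hr : r p = r p') : SameGap r i o p p'' := by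
  intro z hz
  have g1 := h z hz
  have g2 := h' z (by omega)
  have n1 := R.ne z p' (by omega)
  constructor <;> rintro ⟨h5, h6⟩ <;> rcases lt_trichotomy (o z) (i p') with h7 | h7 | h7 <;>
    first
      | exact n1 h7
      | omega

/-- representative of its gap -/
def IsRep (r i o : X → ℤ) (p : X) : Prop := ∀ p', r p' = r p → SameGap r i o p p' → i p ≤ i p'

/-- the core -/
def Core (r i o : X → ℤ) (a b p : X) : Prop :=
  p = b ∨ Seg r i o a p ∨ (Cut r i o a p ∧ IsRep r i o p)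

theorem RD.seg (D : RD x y a b q i o r m) {s : X} (h : Seg r i o a s) :
    q s = 0 ∧ x s = x b - o s ∧ y s = y b - i s ∧ 0 < i s ∧ 0 < o s ∧ r s = m := by
  have h1 := h.1
  have h2 := D.ra
  have h3 := D.m0
  have h4 := D.m4
  have h5 := D.rb
  have h6 : q s < 4 := by
    rcases (D.q4 s).lt_or_eq with h | h
    · exact h
    · have := (D.qb s).1 h
      subst this; omega
  have h7 := D.rq s h6
  have h8 : q s = 0 := by omega
  have h9 := D.cx s
  have h10 := D.cy s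
  rw [h8, (px0 _ _).1] at h9
  rw [h8, (px0 _ _).2] at h10
  have h11 := D.ps s h6
  exact ⟨h8, by omega, by omega, h11.1, h11.2, by omega⟩

theorem RD.cut (D : RD x y a b q i o r m) {s : X} (h : Cut r i o a s) :
    q s = 1 ∧ x s = x b - i s ∧ y s = y b + o s ∧ 0 < i s ∧ 0 < o s ∧ r s = m + 1 := by
  have h1 := h.1
  have h2 := D.ra
  have h3 := D.m0
  have h4 := D.m4
  have h5 := D.rb
  have h6 : q s < 4 := by
    rcases (D.q4 s).lt_or_eq with h | h
    · exact h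
    · have := (D.qb s).1 h
      subst this; omega
  have h7 := D.rq s h6
  have h8 : q s = 1 := by omega
  have h9 := D.cx s
  have h10 := D.cy s
  rw [h8, (px1 _ _).1] at h9
  rw [h8, (px1 _ _).2] at h10
  have h11 := D.ps s h6
  exact ⟨h8, by omega, by omega, h11.1, h11.2, by omega⟩

/-- every cutting element has a representative -/
theorem exists_rep [Finite X] (R : Ranked r i o) (p : X) : ∃ g, (Cut r i o a p → Cut r i o a g ∧
    IsRep r i o g ∧ SameGap r i o p g ∧ r g = r p) ∧ (¬ Cut r i o a p → g = p) := by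
  by_cases h : Cut r i o a p
  · have hfin : ({g | r g = r p ∧ SameGap r i o p g} : Set X).Finite := Set.toFinite _
    obtain ⟨g, ⟨hg1, hg2⟩, hg3⟩ := Set.exists_min_image _ i hfin ⟨p, rfl, fun z _ => ⟨by omega, by omega⟩⟩
    refine ⟨g, fun _ => ⟨?_, ?_, hg2, hg1⟩, fun h' => absurd h h'⟩
    · obtain ⟨h1, ⟨s, s1, s2⟩, ⟨t, t1, t2⟩⟩ := h
      refine ⟨by omega, ⟨s, s1, ?_⟩, ⟨t, t1, ?_⟩⟩
      · have h2 := hg2 s (by rw [s1.1]; exact h1)
        have h3 := R.ne s g (by rw [s1.1]; omega)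
        omega
      · have h2 := hg2 t (by rw [t1.1]; exact h1)
        have h3 := R.ne t g (by rw [t1.1]; omega)
        omega
    · intro p' h1 h2
      exact hg3 p' ⟨by omega, hg2.trans R h2 hg1.symm⟩
  · exact ⟨p, fun h' => absurd h' h, fun _ => rfl⟩

/-- the part of irreducibility seen from `b` -/
def Half (x y : X → ℤ) (b : X) : Prop :=
  (∀ p, p ≠ b → x p < x b) ∧
    ∀ p p', y b < y p → y b < y p' → x p < x p' → y p' < y p

theorem RD.half (D : RD x y a b q i o r m) (hc : ∀ p, Core r i o a b p) : Half x y b := by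
  constructor
  · intro p hp
    rcases hc p with h | h | h
    · exact absurd h hp
    · have := D.seg h; omega
    · have := D.cut h.1; omega
  · intro p p' h1 h2 h3
    have key : ∀ p, y b < y p → Cut r i o a p ∧ IsRep r i o p := by
      intro p hp
      rcases hc p with h | h | h
      · subst h; omega
      · have := D.seg h; omega
      · exact h
    obtain ⟨c1, c2⟩ := key p h1
    obtain ⟨d1, d2⟩ := key p' h2
    have e1 := D.cut c1
    have e2 := D.cut d1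
    have hg : ¬ SameGap r i o p p' := by
      intro hg
      have f1 := c2 p' (by omega) hg
      have hg' : SameGap r i o p' p := fun z hz => ⟨(hg z (by omega)).2, (hg z (by omega)).1⟩
      have f2 := d2 p (by omega) hg'
      omega
    unfold SameGap at hg
    push Not at hg
    obtain ⟨z, hz1, hz2⟩ := hg
    have : i p' < o z ∧ o z < i p := by
      by_contra hcon
      have := hz2 (by omega)
      omega
    have h9 := D.rk.R z p' p (by omega) hz1 this.1 this.2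
    omega

end

end Pool.Agent.J4H41.AM
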