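import Pool.Agent.J4H41.AM.Merge

/-!
# The merged labels of one of the two configurations
-/

namespace Pool.Agent.J4H41.AM

open Classical

section
variable {X : Type} (r i o : X → ℤ) (a : X) (B : ℤ) (pos yp kin kout : X → ℤ) (enc : ℤ → ℤ)
  (cc : X → ℤ)

/-- merged in-label -/
noncomputable def KI (p : X) : ℤ :=
  if r p < r a ∧ kin p = 0 then cc p else if Seg r i o a p then yp p else enc (kin p)

/-- merged out-label -/
def KO (p : X) : ℤ := enc (kout p)

/-- tie-breaking in-coordinate -/
noncomputable def TI (p : X) : ℤ := if Seg r i o a p then 0 else i p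

/-- tie-breaking out-coordinate -/
noncomputable def TO (p : X) : ℤ := if Seg r i o a p then 0 else o p

/-- data of one of the two configurations -/
structure Side : Prop where
  rk : Ranked r i o
  st : Strand r i o a B pos kin kout
  hB : 0 < B
  encm : ∀ k k', k < k' → enc k < enc k'
  enc1 : ∀ k, 4 * k ≤ enc k ∧ enc k ≤ 4 * k + 1
  enc0 : ∀ k, 0 ≤ k → k < B → enc k = 4 * k
  cc0 : ∀ p, 0 ≤ cc p ∧ cc p ≤ 2
  ccm : ∀ p p', r p = r p' → r p < r a → kin p = 0 → kin p' = 0 → i p < i p' → cc p ≤ cc p'
  posr : ∀ p, Seg r i o a p ∨ Cut r i o a p → 0 ≤ pos p ∧ pos p < B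
  ypr : ∀ p, Seg r i o a p → 0 ≤ yp p ∧ yp p < B
  pss : ∀ s s', Seg r i o a s → Seg r i o a s' → o s < o s' → pos s < pos s'
  psg : ∀ s g, Seg r i o a s → Cut r i o a g → o s < i g → pos s < pos g
  pgs : ∀ s g, Seg r i o a s → Cut r i o a g → i g < o s → pos g < pos s
  ypm : ∀ s s', Seg r i o a s → Seg r i o a s' → i s < i s' → yp s < yp s'

variable {r i o a B pos yp kin kout enc cc}

theorem Side.encle (S : Side r i o a B pos yp kin kout enc cc) {k k' : ℤ} (h : k ≤ k') :
    enc k ≤ enc k' := by
  rcases h.lt_or_eq with h | h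
  · exact (S.encm _ _ h).le
  · rw [h]

/-- classification of the elements of one side -/
theorem Side.cls (S : Side r i o a B pos yp kin kout enc cc) (p : X) :
    ( -- chain
      r p < r a ∧ kin p = 0 ∧ KI r i o a yp kin enc cc p = cc p ∧ TI r i o a p = i p ∧
        TO r i o a p = o p ∧ (kout p = (r a - r p) * B ∨ kout p = -((r a - r p) * B))) ∨
    ( -- segment
      Seg r i o a p ∧ KI r i o a yp kin enc cc p = yp p ∧ KO kout enc p = 4 * pos p ∧
        kout p = pos p ∧ kin p = 0 ∧ TI r i o a p = 0 ∧ TO r i o a p = 0) ∨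
    ( -- strand
      ¬ Seg r i o a p ∧ ¬ (r p < r a ∧ kin p = 0) ∧ KI r i o a yp kin enc cc p = KO kout enc p ∧
        kin p = kout p ∧ TI r i o a p = i p ∧ TO r i o a p = o p ∧
        (r p ≤ r a → ((r a - r p + 1) * B ≤ kout p ∨ kout p ≤ -((r a - r p + 1) * B))) ∧
        (r a < r p → (B ≤ kout p ∨ kout p ≤ -B ∨ ∃ g, Cut r i o a g ∧ kout p = pos g)) ∧
        (r p = r a + 1 → (Cut r i o a p ∧ kout p = pos p) ∨
          (¬ Cut r i o a p ∧ (B ≤ kout p ∨ kout p ≤ -B)))) := by
  have hB := S.hB
  rcases lt_trichotomy (r p) (r a) with h | h | h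
  · have hns : ¬ Seg r i o a p := fun hs => by have := hs.1; omega
    have hd : B ≤ (r a - r p) * B := by nlinarith
    have e : (r a - r p + 1) * B = (r a - r p) * B + B := by ring
    rcases S.st.p4 p h with ⟨h1, h2⟩ | ⟨h1, h2⟩
    · left
      refine ⟨h, h1, ?_, ?_, ?_, h2⟩
      · simp [KI, h, h1]
      · simp [TI, hns]
      · simp [TO, hns]
    · right; right
      have hk : kin p ≠ 0 := by omega
      refine ⟨hns, fun h' => hk h'.2, ?_, h1, ?_, ?_, fun _ => h2, fun h' => by omega,
        fun h' => by omega⟩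
      · have hq : ¬ (r p < r a ∧ kin p = 0) := fun h' => hk h'.2
        simp only [KI, KO, if_neg hq, if_neg hns]
        rw [h1]
      · simp [TI, hns]
      · simp [TO, hns]
  · rcases S.st.p5 p h with ⟨h1, h2, h3⟩ | ⟨h1, h2, h3⟩
    · right; left
      have hpos := S.posr p (Or.inl h1)
      refine ⟨h1, ?_, ?_, h3, h2, ?_, ?_⟩
      · simp [KI, h, h1]
      · simp only [KO, h3]
        exact S.enc0 _ hpos.1 hpos.2
      · simp [TI, h1]
      · simp [TO, h1]
    · right; right
      refine ⟨h1, fun h' => by omega, ?_, h2, ?_, ?_, ?_, fun h' => by omega,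
        fun h' => by omega⟩
      · simp [KI, KO, h, h1, h2]
      · simp [TI, h1]
      · simp [TO, h1]
      · intro _
        have : (r a - r p + 1) * B = B := by rw [h]; ring
        rw [this]; exact h3
  · have hns : ¬ Seg r i o a p := fun hs => by have := hs.1; omega
    right; right
    have h67 : kin p = kout p ∧
        (B ≤ kout p ∨ kout p ≤ -B ∨ ∃ g, Cut r i o a g ∧ kout p = pos g) := by
      by_cases h' : r p = r a + 1
      · rcases S.st.p6 p h' with ⟨h1, h2, h3⟩ | ⟨h1, h2, h3⟩
        · exact ⟨h2, Or.inr (Or.inr ⟨p, h1, h3⟩)⟩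
        · refine ⟨h2, ?_⟩
          rcases h3 with h3 | h3
          · exact Or.inl h3
          · exact Or.inr (Or.inl h3)
      · exact S.st.p7 p (by omega)
    refine ⟨hns, fun h' => by omega, ?_, h67.1, ?_, ?_, fun h' => by omega, fun _ => h67.2, ?_⟩
    · have : ¬ (r p < r a) := by omega
      simp [KI, KO, this, hns, h67.1]
    · simp [TI, hns]
    · simp [TO, hns]
    · intro h'
      rcases S.st.p6 p h' with ⟨h1, h2, h3⟩ | ⟨h1, h2, h3⟩
      · exact Or.inl ⟨h1, h3⟩
      · exact Or.inr ⟨h1, h3⟩

theorem Side.big (S : Side r i o a B pos yp kin kout enc cc) {p : X} (h : r p ≤ r a)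
    (hs : ¬ Seg r i o a p) : B ≤ kout p ∨ kout p ≤ -B := by
  have hB := S.hB
  rcases S.cls p with ⟨c1, _, _, _, _, c2⟩ | ⟨c1, _⟩ | ⟨_, _, _, _, _, _, c, _, _⟩
  · have : B ≤ (r a - r p) * B := by nlinarith
    omega
  · exact absurd c1 hs
  · have := c h
    have : B ≤ (r a - r p + 1) * B := by nlinarith
    omega

theorem Side.eO (S : Side r i o a B pos yp kin kout enc cc) {s t : X} (hr : r s = r t)
    (h : o s < o t) : Lx (KO kout enc s) (TO r i o a s) (KO kout enc t) (TO r i o a t) := by
  have hB := S.hB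
  have h1 := S.st.p1 s t hr h
  rcases h1.lt_or_eq with h1 | h1
  · left; exact S.encm _ _ h1
  · by_cases hs : Seg r i o a s
    · by_cases ht : Seg r i o a t
      · exfalso
        have := S.pss s t hs ht h
        rcases S.cls s with c | ⟨_, _, _, c, _⟩ | ⟨c, _⟩
        · have := hs.1; omega
        · rcases S.cls t with c' | ⟨_, _, _, c', _⟩ | ⟨c', _⟩
          · have := ht.1; omega
          · omega
          · exact c' ht
        · exact c hs
      · exfalso
        have h2 := S.big (p := t) (by have := hs.1; omega) ht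
        have h3 := S.posr s (Or.inl hs)
        rcases S.cls s with c | ⟨_, _, _, c, _⟩ | ⟨c, _⟩
        · have := hs.1; omega
        · omega
        · exact c hs
    · by_cases ht : Seg r i o a t
      · exfalso
        have h2 := S.big (p := s) (by have := ht.1; omega) hs
        have h3 := S.posr t (Or.inl ht)
        rcases S.cls t with c | ⟨_, _, _, c, _⟩ | ⟨c, _⟩
        · have := ht.1; omega
        · omega
        · exact c ht
      · right
        refine ⟨by simp [KO, h1], ?_⟩
        simpa [TO, hs, ht] using h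

theorem Side.eI (S : Side r i o a B pos yp kin kout enc cc) {s t : X} (hr : r s = r t)
    (h : i s < i t) : Lx (KI r i o a yp kin enc cc s) (TI r i o a s)
      (KI r i o a yp kin enc cc t) (TI r i o a t) := by
  have hB := S.hB
  have h1 := S.st.p2 s t hr h
  have es := S.enc1 (kout s)
  have et := S.enc1 (kout t)
  have cs := S.cc0 s
  have ct := S.cc0 t
  rcases S.cls s with ⟨a1, a2, a3, a4, a5, a6⟩ | ⟨a1, a2, a3, a4, a5, a6, a7⟩ |
    ⟨a1, a2, a3, a4, a5, a6, a7, a8, a9⟩ <;>
  rcases S.cls t with ⟨b1, b2, b3, b4, b5, b6⟩ | ⟨b1, b2, b3, b4, b5, b6, b7⟩ |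
    ⟨b1, b2, b3, b4, b5, b6, b7, b8, b9⟩
  · rw [a3, b3, a4, b4]
    rcases (S.ccm s t hr a1 a2 b2 h).lt_or_eq with h' | h'
    · exact Or.inl h'
    · exact Or.inr ⟨h', h⟩
  · exact absurd b1.1 (by omega)
  · left
    have := S.big (p := t) (by omega) b1
    rw [a3, b3]; simp only [KO]; omega
  · exact absurd a1.1 (by omega)
  · left
    rw [a2, b2]; exact S.ypm s t a1 b1 h
  · left
    have := a1.1
    have := S.big (p := t) (by omega) b1
    have := S.ypr s a1
    rw [a2, b3]; simp only [KO]; omega
  · left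
    have := S.big (p := s) (by omega) a1
    rw [a3, b3]; simp only [KO]; omega
  · left
    have := b1.1
    have := S.big (p := s) (by omega) a1
    have := S.ypr t b1
    rw [a3, b2]; simp only [KO]; omega
  · rw [a3, b3, a5, b5]
    rcases (show kout s ≤ kout t by omega).lt_or_eq with h' | h'
    · left; exact S.encm _ _ h'
    · right; exact ⟨by simp [KO, h'], h⟩

theorem Side.eOI (S : Side r i o a B pos yp kin kout enc cc) {z p : X} (hr : r p = r z + 1)
    (h : o z < i p) : Lx (KO kout enc z) (TO r i o a z)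
      (KI r i o a yp kin enc cc p) (TI r i o a p) := by
  have hB := S.hB
  have h1 := S.st.p3 z p hr h
  have es := S.enc1 (kout z)
  have et := S.enc1 (kout p)
  have ct := S.cc0 p
  rcases S.cls p with ⟨b1, b2, b3, b4, b5, b6⟩ | ⟨b1, b2, b3, b4, b5, b6, b7⟩ |
    ⟨b1, b2, b3, b4, b5, b6, b7, b8, b9⟩
  · left
    have := S.big (p := z) (by omega) (fun h' => by have := h'.1; omega)
    rw [b3]; simp only [KO]; omega
  · left
    have := b1.1
    have := S.big (p := z) (by omega) (fun h' => by have := h'.1; omega)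
    have := S.ypr p b1
    rw [b2]; simp only [KO]; omega
  · rw [b3, b5]
    by_cases hz : Seg r i o a z
    · left
      have hz1 := hz.1
      have hk : kout z = pos z := by
        rcases S.cls z with c | ⟨_, _, _, c, _⟩ | ⟨c, _⟩
        · omega
        · exact c
        · exact absurd hz c
      have hp := S.posr z (Or.inl hz)
      apply S.encm
      rcases b9 (by omega) with ⟨c1, c2⟩ | ⟨c1, c2⟩
      · have := S.psg z p hz c1 h
        omega
      · omega
    · rcases (show kout z ≤ kout p by omega).lt_or_eq with h' | h'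
      · left; exact S.encm _ _ h'
      · right
        refine ⟨by simp [KO, h'], ?_⟩
        simpa [TO, hz] using h

theorem Side.eIO (S : Side r i o a B pos yp kin kout enc cc) {z p : X} (hr : r p = r z + 1)
    (h : i p < o z) : Lx (KI r i o a yp kin enc cc p) (TI r i o a p)
      (KO kout enc z) (TO r i o a z) := by
  have hB := S.hB
  have h1 := S.st.p3' z p hr h
  have es := S.enc1 (kout z)
  have et := S.enc1 (kout p)
  have ct := S.cc0 p
  rcases S.cls p with ⟨b1, b2, b3, b4, b5, b6⟩ | ⟨b1, b2, b3, b4, b5, b6, b7⟩ |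
    ⟨b1, b2, b3, b4, b5, b6, b7, b8, b9⟩
  · left
    have := S.big (p := z) (by omega) (fun h' => by have := h'.1; omega)
    rw [b3]; simp only [KO]; omega
  · left
    have := b1.1
    have := S.big (p := z) (by omega) (fun h' => by have := h'.1; omega)
    have := S.ypr p b1
    rw [b2]; simp only [KO]; omega
  · rw [b3, b5]
    by_cases hz : Seg r i o a z
    · left
      have hz1 := hz.1
      have hk : kout z = pos z := by
        rcases S.cls z with c | ⟨_, _, _, c, _⟩ | ⟨c, _⟩
        · omega
        · exact c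
        · exact absurd hz c
      have hp := S.posr z (Or.inl hz)
      apply S.encm
      rcases b9 (by omega) with ⟨c1, c2⟩ | ⟨c1, c2⟩
      · have := S.pgs z p hz c1 h
        omega
      · omega
    · rcases (show kout p ≤ kout z by omega).lt_or_eq with h' | h'
      · left; exact S.encm _ _ h'
      · right
        refine ⟨by simp [KO, h'], ?_⟩
        simpa [TO, hz] using h

end

end Pool.Agent.J4H41.AM
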