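import Pool.Agent.J4H41.AM.Defs

/-!
# Construction of the labels (job STRAND)
-/

namespace Pool.Agent.J4H41.AM

open Classical

section
variable {X : Type} (r i o : X → ℤ) (a : X)

/-- the chain through `a` -/
inductive IsC : X → Prop
  | base : IsC a
  | step {d m : X} : IsC d → r d = r m + 1 → o m < i d →
      (∀ z, r z = r m → o z < i d → i z ≤ i m) → IsC m

/-- chain segments -/
def CC (p : X) : Prop := r p ≤ r a ∧ ∃ c, IsC r i o a c ∧ r c = r p ∧ SameGap r i o p c

/-- maximal label among the predecessors -/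
noncomputable def lo [Fintype X] (D : ℤ) (f : X → ℤ) (p : X) : ℤ :=
  -D + ((Finset.univ.sup fun z : X => if r p = r z + 1 ∧ o z < i p then (f z + D).toNat else 0 : ℕ) : ℤ)

/-- minimal label among the successors -/
noncomputable def hi [Fintype X] (D : ℤ) (f : X → ℤ) (p : X) : ℤ :=
  D - ((Finset.univ.sup fun z : X => if r p = r z + 1 ∧ i p < o z then (D - f z).toNat else 0 : ℕ) : ℤ)

variable {r i o a}

theorem IsC.rank {m : X} (h : IsC r i o a m) : r m ≤ r a ∧ (r m = r a → m = a) := by
  induction h with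
  | base => exact ⟨le_refl _, fun _ => rfl⟩
  | step h h1 h2 h3 ih => exact ⟨by have := ih.1; omega, fun h' => by have := ih.1; omega⟩

theorem IsC.pred {m : X} (h : IsC r i o a m) (hr : r m < r a) :
    ∃ d, IsC r i o a d ∧ r d = r m + 1 ∧ o m < i d ∧ ∀ z, r z = r m → o z < i d → i z ≤ i m := by
  cases h with
  | base => omega
  | step h h1 h2 h3 => exact ⟨_, h, h1, h2, h3⟩

theorem IsC.unique (R : Ranked r i o) {m m' : X} (h : IsC r i o a m) (h' : IsC r i o a m')
    (hr : r m = r m') : m = m' := by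
  induction h generalizing m' with
  | base => exact (h'.rank.2 hr.symm).symm
  | @step d m h h1 h2 h3 ih =>
    have h4 := h.rank.1
    obtain ⟨d', g0, g1, g2, g3⟩ := h'.pred (by omega)
    have hd := ih g0 (by omega)
    subst hd
    exact R.ii m m' hr (le_antisymm (g3 m hr h2) (h3 m' hr.symm g2))

theorem IsC.next [Finite X] {d z : X} (h : IsC r i o a d) (hz : r d = r z + 1) (ho : o z < i d) :
    ∃ m, IsC r i o a m ∧ r m = r z ∧ o m < i d ∧ ∀ z', r z' = r m → o z' < i d → i z' ≤ i m := by
  have hfin : ({p | r p = r z ∧ o p < i d} : Set X).Finite := Set.toFinite _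
  obtain ⟨m, ⟨hm1, hm2⟩, hm3⟩ := Set.exists_max_image _ i hfin ⟨z, rfl, ho⟩
  have h3 : ∀ z', r z' = r m → o z' < i d → i z' ≤ i m := fun z' h1 h2 => hm3 z' ⟨by omega, h2⟩
  exact ⟨m, IsC.step h (by omega) hm2 h3, hm1, hm2, h3⟩

variable [Fintype X] {D : ℤ} {f : X → ℤ}

theorem le_lo {p z : X} (h1 : r p = r z + 1) (h2 : o z < i p) : f z ≤ lo r i o D f p := by
  have h := Finset.le_sup (f := fun z : X => if r p = r z + 1 ∧ o z < i p then (f z + D).toNat else 0)
    (Finset.mem_univ z)
  simp only [h1, h2, and_self, if_true] at h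
  unfold lo
  rw [h1]
  omega

theorem lo_ge (p : X) : -D ≤ lo r i o D f p := by
  unfold lo; omega

theorem lo_le {p : X} {M : ℤ} (h1 : ∀ z, r p = r z + 1 → o z < i p → f z ≤ M) (h2 : -D ≤ M) :
    lo r i o D f p ≤ M := by
  have h : (Finset.univ.sup fun z : X => if r p = r z + 1 ∧ o z < i p then (f z + D).toNat else 0) ≤
      (M + D).toNat := by
    apply Finset.sup_le
    intro z _
    split_ifs with hz
    · have := h1 z hz.1 hz.2; omega
    · omega
  unfold lo; omega

theorem lo_cases (p : X) (h : ∀ z, -D ≤ f z) : lo r i o D f p = -D ∨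
    ∃ z, r p = r z + 1 ∧ o z < i p ∧ lo r i o D f p = f z := by
  obtain ⟨z, -, hz⟩ := Finset.exists_mem_eq_sup (Finset.univ : Finset X) ⟨p, Finset.mem_univ p⟩
    (fun z : X => if r p = r z + 1 ∧ o z < i p then (f z + D).toNat else 0)
  by_cases hc : r p = r z + 1 ∧ o z < i p
  · right
    refine ⟨z, hc.1, hc.2, ?_⟩
    rw [if_pos hc] at hz
    have := h z
    unfold lo; rw [hz]; omega
  · left
    rw [if_neg hc] at hz
    unfold lo; rw [hz]; simp

theorem hi_le {p z : X} (h1 : r p = r z + 1) (h2 : i p < o z) : hi r i o D f p ≤ f z := by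
  have h := Finset.le_sup (f := fun z : X => if r p = r z + 1 ∧ i p < o z then (D - f z).toNat else 0)
    (Finset.mem_univ z)
  simp only [h1, h2, and_self, if_true] at h
  unfold hi
  rw [h1]
  omega

theorem hi_le_D (p : X) : hi r i o D f p ≤ D := by
  unfold hi; omega

theorem le_hi {p : X} {M : ℤ} (h1 : ∀ z, r p = r z + 1 → i p < o z → M ≤ f z) (h2 : M ≤ D) :
    M ≤ hi r i o D f p := by
  have h : (Finset.univ.sup fun z : X => if r p = r z + 1 ∧ i p < o z then (D - f z).toNat else 0) ≤
      (D - M).toNat := by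
    apply Finset.sup_le
    intro z _
    split_ifs with hz
    · have := h1 z hz.1 hz.2; omega
    · omega
  unfold hi; omega

end

section
variable {X : Type} [Fintype X] (r i o : X → ℤ) (a : X) (B : ℤ) (pos : X → ℤ)

/-- the input of the construction -/
structure SI : Prop where
  R : Ranked r i o
  lb : ∀ p, -5 ≤ r p
  ha : 0 ≤ r a
  hB : 0 < B
  posr : ∀ p, Seg r i o a p ∨ Cut r i o a p → 0 ≤ pos p ∧ pos p < B
  pss : ∀ s s', Seg r i o a s → Seg r i o a s' → o s < o s' → pos s < pos s'
  psg : ∀ s g, Seg r i o a s → Cut r i o a g → o s < i g → pos s < pos g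
  pgs : ∀ s g, Seg r i o a s → Cut r i o a g → i g < o s → pos g < pos s
  pgg : ∀ g g', Cut r i o a g → Cut r i o a g' → i g < i g' → pos g ≤ pos g'
  pge : ∀ g g', Cut r i o a g → Cut r i o a g' → SameGap r i o g g' → pos g = pos g'

/-- the recursion -/
noncomputable def Phi (f : X → ℤ) (p : X) : ℤ :=
  if r p ≤ r a then
    if CC r i o a p then
      if r p = r a then pos p
      else if ∃ d, IsC r i o a d ∧ r d = r p + 1 ∧ o p < i d then -((r a - r p) * B)
      else (r a - r p) * B
    else if ∃ c, IsC r i o a c ∧ r c = r p ∧ i p < i c then lo r i o ((r a + 10) * B) f p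
    else hi r i o ((r a + 10) * B) f p
  else if r p = r a + 1 then
    if Cut r i o a p then pos p
    else if ∀ s, Seg r i o a s → i p < o s then lo r i o ((r a + 10) * B) f p
    else hi r i o ((r a + 10) * B) f p
  else lo r i o ((r a + 10) * B) f p

theorem lo_congr {D : ℤ} {f g : X → ℤ} {p : X} (h : ∀ z, r p = r z + 1 → f z = g z) :
    lo r i o D f p = lo r i o D g p := by
  unfold lo
  congr 2
  apply Finset.sup_congr rfl
  intro z _
  split_ifs with hz
  · rw [h z hz.1]
  · rfl

theorem hi_congr {D : ℤ} {f g : X → ℤ} {p : X} (h : ∀ z, r p = r z + 1 → f z = g z) :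
    hi r i o D f p = hi r i o D g p := by
  unfold hi
  congr 2
  apply Finset.sup_congr rfl
  intro z _
  split_ifs with hz
  · rw [h z hz.1]
  · rfl

theorem Phi_congr {f g : X → ℤ} {p : X} (h : ∀ z, r p = r z + 1 → f z = g z) :
    Phi r i o a B pos f p = Phi r i o a B pos g p := by
  unfold Phi
  rw [lo_congr r i o h, hi_congr r i o h]

/-- existence of the labels `kout` -/
theorem exists_fix (lb : ∀ p, -5 ≤ r p) : ∃ k : X → ℤ, ∀ p, k p = Phi r i o a B pos k p := by
  let F : (p : X) → ((z : X) → (r z + 5).toNat < (r p + 5).toNat → ℤ) → ℤ := fun p f =>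
    Phi r i o a B pos (fun z => if h : (r z + 5).toNat < (r p + 5).toNat then f z h else 0) p
  have wf : WellFounded (fun z p : X => (r z + 5).toNat < (r p + 5).toNat) :=
    InvImage.wf (fun p : X => (r p + 5).toNat) Nat.lt_wfRel.wf
  refine ⟨wf.fix F, fun p => ?_⟩
  rw [wf.fix_eq]
  apply Phi_congr
  intro z hz
  have := lb z
  rw [dif_pos (by omega)]

end

end Pool.Agent.J4H41.AM
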