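import Pool.Agent.J4H41.AM.Strand

/-!
# Properties of the labels, ranks at most the rank of `a`
-/

namespace Pool.Agent.J4H41.AM

open Classical

section
variable {X : Type} [Fintype X] {r i o : X → ℤ} {a : X} {B : ℤ} {pos k : X → ℤ}

set_option linter.unusedSectionVars false
set_option linter.unusedVariables false

theorem sameGap_refl (p : X) : SameGap r i o p p := fun z _ => ⟨by omega, by omega⟩

theorem SameGap.symm {p p' : X} (h : SameGap r i o p p') (hr : r p = r p') : SameGap r i o p' p :=
  fun z hz => ⟨(h z (by omega)).2, (h z (by omega)).1⟩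

theorem SI.D_ge (S : SI r i o a B pos) (p : X) (h : r p ≤ r a) :
    (r a - r p + 1) * B ≤ (r a + 10) * B := by
  have := S.lb p; have := S.hB; nlinarith

theorem SI.D_B (S : SI r i o a B pos) : B ≤ (r a + 10) * B := by
  have := S.ha; have := S.hB; nlinarith

/-- elements of the segment of `a` are the chain elements of rank `r a` -/
theorem seg_iff {p : X} (h : r p = r a) : CC r i o a p ↔ Seg r i o a p := by
  constructor
  · rintro ⟨_, c, hc, h1, h2⟩
    have := hc.rank.2 (by omega)
    subst this
    exact ⟨h, h2⟩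
  · rintro ⟨h1, h2⟩
    exact ⟨h.le, a, IsC.base, h.symm, h2⟩

theorem k_seg (hk : ∀ p, k p = Phi r i o a B pos k p) {p : X} (h : Seg r i o a p) :
    k p = pos p := by
  have h1 := h.1
  have h2 := (seg_iff h1).2 h
  rw [hk p]
  unfold Phi
  rw [if_pos h1.le, if_pos h2, if_pos h1]

theorem k_neg (hk : ∀ p, k p = Phi r i o a B pos k p) {p : X} (h : r p < r a) (hc : CC r i o a p)
    (hd : ∃ d, IsC r i o a d ∧ r d = r p + 1 ∧ o p < i d) : k p = -((r a - r p) * B) := by
  rw [hk p]
  unfold Phi
  rw [if_pos h.le, if_pos hc, if_neg (by omega), if_pos hd]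

theorem k_pos (hk : ∀ p, k p = Phi r i o a B pos k p) {p : X} (h : r p < r a) (hc : CC r i o a p)
    (hd : ¬ ∃ d, IsC r i o a d ∧ r d = r p + 1 ∧ o p < i d) : k p = (r a - r p) * B := by
  rw [hk p]
  unfold Phi
  rw [if_pos h.le, if_pos hc, if_neg (by omega), if_neg hd]

theorem k_lo (hk : ∀ p, k p = Phi r i o a B pos k p) {p : X} (h : r p ≤ r a) (hc : ¬ CC r i o a p)
    (hd : ∃ c, IsC r i o a c ∧ r c = r p ∧ i p < i c) : k p = lo r i o ((r a + 10) * B) k p := by
  conv_lhs => rw [hk p]
  unfold Phi
  rw [if_pos h, if_neg hc, if_pos hd]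

theorem k_hi (hk : ∀ p, k p = Phi r i o a B pos k p) {p : X} (h : r p ≤ r a) (hc : ¬ CC r i o a p)
    (hd : ¬ ∃ c, IsC r i o a c ∧ r c = r p ∧ i p < i c) : k p = hi r i o ((r a + 10) * B) k p := by
  conv_lhs => rw [hk p]
  unfold Phi
  rw [if_pos h, if_neg hc, if_neg hd]

variable (r i o a B k) in
/-- invariants of level `n` -/
structure Lv (n : ℤ) : Prop where
  m1 : ∀ p p', r p = n → r p' = n → o p < o p' → k p ≤ k p'
  bd : ∀ p, r p = n → -((r a + 10) * B) ≤ k p ∧ k p ≤ (r a + 10) * B
  sg : n < r a → ∀ p, r p = n → (r a - n) * B ≤ k p ∨ k p ≤ -((r a - n) * B)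
  ch : n < r a → ∀ p, r p = n → (∀ d, IsC r i o a d → r d = n + 1 →
    (o p < i d → k p < 0) ∧ (i d < o p → 0 < k p)) ∧ ((∀ d, IsC r i o a d → r d ≠ n + 1) → 0 < k p)

/-- the two rules -/
theorem sides (S : SI r i o a B pos) (hk : ∀ p, k p = Phi r i o a B pos k p) {n : ℤ}
    (L : Lv r i o a B k (n - 1)) (hn : n ≤ r a) {p : X} (hp : r p = n) (hc : ¬ CC r i o a p) :
    ((∃ c, IsC r i o a c ∧ r c = n ∧ i p < i c) ∧ k p = lo r i o ((r a + 10) * B) k p ∧
      k p ≤ -((r a - n + 1) * B)) ∨
    ((∀ c, IsC r i o a c → r c = n → i c < i p) ∧ k p = hi r i o ((r a + 10) * B) k p ∧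
      (r a - n + 1) * B ≤ k p) := by
  have hB := S.hB
  have e : (r a - (n - 1)) * B = (r a - n + 1) * B := by ring
  have hpos : 0 < (r a - n + 1) * B := by apply mul_pos <;> omega
  have hD := S.D_ge p (by omega)
  rw [hp] at hD
  by_cases hd : ∃ c, IsC r i o a c ∧ r c = n ∧ i p < i c
  · left
    obtain ⟨c, c1, c2, c3⟩ := hd
    refine ⟨⟨c, c1, c2, c3⟩, k_lo hk (by omega) hc ⟨c, c1, by omega, c3⟩, ?_⟩
    rw [k_lo hk (by omega) hc ⟨c, c1, by omega, c3⟩]
    apply lo_le
    · intro z hz hz'
      have h1 := ((L.ch (by omega) z (by omega)).1 c c1 (by omega)).1 (by omega)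
      have h2 := L.sg (by omega) z (by omega)
      rw [e] at h2
      omega
    · omega
  · right
    have hd' : ∀ c, IsC r i o a c → r c = n → i c < i p := by
      intro c c1 c2
      rcases lt_trichotomy (i c) (i p) with h | h | h
      · exact h
      · exfalso
        have := S.R.ii c p (by omega) h
        subst this
        exact hc ⟨by omega, c, c1, rfl, sameGap_refl _⟩
      · exact absurd ⟨c, c1, c2, h⟩ hd
    have hk' := k_hi hk (p := p) (by omega) hc (by
      rintro ⟨c, c1, c2, c3⟩; exact hd ⟨c, c1, by omega, c3⟩)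
    refine ⟨hd', hk', ?_⟩
    rw [hk']
    apply le_hi
    · intro z hz hz'
      have h2 := L.sg (by omega) z (by omega)
      rw [e] at h2
      by_cases hx : ∃ c, IsC r i o a c ∧ r c = n
      · obtain ⟨c, c1, c2⟩ := hx
        have h3 := hd' c c1 c2
        have h1 := ((L.ch (by omega) z (by omega)).1 c c1 (by omega)).2 (by omega)
        omega
      · have h1 := (L.ch (by omega) z (by omega)).2 (by
          intro d d1 d2; exact hx ⟨d, d1, by omega⟩)
        omega
    · omega

/-- the in-labels -/
noncomputable def kin' (r i o : X → ℤ) (a : X) (k : X → ℤ) (p : X) : ℤ :=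
  if CC r i o a p then 0 else k p

variable (k) in
theorem lo_mono (R : Ranked r i o) {D : ℤ} {p p' : X} (h : r p = r p') (h' : i p ≤ i p') :
    lo r i o D k p ≤ lo r i o D k p' := by
  apply lo_le
  · intro z h1 h2
    exact le_lo (by omega) (by omega)
  · exact lo_ge _

variable (k) in
theorem hi_mono (R : Ranked r i o) {D : ℤ} {p p' : X} (h : r p = r p') (h' : i p ≤ i p') :
    hi r i o D k p ≤ hi r i o D k p' := by
  apply le_hi
  · intro z h1 h2
    exact hi_le (by omega) (by omega)
  · exact hi_le_D _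

/-- two elements in the same gap have the same `lo` -/
theorem lo_gap (R : Ranked r i o) {D : ℤ} {p p' : X} (h : r p = r p') (h' : SameGap r i o p p') :
    lo r i o D k p = lo r i o D k p' := by
  apply le_antisymm
  · apply lo_le
    · intro z h1 h2
      apply le_lo (by omega)
      rcases lt_trichotomy (o z) (i p') with h3 | h3 | h3
      · exact h3
      · exact absurd h3 (R.ne z p' (by omega))
      · exact absurd ⟨h3, h2⟩ (h' z h1).2
    · exact lo_ge _
  · apply lo_le
    · intro z h1 h2
      apply le_lo (by omega)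
      rcases lt_trichotomy (o z) (i p) with h3 | h3 | h3
      · exact h3
      · exact absurd h3 (R.ne z p (by omega))
      · exact absurd ⟨h3, h2⟩ (h' z (by omega)).1
    · exact lo_ge _

theorem hi_gap (R : Ranked r i o) {D : ℤ} {p p' : X} (h : r p = r p') (h' : SameGap r i o p p') :
    hi r i o D k p = hi r i o D k p' := by
  apply le_antisymm
  · apply le_hi
    · intro z h1 h2
      apply hi_le (by omega)
      rcases lt_trichotomy (i p) (o z) with h3 | h3 | h3
      · exact h3
      · exact absurd h3.symm (R.ne z p (by omega))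
      · exact absurd ⟨h2, h3⟩ (h' z (by omega)).2
    · exact hi_le_D _
  · apply le_hi
    · intro z h1 h2
      apply hi_le (by omega)
      rcases lt_trichotomy (i p') (o z) with h3 | h3 | h3
      · exact h3
      · exact absurd h3.symm (R.ne z p' (by omega))
      · exact absurd ⟨h2, h3⟩ (h' z (by omega)).1
    · exact hi_le_D _

/-- two elements of the same rank with reversed out-coordinates are in the same gap -/
theorem gap_of_rev (R : Ranked r i o) {p p' : X} (h : r p = r p') (h1 : i p' < i p)
    (h2 : o p < o p') : SameGap r i o p p' := by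
  intro z hz
  refine ⟨by omega, ?_⟩
  rintro ⟨h3, h4⟩
  have := R.R z p' p (by omega) hz h3 h4
  omega

theorem CC.gap {p p' : X} (h : CC r i o a p) (hr : r p = r p') (hg : SameGap r i o p p')
    (R : Ranked r i o) : CC r i o a p' := by
  obtain ⟨h1, c, h2, h3, h4⟩ := h
  refine ⟨by omega, c, h2, by omega, ?_⟩
  intro z hz
  have g1 := hg z (by omega)
  have g2 := h4 z (by omega)
  have n1 := R.ne z p (by omega)
  constructor <;> rintro ⟨h5, h6⟩ <;> rcases lt_trichotomy (o z) (i p) with h7 | h7 | h7 <;>
    first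
      | exact n1 h7
      | omega

/-- comparisons of in-labels with out-labels of the previous rank -/
theorem step3 (S : SI r i o a B pos) (hk : ∀ p, k p = Phi r i o a B pos k p) {n : ℤ}
    (L : Lv r i o a B k (n - 1)) (hn : n ≤ r a) {z p : X} (hp : r p = n) (hz : r z = n - 1) :
    (o z < i p → k z ≤ kin' r i o a k p) ∧ (i p < o z → kin' r i o a k p ≤ k z) := by
  have hB := S.hB
  unfold kin'
  by_cases hc : CC r i o a p
  · rw [if_pos hc]
    obtain ⟨_, c, c1, c2, c3⟩ := hc
    have h1 := (L.ch (by omega) z hz).1 c c1 (by omega)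
    have h2 := c3 z (by omega)
    have n1 := S.R.ne z c (by omega)
    constructor
    · intro h
      rcases lt_trichotomy (o z) (i c) with h3 | h3 | h3
      · exact (h1.1 h3).le
      · exact absurd h3 n1
      · exact absurd ⟨h3, h⟩ h2.2
    · intro h
      rcases lt_trichotomy (o z) (i c) with h3 | h3 | h3
      · exact absurd ⟨h, h3⟩ h2.1
      · exact absurd h3 n1
      · exact (h1.2 h3).le
  · rw [if_neg hc]
    rcases sides S hk L hn hp hc with ⟨_, h1, _⟩ | ⟨_, h1, _⟩
    · rw [h1]
      refine ⟨fun h => le_lo (by omega) h, fun h => ?_⟩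
      apply lo_le
      · intro z' h2 h3
        exact L.m1 z' z (by omega) hz (by omega)
      · exact (L.bd z hz).1
    · rw [h1]
      refine ⟨fun h => ?_, fun h => hi_le (by omega) h⟩
      apply le_hi
      · intro z' h2 h3
        exact L.m1 z z' hz (by omega) (by omega)
      · exact (L.bd z hz).2

/-- monotonicity of in-labels -/
theorem step2 (S : SI r i o a B pos) (hk : ∀ p, k p = Phi r i o a B pos k p) {n : ℤ}
    (L : Lv r i o a B k (n - 1)) (hn : n ≤ r a) {p p' : X} (hp : r p = n) (hp' : r p' = n)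
    (h : i p < i p') : kin' r i o a k p ≤ kin' r i o a k p' := by
  have hB := S.hB
  have hpos : 0 < (r a - n + 1) * B := by apply mul_pos <;> omega
  unfold kin'
  by_cases hc : CC r i o a p <;> by_cases hc' : CC r i o a p'
  · rw [if_pos hc, if_pos hc']
  · rw [if_pos hc, if_neg hc']
    rcases sides S hk L hn hp' hc' with ⟨⟨c, c1, c2, c3⟩, h1, h2⟩ | ⟨_, h1, h2⟩
    · exfalso
      obtain ⟨_, c', d1, d2, d3⟩ := id hc
      have := d1.unique S.R c1 (by omega)
      subst this
      refine hc' (hc.gap (by omega) ?_ S.R)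
      intro z hz
      have := d3 z hz
      refine ⟨fun h4 => this.1 ⟨h4.1, by omega⟩, by omega⟩
    · omega
  · rw [if_neg hc, if_pos hc']
    rcases sides S hk L hn hp hc with ⟨_, h1, h2⟩ | ⟨c3, h1, h2⟩
    · omega
    · exfalso
      obtain ⟨_, c', d1, d2, d3⟩ := id hc'
      have h4 := c3 c' d1 (by omega)
      refine hc (hc'.gap (by omega) ?_ S.R)
      intro z hz
      have := d3 z (by omega)
      refine ⟨by omega, fun h5 => this.2 ⟨by omega, h5.2⟩⟩
  · rw [if_neg hc, if_neg hc']
    rcases sides S hk L hn hp hc with ⟨_, h1, h2⟩ | ⟨c3, h1, h2⟩ <;>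
    rcases sides S hk L hn hp' hc' with ⟨⟨c', c1', c2', c3'⟩, h1', h2'⟩ | ⟨c3', h1', h2'⟩
    · rw [h1, h1']; exact lo_mono k S.R (by omega) h.le
    · omega
    · have := c3 c' c1' c2'; omega
    · rw [h1, h1']; exact hi_mono k S.R (by omega) h.le

/-- values on chain segments -/
theorem cc_val (S : SI r i o a B pos) (hk : ∀ p, k p = Phi r i o a B pos k p) {p : X}
    (h : r p < r a) (hc : CC r i o a p) :
    ((∃ d, IsC r i o a d ∧ r d = r p + 1 ∧ o p < i d) ∧ k p = -((r a - r p) * B)) ∨
    ((∀ d, IsC r i o a d → r d = r p + 1 → i d < o p) ∧ k p = (r a - r p) * B) := by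
  by_cases hd : ∃ d, IsC r i o a d ∧ r d = r p + 1 ∧ o p < i d
  · exact Or.inl ⟨hd, k_neg hk h hc hd⟩
  · refine Or.inr ⟨?_, k_pos hk h hc hd⟩
    intro d d1 d2
    rcases lt_trichotomy (i d) (o p) with h1 | h1 | h1
    · exact h1
    · exact absurd h1.symm (S.R.ne p d d2)
    · exact absurd ⟨d, d1, d2, h1⟩ hd

/-- range of the labels of level `n ≤ r a` -/
theorem range_k (S : SI r i o a B pos) (hk : ∀ p, k p = Phi r i o a B pos k p) {n : ℤ}
    (L : Lv r i o a B k (n - 1)) (hn : n ≤ r a) {p : X} (hp : r p = n) :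
    (¬ CC r i o a p ∧ ((r a - n + 1) * B ≤ k p ∨ k p ≤ -((r a - n + 1) * B))) ∨
    (CC r i o a p ∧ n = r a ∧ k p = pos p ∧ 0 ≤ k p ∧ k p < B) ∨
    (CC r i o a p ∧ n < r a ∧ (k p = (r a - n) * B ∨ k p = -((r a - n) * B))) := by
  by_cases hc : CC r i o a p
  · right
    rcases hn.lt_or_eq with h | h
    · right
      refine ⟨hc, h, ?_⟩
      rcases cc_val S hk (by omega : r p < r a) hc with h1 | h1
      · right; rw [← hp]; exact h1.2
      · left; rw [← hp]; exact h1.2
    · left
      have hs := (seg_iff (by omega : r p = r a)).1 hc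
      have := S.posr p (Or.inl hs)
      have h2 := k_seg hk hs
      exact ⟨hc, h, h2, by omega, by omega⟩
  · left
    refine ⟨hc, ?_⟩
    rcases sides S hk L hn hp hc with ⟨_, h1, h2⟩ | ⟨c3, h1, h2⟩ <;> omega

/-- the invariants are preserved, `n ≤ r a` -/
theorem step_le (S : SI r i o a B pos) (hk : ∀ p, k p = Phi r i o a B pos k p) {n : ℤ}
    (L : Lv r i o a B k (n - 1)) (hn : n ≤ r a) (hlb : -5 ≤ n) : Lv r i o a B k n := by
  have hB := S.hB
  have hpos : 0 < (r a - n + 1) * B := by apply mul_pos <;> omega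
  have e : (r a - n + 1) * B = (r a - n) * B + B := by ring
  have hnn : 0 ≤ (r a - n) * B := by apply mul_nonneg <;> omega
  have hDB := S.D_B
  have hDn : (r a - n + 1) * B ≤ (r a + 10) * B := by nlinarith
  refine ⟨?_, ?_, ?_, ?_⟩
  · -- m1
    intro p p' hp hp' ho
    by_cases hc : CC r i o a p <;> by_cases hc' : CC r i o a p'
    · rcases hn.lt_or_eq with h | h
      · rcases cc_val S hk (by omega : r p < r a) hc with ⟨_, h1⟩ | ⟨h0, h1⟩ <;>
        rcases cc_val S hk (by omega : r p' < r a) hc' with ⟨⟨d, d1, d2, d3⟩, h1'⟩ | ⟨_, h1'⟩ <;>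
        rw [h1, h1', hp, hp']
        · nlinarith
        · have := h0 d d1 (by omega)
          omega
      · have hs := (seg_iff (by omega : r p = r a)).1 hc
        have hs' := (seg_iff (by omega : r p' = r a)).1 hc'
        rw [k_seg hk hs, k_seg hk hs']
        exact (S.pss p p' hs hs' ho).le
    · -- `p` on the chain, `p'` not
      rcases sides S hk L hn hp' hc' with ⟨⟨c, c1, c2, c3⟩, h1, h2⟩ | ⟨_, h1, h2⟩
      · exfalso
        obtain ⟨_, c', d1, d2, d3⟩ := id hc
        have := d1.unique S.R c1 (by omega)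
        subst this
        refine hc' (hc.gap (by omega) ?_ S.R)
        -- no element between `i p'` and `i p`
        intro z hz
        have h3 := d3 z hz
        have n1 := S.R.ne z p (by omega)
        refine ⟨fun h4 => h3.1 ⟨h4.1, by omega⟩, fun h4 => ?_⟩
        have := S.R.R z p' p (by omega) (by omega) h4.1 h4.2
        omega
      · rcases range_k S hk L hn hp with h3 | h3 | h3
        · exact absurd hc h3.1
        · have : (r a - n) * B = 0 := by rw [h3.2.1]; ring
          omega
        · omega
    · rcases sides S hk L hn hp hc with ⟨_, h1, h2⟩ | ⟨c3, h1, h2⟩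
      · rcases range_k S hk L hn hp' with h3 | h3 | h3
        · exact absurd hc' h3.1
        · omega
        · omega
      · exfalso
        obtain ⟨_, c', d1, d2, d3⟩ := id hc'
        have h4 := c3 c' d1 (by omega)
        refine hc (hc'.gap (by omega) ?_ S.R)
        intro z hz
        have h3 := d3 z (by omega)
        refine ⟨fun h5 => ?_, fun h5 => h3.2 ⟨by omega, h5.2⟩⟩
        have := S.R.R z p' p (by omega) (by omega) h5.1 h5.2
        omega
    · -- both on strands
      rcases lt_trichotomy (i p) (i p') with h | h | h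
      · have := step2 S hk L hn hp hp' h
        unfold kin' at this
        rwa [if_neg hc, if_neg hc'] at this
      · have := S.R.ii p p' (by omega) h
        subst this; omega
      · have hg := gap_of_rev S.R (by omega : r p = r p') h ho
        rcases sides S hk L hn hp hc with ⟨⟨c, c1, c2, c3⟩, h1, h2⟩ | ⟨c3, h1, h2⟩ <;>
        rcases sides S hk L hn hp' hc' with ⟨⟨c', c1', c2', c3'⟩, h1', h2'⟩ | ⟨c3', h1', h2'⟩
        · rw [h1, h1', lo_gap S.R (by omega) hg]
        · omega
        · exfalso
          have h3 := c3 c' c1' c2'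
          refine hc ⟨by omega, c', c1', by omega, ?_⟩
          intro z hz
          have := hg z hz
          refine ⟨by omega, fun h4 => this.2 ⟨by omega, h4.2⟩⟩
        · rw [h1, h1', hi_gap S.R (by omega) hg]
  · -- bd
    intro p hp
    by_cases hc : CC r i o a p
    · rcases range_k S hk L hn hp with h3 | h3 | h3
      · exact absurd hc h3.1
      · omega
      · omega
    · rcases sides S hk L hn hp hc with ⟨_, h1, h2⟩ | ⟨c3, h1, h2⟩
      · have := lo_ge (r := r) (i := i) (o := o) (f := k) (D := (r a + 10) * B) p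
        omega
      · have := hi_le_D (r := r) (i := i) (o := o) (f := k) (D := (r a + 10) * B) p
        omega
  · -- sg
    intro hlt p hp
    rcases range_k S hk L hn hp with h3 | h3 | h3 <;> omega
  · -- ch
    intro hlt p hp
    have hn0 : 0 < (r a - n) * B := by apply mul_pos <;> omega
    refine ⟨fun d d1 d2 => ⟨fun h => ?_, fun h => ?_⟩, fun h => ?_⟩
    · by_cases hc : CC r i o a p
      · rw [k_neg hk (by omega) hc ⟨d, d1, by omega, h⟩, hp]
        omega
      · rcases sides S hk L hn hp hc with ⟨_, h1, h2⟩ | ⟨c3, h1, h2⟩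
        · omega
        · exfalso
          obtain ⟨m, m1, m2, m3, m4⟩ := d1.next (z := p) (by omega) h
          have := c3 m m1 (by omega)
          have := m4 p m2.symm h
          omega
    · by_cases hc : CC r i o a p
      · rcases cc_val S hk (by omega : r p < r a) hc with ⟨⟨d', e1, e2, e3⟩, _⟩ | ⟨_, h1⟩
        · have := d1.unique S.R e1 (by omega)
          subst this; omega
        · rw [h1, hp]; omega
      · rcases sides S hk L hn hp hc with ⟨⟨c, c1, c2, c3⟩, h1, h2⟩ | ⟨c3, h1, h2⟩
        · exfalso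
          obtain ⟨d', e1, e2, e3, e4⟩ := c1.pred (by omega)
          have := d1.unique S.R e1 (by omega)
          subst this
          refine hc ⟨by omega, c, c1, by omega, ?_⟩
          intro z hz
          refine ⟨fun h5 => ?_, by omega⟩
          have := S.R.R z p c (by omega) (by omega) h5.1 h5.2
          omega
        · omega
    · by_cases hc : CC r i o a p
      · exfalso
        obtain ⟨_, c, c1, c2, c3⟩ := hc
        obtain ⟨d', e1, e2, _⟩ := c1.pred (by omega)
        exact h d' e1 (by omega)
      · rcases sides S hk L hn hp hc with ⟨⟨c, c1, c2, c3⟩, h1, h2⟩ | ⟨c3, h1, h2⟩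
        · exfalso
          obtain ⟨d', e1, e2, _⟩ := c1.pred (by omega)
          exact h d' e1 (by omega)
        · omega

end

end Pool.Agent.J4H41.AM
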